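import Pool.Agent.Helper7.NM.Large

set_option autoImplicit false

/-! Small multiplicities: the two-speed start followed by unit nodal moves. -/

namespace Pool.Agent.Helper7.NM

open Pool.Agent.Helper41.Fat Pool.Agent.Helper42.Game

variable {K : Type*} [Field K]

theorem good_of_ge {r m : ℕ} {n : ℕ → ℕ} (h : ∀ c < m, r * (m - c) ≤ n c) :
    Good K r m n (r * (m + 1).choose 2) := by
  have hf := Good.final (K := K) r m n
  have e : ∑ c ∈ Finset.range m, min (n c) (r * (m - c)) = r * (m + 1).choose 2 := by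
    rw [← sum_stair, Finset.mul_sum]
    refine Finset.sum_congr rfl fun c hc => ?_
    exact min_eq_right (h c (Finset.mem_range.1 hc))
  rw [e] at hf
  exact hf

theorem good_of_le {r m B : ℕ} {n : ℕ → ℕ} (h : ∀ c < m, n c ≤ r * (m - c))
    (hz : ∀ c, m ≤ c → n c = 0) (hB : m ≤ B) :
    Good K r m n (∑ c ∈ Finset.range B, n c) := by
  have hf := Good.final (K := K) r m n
  have e : ∑ c ∈ Finset.range m, min (n c) (r * (m - c)) = ∑ c ∈ Finset.range B, n c := by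
    have h1 : ∑ c ∈ Finset.range m, min (n c) (r * (m - c)) = ∑ c ∈ Finset.range m, n c :=
      Finset.sum_congr rfl fun c hc => min_eq_left (h c (Finset.mem_range.1 hc))
    rw [h1]
    exact Finset.sum_subset (Finset.range_subset_range.2 hB) (fun c _ hc =>
      hz c (by rw [Finset.mem_range] at hc; omega))
  rw [e] at hf
  exact hf

theorem small_regular [Infinite K] {r m d a b e : ℕ} {η : ℝ} (ha : 0 < a) (hab : a ^ 2 ≤ b)
    (hr : (r : ℝ) = ((b : ℝ) / a) ^ 2 + 2 * e + η) (hη : 0 ≤ η)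
    (h : (m * r + (m + 1) * ((b : ℝ) / a) ^ 2) / 2 + (a : ℝ) ^ 2 / 8 + η * m / 2
      ≤ (b : ℝ) / a * ((d : ℝ) + 3 / 2)) :
    Good K r m (fun b => d + 1 - b) (r * (m + 1).choose 2) := by
  have ha' : (0 : ℝ) < a := by exact_mod_cast ha
  have hb : 0 < b := lt_of_lt_of_le (by positivity) hab
  have hb' : (0 : ℝ) < b := by exact_mod_cast hb
  have hm0 : (0 : ℝ) ≤ m := Nat.cast_nonneg m
  have he0 : (0 : ℝ) ≤ e := Nat.cast_nonneg e
  obtain ⟨x0, hx0d⟩ : ∃ x0 : ℝ, x0 = (b : ℝ) / a := ⟨_, rfl⟩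
  have hx0 : 0 < x0 := by rw [hx0d]; positivity
  rw [← hx0d] at hr h
  apply good_phiF d ha hab
  obtain ⟨L, hL⟩ : ∃ L : ℝ, L = x0 * ((d : ℝ) + 3 / 2) - x0 ^ 2 / 2 - (a : ℝ) ^ 2 / 8 := ⟨_, rfl⟩
  have hrow : ∀ c ≤ m, L - x0 ^ 2 * c ≤ (phi b (a ^ 2) (strip a d 0) c : ℝ) := by
    intro c _
    have h3 := phi_ge b (a ^ 2) (strip a d 0) c (by positivity)
    push_cast at h3
    refine le_trans ?_ h3
    have hαr : (a : ℝ) * ((d : ℝ) + 1 - ((a : ℝ) - 1) / 2) ≤ strip a d 0 := by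
      have h4 := strip_ge a d 0
      simpa using h4
    have h5 : (b : ℝ) / a ^ 2 * ((a : ℝ) * ((d : ℝ) + 1 - ((a : ℝ) - 1) / 2))
        ≤ (b : ℝ) / a ^ 2 * strip a d 0 := mul_le_mul_of_nonneg_left hαr (by positivity)
    have e2 : L - x0 ^ 2 * c = (b : ℝ) / a ^ 2 * ((a : ℝ) * ((d : ℝ) + 1 - ((a : ℝ) - 1) / 2))
        - (b : ℝ) / a ^ 2 * (b * c) - (b : ℝ) ^ 2 / (2 * a ^ 2) + b / 2 - a ^ 2 / 8 := by
      rw [hL, hx0d]
      field_simp
      ring
    rw [e2]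
    have e3 : (b : ℝ) / a ^ 2 * ((strip a d 0 : ℝ) - b * c) = (b : ℝ) / a ^ 2 * strip a d 0
        - (b : ℝ) / a ^ 2 * (b * c) := by ring
    rw [e3]
    linarith
  have hanti : Antitone (phi b (a ^ 2) (strip a d 0)) := by
    intro c c' hcc
    apply Finset.sum_le_sum
    intro l _
    have : b * c ≤ b * c' := Nat.mul_le_mul_left b hcc
    omega
  have hkey : (m : ℝ) * r ≤ L + e * m := by
    have h1 : (e : ℝ) * m = (r - x0 ^ 2 - η) * m / 2 := by rw [hr]; ring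
    rw [h1, hL]
    linarith
  refine unit_low (Q := m) (fun n hn hg => nodal_move 1 m (fun c c' h _ => hn h) hg) e L (x0 ^ 2)
    _ hanti hrow ?_ ?_
  · have h2 : (m : ℝ) * r = m * x0 ^ 2 + 2 * (e * m) + η * m := by rw [hr]; ring
    have h3 : 0 ≤ η * m := by positivity
    linarith
  · intro n' hn' h3
    apply good_of_ge
    intro c hc
    have h4 := h3 c hc.le
    have h5 : ((r * (m - c) : ℕ) : ℝ) ≤ (n' c : ℝ) := by
      rw [Nat.cast_mul, Nat.cast_sub hc.le]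
      have h6 : 0 ≤ η * c := by positivity
      have h7 : (r : ℝ) * (m - c) = m * r - (x0 ^ 2 + 2 * e) * c - η * c := by
        have : (r : ℝ) * (m - c) = m * r - r * c := by ring
        rw [this]
        nth_rewrite 2 [hr]
        ring
      rw [h7]
      linarith
    exact_mod_cast h5

theorem small_empty [Infinite K] {r m d a b e k : ℕ} {η κ : ℝ} (ha : 0 < a)
    (hab : 3 * a ^ 2 ≤ b) (had : a ≤ d + 1) (hm : 1 ≤ m)
    (hr : (r : ℝ) = ((b : ℝ) / a) ^ 2 + 2 * e + η) (hη : 0 ≤ η) (hκ0 : 0 ≤ κ)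
    (hκ : (d : ℝ) + 3 / 2 = (b : ℝ) / a * (m + 1) + κ) (hκ1 : κ ≤ (b : ℝ) / a)
    (hk : κ ^ 2 / 2 + a * κ / 2 + (a : ℝ) ^ 2 / 8 ≤ k * (m + 1)) (hke : k ≤ e)
    (hkm : (k : ℝ) * m ≤ ((b : ℝ) / a) ^ 2 / 2) (hem : (e : ℝ) * (m - 1) ≤ 3 / 2 * ((b : ℝ) / a) ^ 2)
    (h : (b : ℝ) / a * ((d : ℝ) + 3 / 2) + 3 / 4 * (a : ℝ) ^ 2 + k + 1 + η * m / 2 ≤
      (m * r + (m + 1) * ((b : ℝ) / a) ^ 2) / 2) :
    Good K r m (fun b => d + 1 - b) ((d + 2).choose 2) := by
  have ha' : (0 : ℝ) < a := by exact_mod_cast ha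
  have ha1 : (1 : ℝ) ≤ a := by exact_mod_cast ha
  have hb : 0 < b := lt_of_lt_of_le (by positivity) hab
  have hb' : (0 : ℝ) < b := by exact_mod_cast hb
  have hm1 : (1 : ℝ) ≤ m := by exact_mod_cast hm
  have hm0 : (0 : ℝ) < m := by linarith
  have hk0 : (0 : ℝ) ≤ k := Nat.cast_nonneg k
  obtain ⟨x0, hx0d⟩ : ∃ x0 : ℝ, x0 = (b : ℝ) / a := ⟨_, rfl⟩
  have hx0 : 0 < x0 := by rw [hx0d]; positivity
  have hax0 : (b : ℝ) = a * x0 := by rw [hx0d]; field_simp
  rw [← hx0d] at hr hκ hκ1 hkm hem h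
  obtain ⟨n2, hn2a, hn2b, hn2g⟩ := two_moves_empty (K := K) (d := d) ha hab
  set x := a ^ 2 with hx
  have hxN : 0 < x := by positivity
  have hxr : (x : ℝ) = (a : ℝ) ^ 2 := by rw [hx]; push_cast; ring
  have hxpos : (0 : ℝ) < x := by exact_mod_cast hxN
  have habR : 3 * (x : ℝ) ≤ b := by exact_mod_cast hab
  set α := strip a d 0 with hα
  have hαr : (α : ℝ) = (a : ℝ) * ((d : ℝ) + 3 / 2 - a / 2) := by
    have h4 := strip_eq a d 0 (by omega)
    rw [hα, h4]
    push_cast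
    ring
  have hαr2 : (α : ℝ) = b * (m + 1) + a * κ - x / 2 := by
    rw [hαr, hκ, hax0, hxr]
    ring
  have hE : ((x / 2 : ℕ) : ℝ) ≤ (x : ℝ) / 2 := Nat.cast_div_le
  obtain ⟨A0, hA0⟩ : ∃ A0 : ℝ, A0 = x0 * ((d : ℝ) + 3 / 2) - x0 ^ 2 / 2 + 3 / 4 * (a : ℝ) ^ 2 :=
    ⟨_, rfl⟩
  -- the linear bound
  have hlin : ∀ c : ℕ, (b : ℝ) / x * ((α : ℝ) - b * c) - (b : ℝ) ^ 2 / (2 * x) + b / 2 =
      A0 - 3 / 4 * (a : ℝ) ^ 2 - x0 ^ 2 * c := by
    intro c
    rw [hA0, hαr, hxr, hax0]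
    field_simp
    ring
  have hphi : ∀ c : ℕ, c ≤ m → (phi b x α c : ℝ) ≤ A0 - 1 / 2 * (a : ℝ) ^ 2 - x0 ^ 2 * c := by
    intro c hc
    have hcR : (c : ℝ) ≤ m := by exact_mod_cast hc
    have hbc : (b : ℝ) * c ≤ b * m := mul_le_mul_of_nonneg_left hcR hb'.le
    have hy : (b : ℝ) - x / 2 ≤ α - b * c := by
      rw [hαr2]
      have : 0 ≤ a * κ := by positivity
      have e1 : (b : ℝ) * (m + 1) = b * m + b := by ring
      rw [e1]
      linarith
    rcases Nat.lt_or_ge α (b * c + b) with h3 | h3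
    · have h3R : (α : ℝ) - b * c ≤ b := by
        have : (α : ℝ) ≤ b * c + b := by exact_mod_cast h3.le
        linarith
      have h4 : b * c ≤ α := by
        have : (b : ℝ) * c ≤ α := by linarith
        exact_mod_cast this
      have h5 := phi_last b x α c hxN h4 h3
      have h6 := hlin c
      obtain ⟨y, hy'⟩ : ∃ y : ℝ, y = (α : ℝ) - b * c := ⟨_, rfl⟩
      rw [← hy'] at h5 h6 hy h3R
      have h7 : (phi b x α c : ℝ) ≤ (y ^ 2 + y * x + (x : ℝ) ^ 2 / 4) / (2 * x) := by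
        rw [le_div_iff₀ (by positivity)]
        linarith
      have h8 : (y ^ 2 + y * x + (x : ℝ) ^ 2 / 4) / (2 * x) ≤
          (b : ℝ) / x * y - (b : ℝ) ^ 2 / (2 * x) + b / 2 + x / 4 := by
        have e1 : (b : ℝ) / x * y - (b : ℝ) ^ 2 / (2 * x) + b / 2 + x / 4 =
            (2 * b * y - b ^ 2 + b * x + x ^ 2 / 2) / (2 * x) := by
          field_simp
          ring
        rw [e1, div_le_div_iff_of_pos_right (by positivity)]
        have h9 : (b - y) * (b - y) ≤ (x / 2) * (x / 2) :=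
          mul_le_mul (by linarith) (by linarith) (by linarith) (by linarith)
        have h10 : 0 ≤ (b - y) * x := mul_nonneg (by linarith) hxpos.le
        linarith
      have h11 : (x : ℝ) / 4 = (a : ℝ) ^ 2 / 4 := by rw [hxr]
      rw [h11] at h8
      linarith
    · have h5 := phi_le b x α c hxN h3
      have h6 := hlin c
      rw [h6, hxr] at h5
      have : 0 ≤ (a : ℝ) ^ 2 := by positivity
      linarith
  have hrow : ∀ c < m + 1, (n2 c : ℝ) ≤ A0 - x0 ^ 2 * c := by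
    intro c hc
    have h3 := hn2b c
    have h4 : n2 c ≤ phi b x α c + x / 2 := by
      refine le_trans h3 ?_
      split_ifs <;> omega
    have h5 : (n2 c : ℝ) ≤ phi b x α c + ((x / 2 : ℕ) : ℝ) := by exact_mod_cast h4
    have h6 := hphi c (by omega)
    rw [hxr] at hE
    linarith
  have hz : ∀ c, m + 1 < c → n2 c = 0 := by
    intro c hc
    have h3 := hn2b c
    have h4 : phi b x α c = 0 := by
      apply phi_zero
      have h5 : (α : ℝ) ≤ b * c := by
        have h6 : (m : ℝ) + 2 ≤ c := by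
          have : m + 2 ≤ c := by omega
          exact_mod_cast this
        have h7 : (b : ℝ) * (m + 2) ≤ b * c := mul_le_mul_of_nonneg_left h6 hb'.le
        have h8 : (a : ℝ) * κ ≤ b := by
          rw [hax0]
          exact mul_le_mul_of_nonneg_left hκ1 ha'.le
        have e1 : (b : ℝ) * (m + 2) = b * (m + 1) + b := by ring
        rw [hαr2]
        linarith
      exact_mod_cast h5
    rw [h4, if_neg (by omega)] at h3
    omega
  have htop : n2 (m + 1) ≤ k * (m + 1) := by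
    have h3 := hn2b (m + 1)
    rw [if_neg (by omega), add_zero] at h3
    have h4 : (phi b x α (m + 1) : ℝ) ≤ k * (m + 1) := by
      rcases Nat.lt_or_ge α (b * (m + 1)) with h5 | h5
      · rw [phi_zero b x α (m + 1) h5.le]
        push_cast
        positivity
      · have h5R : (0 : ℝ) ≤ α - b * ((m + 1 : ℕ) : ℝ) := by
          have : ((b * (m + 1) : ℕ) : ℝ) ≤ α := by exact_mod_cast h5
          push_cast at this ⊢
          linarith
        have h6 : α < b * (m + 1) + b := by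
          have h7 : (a : ℝ) * κ ≤ b := by
            rw [hax0]
            exact mul_le_mul_of_nonneg_left hκ1 ha'.le
          have : (α : ℝ) < ((b * (m + 1) + b : ℕ) : ℝ) := by
            push_cast
            rw [hαr2]
            linarith
          exact_mod_cast this
        have h7 := phi_last b x α (m + 1) hxN h5 h6
        obtain ⟨y, hy'⟩ : ∃ y : ℝ, y = (α : ℝ) - b * ((m + 1 : ℕ) : ℝ) := ⟨_, rfl⟩
        rw [← hy'] at h7 h5R
        have hy2 : y ≤ a * κ := by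
          rw [hy', hαr2]
          push_cast
          linarith
        have h8 : (phi b x α (m + 1) : ℝ) ≤ (y ^ 2 + y * x + (x : ℝ) ^ 2 / 4) / (2 * x) := by
          rw [le_div_iff₀ (by positivity)]
          linarith
        have h9 : (y ^ 2 + y * x + (x : ℝ) ^ 2 / 4) / (2 * x) ≤
            κ ^ 2 / 2 + a * κ / 2 + (a : ℝ) ^ 2 / 8 := by
          have e1 : κ ^ 2 / 2 + a * κ / 2 + (a : ℝ) ^ 2 / 8 =
              ((a * κ) ^ 2 + (a * κ) * x + x ^ 2 / 4) / (2 * x) := by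
            rw [hxr]
            field_simp
            ring
          rw [e1, div_le_div_iff_of_pos_right (by positivity)]
          have h10 : y ^ 2 ≤ (a * κ) ^ 2 := pow_le_pow_left₀ h5R hy2 2
          have h11 : y * x ≤ (a * κ) * x := mul_le_mul_of_nonneg_right hy2 hxpos.le
          linarith
        linarith
    have h5 : (n2 (m + 1) : ℝ) ≤ ((k * (m + 1) : ℕ) : ℝ) := by
      have : (n2 (m + 1) : ℝ) ≤ phi b x α (m + 1) := by exact_mod_cast h3
      push_cast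
      linarith
    exact_mod_cast h5
  have hmove : ∀ (Q : ℕ) (n : ℕ → ℕ), Antitone n → (∀ c, Q < c → n c = 0) →
      Good K r m (nod 1 Q n) (∑ c ∈ Finset.range (Q + 1), nod 1 Q n c) →
      Good K r m n (∑ c ∈ Finset.range (Q + 1), n c) := by
    intro Q n hn _ hg
    rw [nod_sum] at hg
    exact nodal_move 1 Q (fun c c' h _ => hn h) hg
  -- lower bound for the level
  have hA0ge : x0 ^ 2 * (m + 1 / 2) ≤ A0 := by
    rw [hA0, hκ]
    have h3 : 0 ≤ x0 * κ := by positivity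
    have h4 : 0 ≤ (a : ℝ) ^ 2 := by positivity
    have e1 : x0 * (x0 * (m + 1) + κ) = x0 ^ 2 * (m + 1 / 2) + x0 ^ 2 / 2 + x0 * κ := by ring
    rw [e1]
    linarith
  have hA0m : x0 ^ 2 / 2 ≤ A0 - x0 ^ 2 * m := by
    have e1 : x0 ^ 2 * ((m : ℝ) + 1 / 2) = x0 ^ 2 * m + x0 ^ 2 / 2 := by ring
    rw [e1] at hA0ge
    linarith
  have hkeR : (k : ℝ) ≤ e := by exact_mod_cast hke
  have he' : ((e - k : ℕ) : ℝ) = e - k := by rw [Nat.cast_sub hke]
  have hcast1 : ((m + 1 : ℕ) : ℝ) - 1 = m := by push_cast; ring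
  apply hn2g r m (m + 2) (fun c hc => hz c (by omega))
  -- phase 1
  refine unit_up (Q := m + 1) (hmove (m + 1)) (by omega) k A0 (x0 ^ 2) (k * (m + 1)) n2 hn2a
    (fun c hc => hz c hc) hrow htop ?_ (by positivity) ?_
  · rw [hcast1]
    linarith
  intro n3 hn3a hn3z hn3b hn3t
  rw [Nat.sub_self] at hn3t
  have hn3m : n3 (m + 1) = 0 := by omega
  obtain ⟨A1, hA1⟩ : ∃ A1 : ℝ, A1 = A0 + k * (m + 1) := ⟨_, rfl⟩
  have hb3 : ∀ c < m + 1, (n3 c : ℝ) ≤ A1 - (x0 ^ 2 + 2 * k) * c := by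
    intro c hc
    have h3 := hn3b c hc
    rw [hcast1] at h3
    have h4 := min_le_left (k : ℝ) (((k * (m + 1) : ℕ) : ℝ) / ((m + 1 : ℕ) : ℝ) + 1)
    have e1 : A1 = A0 + k * m + k := by rw [hA1]; ring
    rw [e1]
    linarith
  have hsum : ∑ c ∈ Finset.range (m + 1 + 1), n3 c = ∑ c ∈ Finset.range (m + 1), n3 c := by
    rw [Finset.sum_range_succ, hn3m, add_zero]
  rw [hsum]
  have hz3 : ∀ c, m < c → n3 c = 0 := by
    intro c hc
    rcases Nat.lt_or_ge (m + 1) c with h3 | h3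
    · exact hn3z c h3
    · have : c = m + 1 := by omega
      rw [this]
      exact hn3m
  have hmain : (A0 + k) * (m + 1) + m ≤ (m * (r + x0 ^ 2) / 2 - η * m / 2) * (m + 1) := by
    have h3 : A0 + k + 1 ≤ m * (r + x0 ^ 2) / 2 - η * m / 2 := by
      rw [hA0]
      have e1 : (m * r + (m + 1) * x0 ^ 2) / 2 = m * (r + x0 ^ 2) / 2 + x0 ^ 2 / 2 := by ring
      rw [e1] at h
      linarith
    have h4 := mul_le_mul_of_nonneg_right h3 (by linarith : (0 : ℝ) ≤ m + 1)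
    have e1 : (A0 + k + 1) * ((m : ℝ) + 1) = (A0 + k) * (m + 1) + (m + 1) := by ring
    rw [e1] at h4
    linarith
  obtain ⟨u, hu⟩ : ∃ u : ℕ, u = ⌊A1 - (x0 ^ 2 + 2 * k) * m⌋₊ := ⟨_, rfl⟩
  have hA1m : 0 ≤ A1 - (x0 ^ 2 + 2 * k) * m := by
    have e1 : A1 - (x0 ^ 2 + 2 * k) * m = (A0 - x0 ^ 2 * m) - k * m + k := by rw [hA1]; ring
    rw [e1]
    linarith
  have hu1 : (u : ℝ) ≤ A1 - (x0 ^ 2 + 2 * k) * m := by rw [hu]; exact Nat.floor_le hA1m
  have hn3u : n3 m ≤ u := by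
    rw [hu]
    exact Nat.le_floor (hb3 m (by omega))
  have her : 2 * ((e - k : ℕ) : ℝ) = r - x0 ^ 2 - 2 * k - η := by
    rw [he', hr]
    ring
  -- phase 2
  refine unit_up (Q := m) (hmove m) (by omega) (e - k) A1 (x0 ^ 2 + 2 * k) u n3 hn3a hz3
    (fun c hc => hb3 c (by omega)) hn3u ?_ (by positivity) ?_
  · rw [he']
    have h3 : 3 / 2 * x0 ^ 2 + k * (m + 1) ≤ A1 - x0 ^ 2 * (m - 1) := by
      have e1 : x0 ^ 2 * ((m : ℝ) + 1 / 2) = x0 ^ 2 * (m - 1) + 3 / 2 * x0 ^ 2 := by ring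
      rw [e1] at hA0ge
      rw [hA1]
      linarith
    have h4 : ((e : ℝ) - k) * (m - 1) = e * (m - 1) - k * (m - 1) := by ring
    have h5 : (x0 ^ 2 + 2 * (k : ℝ)) * (m - 1) = x0 ^ 2 * (m - 1) + 2 * (k * (m - 1)) := by ring
    have h6 : (k : ℝ) * (m - 1) ≤ k * (m + 1) := mul_le_mul_of_nonneg_left (by linarith) hk0
    rw [h4, h5]
    linarith
  intro n4 hn4a hn4z hn4b hn4t
  have hu2 : u ≤ (e - k) * m := by
    have h3 : (u : ℝ) ≤ (((e - k) * m : ℕ) : ℝ) := by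
      rw [Nat.cast_mul]
      refine le_trans hu1 ?_
      have h4 : A1 - (x0 ^ 2 + 2 * k) * m - ((e - k : ℕ) : ℝ) * m =
          A0 + k - (m * (r + x0 ^ 2) / 2 - η * m / 2) := by
        have : ((e - k : ℕ) : ℝ) = (r - x0 ^ 2 - 2 * k - η) / 2 := by linarith
        rw [this, hA1]
        ring
      have h5 : A0 + k ≤ m * (r + x0 ^ 2) / 2 - η * m / 2 := by
        by_contra hcon
        push Not at hcon
        have := mul_lt_mul_of_pos_right hcon (by linarith : (0 : ℝ) < m + 1)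
        linarith
      linarith
    exact_mod_cast h3
  have hn4m : n4 m = 0 := by omega
  have hz4 : ∀ c, m ≤ c → n4 c = 0 := by
    intro c hc
    rcases Nat.lt_or_ge m c with h3 | h3
    · exact hn4z c h3
    · have : c = m := by omega
      rw [this]
      exact hn4m
  apply good_of_le _ hz4 (by omega)
  intro c hc
  have h3 := hn4b c hc
  have h4 := min_le_right (((e - k : ℕ) : ℝ)) ((u : ℝ) / m + 1)
  have h5 : (u : ℝ) / m ≤ (A1 - (x0 ^ 2 + 2 * k) * m) / m :=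
    div_le_div_of_nonneg_right hu1 hm0.le
  have hcR : (c : ℝ) ≤ m := by exact_mod_cast hc.le
  have h6 : ((n4 c : ℕ) : ℝ) ≤ ((r * (m - c) : ℕ) : ℝ) := by
    rw [Nat.cast_mul, Nat.cast_sub hc.le]
    have h7 : A1 + ((e - k : ℕ) : ℝ) * (m - 1) + ((A1 - (x0 ^ 2 + 2 * k) * m) / m + 1) + η * m
        ≤ r * m := by
      have e1 : A1 + ((e - k : ℕ) : ℝ) * (m - 1) + ((A1 - (x0 ^ 2 + 2 * k) * m) / m + 1) + η * m =
          ((A0 + k) * (m + 1) + m - (m * (r + x0 ^ 2) / 2 - η * m / 2) * (m + 1)) / m + r * m := by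
        have : ((e - k : ℕ) : ℝ) = (r - x0 ^ 2 - 2 * k - η) / 2 := by linarith
        rw [this, hA1]
        field_simp
        ring
      rw [e1]
      have h8 : ((A0 + k) * (m + 1) + m - (m * (r + x0 ^ 2) / 2 - η * m / 2) * (m + 1)) / m ≤ 0 :=
        div_nonpos_of_nonpos_of_nonneg (by linarith) hm0.le
      linarith
    have h8 : η * (c : ℝ) ≤ η * m := mul_le_mul_of_nonneg_left hcR hη
    have h9 : (r : ℝ) * (m - c) = r * m - (x0 ^ 2 + 2 * k + 2 * ((e - k : ℕ) : ℝ)) * c - η * c := by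
      rw [her]
      ring
    rw [h9]
    linarith
  exact_mod_cast h6

end Pool.Agent.Helper7.NM
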