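import Pool.Agent.Helper7.NM.Core
import Pool.Agent.Helper7.FreeMove
import Pool.Agent.Helper42.Envelope

set_option autoImplicit false

/-! NM-4. Emptiness through monomial moves, in every characteristic.

`hull_step`. `Good.inj` gives `η'` such that `Phi r m η'` is injective on `rows K h` (`h i = 0` for
`i ≥ B`, from `hB`). Index set: pairs `(u, i)`, `u < lam * B + ∑_{c<B} n c`, `i < #act(u)`; their number
is `∑_u #act(u) = ∑_{c < B} n c` (as in `Game.mv_sum`). The elements
`v_(u,i) = C ((1 + X)^(u - lam * i)) * X^i` are in `rows K h` (`hh`: `u - lam * i < h i`), and are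
linearly independent over `K` (for each `i` the powers of `1 + X` have different degrees), so their
images under `Phi r m η'` are independent. Let `c₀ = min act(u)`; as `act(u)` is an interval
(`hint`), `c₀ + i ∈ act(u)`. Put, in `K[X][X][X]` with outer variable `S`,
`w_(u,i) = C (C ((1+X)^(u - lam * (c₀ + i)))) * (C (C ((1+X)^lam)) + S * C X)^c₀ * C X^i`, so that
`w_(u,i)(0) = v_(u,i)`. By `exists_specialization` there is `s ≠ 0` such that
`Phi r m η' (w_(u,i)(s))` are independent. Let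
`P_(u,i) = C ((1+X)^(u - lam * (c₀ + i))) * X^c₀ * (X - C ((1+X)^lam))^i`; it is in `rows K n` (the
coefficient of `X^c`, `c₀ ≤ c ≤ c₀ + i`, is a multiple of `(1+X)^(u - lam * c)` and
`u < lam * c + n c`), and `Gt 1 s ((1+X)^lam) P_(u,i) = C (C (s^i)) * w_(u,i)(s)` (note
`a.comp (C 1 * X) = a`). By `transport` (with `t = 1`, `η = (1+X)^lam + C s * η'`) the
`Phi r m η (P_(u,i))` are independent (a family of nonzero multiples of an independent family is
independent), and `good_of_family` concludes.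

`below_chainF`: induction on the chain. Step `ρ ≤ ρ'`, `ρ * ρ' = k`: let `n` be below
`(ρ, D)`, zero from `B` on. Put `ñ c = ⌊ρ * D + 1 - ρ^2 * c⌋₊`, `h i = ⌊ρ' * D + 1 - ρ'^2 * i⌋₊`, both
zero from some `B' ≥ B` on. `n ≤ ñ`. `hull_step` for `ñ`, `h`, `lam = k`, `B'`:
`act` is an interval because `k * c + ñ c` is nondecreasing in `c` (`ρ^2 ≤ k`), and
`u < k * i + h i` for `i < #act(u)` by `Game.upper_bound` (`u ≤ ρ' D - ρ'^2 i + k i`; also
`k * i ≤ u` by `le_of_lt_card_act`, so `0 ≤ ρ' D - ρ'^2 i`). `h` is below `(ρ', D)`, so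
`Good K r m h (∑ h)`, hence `Good K r m ñ (∑ ñ)` and `Good.shrink` gives the claim for `n`. If
`D < 0` or similar degenerate cases, `n = 0` on the whole: everything is trivial. -/

open Polynomial

namespace Pool.Agent.Helper7.NM

open Pool.Agent.Helper41.Fat Pool.Agent.Helper42.Game

variable {K : Type*} [Field K]

/-- The number of pairs `(u, i)` with `i < #act(u)`. -/
theorem sum_card_act (k B : ℕ) (n : ℕ → ℕ) :
    ∑ u ∈ Finset.range (k * B + ∑ c ∈ Finset.range B, n c), (act k B n u).card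
      = ∑ c ∈ Finset.range B, n c := by
  have h3 : ∀ u, (act k B n u).card
      = ∑ c ∈ Finset.range B, if k * c ≤ u ∧ u < k * c + n c then 1 else 0 := by
    intro u
    rw [act, Finset.card_filter]
  simp only [h3]
  rw [Finset.sum_comm]
  refine Finset.sum_congr rfl fun c hc => ?_
  rw [← Finset.card_filter]
  have h4 : (Finset.range (k * B + ∑ c ∈ Finset.range B, n c)).filter
      (fun u => k * c ≤ u ∧ u < k * c + n c) = Finset.Ico (k * c) (k * c + n c) := by
    ext u
    have h5 : n c ≤ ∑ c ∈ Finset.range B, n c :=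
      Finset.single_le_sum (f := n) (fun _ _ => Nat.zero_le _) hc
    have h6 : k * c ≤ k * B := Nat.mul_le_mul_left k (Finset.mem_range.1 hc).le
    simp only [Finset.mem_filter, Finset.mem_range, Finset.mem_Ico]
    omega
  rw [h4, Nat.card_Ico]
  omega

theorem one_add_pow_mem {e N : ℕ} (h : e < N) : ((1 + X : K[X]) ^ e) ∈ degreeLT K N := by
  rw [mem_degreeLT]
  have h2 : (1 + X : K[X]) = X + C 1 := by rw [C_1]; ring
  have h1 : ((1 + X : K[X]) ^ e).natDegree = e := by
    rw [h2, natDegree_pow, natDegree_X_add_C, mul_one]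
  have h3 : ((1 + X : K[X]) ^ e) ≠ 0 := by
    rw [h2]
    exact pow_ne_zero _ (X_add_C_ne_zero 1)
  rw [degree_eq_natDegree h3, h1]
  exact_mod_cast h

/-- Independence of the elements `(1 + X) ^ (u - lam i) Y ^ i`. -/
theorem vfam_independent {lam M : ℕ} (a : ℕ → ℕ) (hle : ∀ u i, i < a u → lam * i ≤ u) :
    LinearIndependent K (fun p : (Σ u : Fin M, Fin (a u)) =>
      (C ((1 + X : K[X]) ^ ((p.1 : ℕ) - lam * (p.2 : ℕ))) * X ^ (p.2 : ℕ) : K[X][X])) := by
  classical
  rw [Fintype.linearIndependent_iff]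
  rintro c hc ⟨u0, i0⟩
  have h1 := congrArg (fun q : K[X][X] => ((q.coeff (i0 : ℕ)).comp (X - 1)).coeff
    ((u0 : ℕ) - lam * (i0 : ℕ))) hc
  simp only [finsetSum_coeff, coeff_smul, Polynomial.sum_comp, coeff_zero, zero_comp] at h1
  have h2 : ∀ p : (Σ u : Fin M, Fin (a u)),
      (((c p) • (C ((1 + X : K[X]) ^ ((p.1 : ℕ) - lam * (p.2 : ℕ))) * X ^ (p.2 : ℕ) :
        K[X][X]).coeff (i0 : ℕ)).comp (X - 1)).coeff ((u0 : ℕ) - lam * (i0 : ℕ))
      = if p = ⟨u0, i0⟩ then c p else 0 := by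
    rintro ⟨u, i⟩
    have e1 : ((1 + X : K[X])).comp (X - 1) = X := by
      rw [add_comp, one_comp, X_comp]; ring
    by_cases hi : (i0 : ℕ) = (i : ℕ)
    · rw [coeff_C_mul_X_pow, if_pos hi, smul_comp, coeff_smul, pow_comp, e1, coeff_X_pow]
      have hu1 := hle u i i.2
      have hu2 := hle u0 i0 i0.2
      dsimp only at *
      rw [← hi] at hu1 ⊢
      by_cases hu : (u0 : ℕ) = (u : ℕ)
      · have hu' : u0 = u := Fin.ext hu
        subst hu'
        have hi' : i0 = i := Fin.ext hi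
        subst hi'
        simp
      · rw [if_neg (by omega), if_neg (by
          intro h
          rw [Sigma.mk.injEq] at h
          exact hu (congrArg Fin.val h.1.symm))]
        simp
    · rw [coeff_C_mul_X_pow, if_neg hi, if_neg (by
          intro h
          rw [Sigma.mk.injEq] at h
          obtain ⟨h1, h2⟩ := h
          subst h1
          exact hi (congrArg Fin.val (eq_of_heq h2).symm))]
      simp
  simp only [h2, Finset.sum_ite_eq', Finset.mem_univ, if_true] at h1
  exact h1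

/-- The elements of `rows K n` used in `hull_step`. -/
theorem pfam_mem {lam B u c₀ i : ℕ} {n : ℕ → ℕ}
    (h : ∀ b ≤ i, c₀ + b ∈ act lam B n u) :
    (C ((1 + X : K[X]) ^ (u - lam * (c₀ + i))) * X ^ c₀ *
      (X - C ((1 + X : K[X]) ^ lam)) ^ i : K[X][X]) ∈ rows K n := by
  have h1 : ∀ A : K[X], (C (A ^ (u - lam * (c₀ + i))) * X ^ c₀ *
      (X - C (A ^ lam)) ^ i : K[X][X]) = ∑ b ∈ Finset.range (i + 1),
      (((-1) ^ (i - b) * (i.choose b : K)) : K) •
        (C (A ^ (u - lam * (c₀ + b))) * X ^ (c₀ + b)) := by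
    intro A
    rw [sub_eq_add_neg, add_pow, Finset.mul_sum]
    refine Finset.sum_congr rfl fun b hb => ?_
    rw [Finset.mem_range] at hb
    have hact := mem_act.1 (h i le_rfl)
    have e0 : lam * (c₀ + i) = lam * (c₀ + b) + lam * (i - b) := by
      rw [← mul_add]; congr 1; omega
    have e1 : u - lam * (c₀ + b) = u - lam * (c₀ + i) + lam * (i - b) := by omega
    have e2 : (C (C ((-1 : K) ^ (i - b) * (i.choose b : K))) : K[X][X]) =
        (-1) ^ (i - b) * ((i.choose b : ℕ) : K[X][X]) := by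
      simp
    rw [smul_eq_CC, e2, e1, pow_add, C_mul, neg_pow (C (A ^ lam)), pow_add X c₀ b,
      pow_mul, C_pow (n := i - b)]
    ring
  rw [h1]
  apply Submodule.sum_mem
  intro b hb
  rw [Finset.mem_range] at hb
  apply Submodule.smul_mem
  apply mono_mem_rows
  have hact := mem_act.1 (h b (by omega))
  exact one_add_pow_mem (by omega)

theorem Gt_pfam (t : K) (a g : K[X]) (c i : ℕ) :
    Gt 1 t g (C a * X ^ c * (X - C g) ^ i) = C a * (C g + C (C t) * X) ^ c *
      (C (C t) * X) ^ i := by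
  have e3 : ∀ q : K[X], q.comp (C 1 * X) = q := by
    intro q; rw [C_1, one_mul, comp_X]
  rw [map_mul, map_mul, map_pow, map_pow, map_sub, Gt_C, Gt_C, Gt_X, e3, e3]
  congr 2
  ring

theorem hull_step [Infinite K] {r m lam B : ℕ} {n h : ℕ → ℕ}
    (hint : ∀ u c₁ c₂ c₃, c₁ ≤ c₂ → c₂ ≤ c₃ → c₁ ∈ act lam B n u → c₃ ∈ act lam B n u →
      c₂ ∈ act lam B n u)
    (hh : ∀ i u, i < (act lam B n u).card → u < lam * i + h i)
    (hB : ∀ i, B ≤ i → h i = 0) (hg : Good K r m h (∑ i ∈ Finset.range B, h i)) :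
    Good K r m n (∑ c ∈ Finset.range B, n c) := by
  classical
  obtain ⟨η', hη'⟩ := hg.inj B hB
  -- the smallest active column
  have hc0 : ∀ u : ℕ, ∃ c₀ : ℕ, ∀ i : ℕ, i < (act lam B n u).card → ∀ b ≤ i,
      c₀ + b ∈ act lam B n u := by
    intro u
    rcases (act lam B n u).eq_empty_or_nonempty with he | hne
    · refine ⟨0, fun i hi => ?_⟩
      rw [he] at hi
      simp at hi
    · refine ⟨(act lam B n u).min' hne, fun i hi b hb => ?_⟩
      obtain ⟨c2, hc2⟩ : ∃ c2, c2 = (act lam B n u).max' hne := ⟨_, rfl⟩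
      have hm1 := (act lam B n u).min'_mem hne
      have hm2 := (act lam B n u).max'_mem hne
      have hsub : act lam B n u ⊆ Finset.Icc ((act lam B n u).min' hne)
          ((act lam B n u).max' hne) := by
        intro c hc
        rw [Finset.mem_Icc]
        exact ⟨Finset.min'_le _ _ hc, Finset.le_max' _ _ hc⟩
      have hcard := Finset.card_le_card hsub
      rw [Nat.card_Icc] at hcard
      exact hint u _ _ _ (by omega) (by omega) hm1 hm2
  choose c₀ hc₀ using hc0
  obtain ⟨M, hM⟩ : ∃ M : ℕ, M = lam * B + ∑ c ∈ Finset.range B, n c := ⟨_, rfl⟩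
  let ι := (Σ u : Fin M, Fin (act lam B n u).card)
  have hle : ∀ u i, i < (act lam B n u).card → lam * i ≤ u := fun u i h =>
    le_of_lt_card_act h
  let v : ι → K[X][X] := fun p =>
    (C ((1 + X : K[X]) ^ ((p.1 : ℕ) - lam * (p.2 : ℕ))) * X ^ (p.2 : ℕ))
  have hv : LinearIndependent K v := vfam_independent (fun u => (act lam B n u).card) hle
  have hvm : ∀ p, v p ∈ rows K h := by
    intro p
    apply mono_mem_rows
    have := hh p.2 p.1 p.2.2
    have := hle p.1 p.2 p.2.2
    exact one_add_pow_mem (by omega)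
  have hPv : LinearIndependent K (fun p => Phi K r m η' (v p)) := by
    apply hv.map
    rw [Submodule.disjoint_def]
    intro P hP hP0
    apply hη' P _ hP0
    have : Submodule.span K (Set.range v) ≤ rows K h := by
      rw [Submodule.span_le]
      rintro _ ⟨p, rfl⟩
      exact hvm p
    exact this hP
  let e := (Fintype.equivFin ι).symm
  let w : ι → K[X][X][X] := fun p =>
    C (C ((1 + X : K[X]) ^ ((p.1 : ℕ) - lam * (c₀ p.1 + (p.2 : ℕ))))) *
      (C (C ((1 + X : K[X]) ^ lam)) + X * C X) ^ (c₀ p.1) * C (X ^ (p.2 : ℕ))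
  have hw0 : ∀ p, (w p).coeff 0 = v p := by
    intro p
    have hact := mem_act.1 (hc₀ p.1 p.2 p.2.2 p.2 le_rfl)
    have e0 : lam * (c₀ p.1 + (p.2 : ℕ)) = lam * c₀ p.1 + lam * (p.2 : ℕ) := by ring
    have e1 : (p.1 : ℕ) - lam * (p.2 : ℕ)
        = (p.1 : ℕ) - lam * (c₀ p.1 + (p.2 : ℕ)) + lam * c₀ p.1 := by omega
    simp only [w, v]
    rw [coeff_zero_eq_eval_zero, eval_mul, eval_mul, eval_pow, eval_add, eval_mul, eval_C, eval_C,
      eval_C, eval_C, eval_X, zero_mul, add_zero, e1, pow_add, pow_mul, ← C_pow, ← C_mul]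
  obtain ⟨t, ht, hlt⟩ := exists_specialization (Phi K r m η') (fun a => w (e a)) (by
    have h9 := hPv.comp e e.injective
    have h10 : (fun i => Phi K r m η' ((w (e i)).coeff 0))
        = (fun p => Phi K r m η' (v p)) ∘ e := by
      funext a
      rw [hw0]
      rfl
    rw [h10]
    exact h9)
  let P : ι → K[X][X] := fun p =>
    C ((1 + X : K[X]) ^ ((p.1 : ℕ) - lam * (c₀ p.1 + (p.2 : ℕ)))) * X ^ (c₀ p.1) *
      (X - C ((1 + X : K[X]) ^ lam)) ^ (p.2 : ℕ)
  have hPm : ∀ p, P p ∈ rows K n := by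
    intro p
    exact pfam_mem (fun b hb => hc₀ p.1 p.2 p.2.2 b hb)
  have hGt : ∀ p, Gt 1 t ((1 + X) ^ lam) (P p)
      = (t ^ (p.2 : ℕ)) • (w p).eval (algebraMap K K[X][X] t) := by
    intro p
    simp only [P, w]
    rw [Gt_pfam, smul_eq_CC,
      eval_mul, eval_mul, eval_pow, eval_add, eval_mul, eval_C, eval_C, eval_C, eval_C, eval_X,
      algebraMap_eq_CC, mul_pow, C_pow (a := t), C_pow (a := C t)]
    ring
  have hη : ((1 + X) ^ lam + C t * η' : K[X]).comp (C 1 * X) = (1 + X) ^ lam + C t * η' := by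
    rw [C_1, one_mul, comp_X]
  have hfin : LinearIndependent K (fun a => Phi K r m ((1 + X) ^ lam + C t * η') (P (e a))) := by
    apply transport hη
    have h5 : (fun a => Phi K r m η' (Gt 1 t ((1 + X) ^ lam) (P (e a))))
        = (fun a => (Units.mk0 (t ^ ((e a).2 : ℕ)) (pow_ne_zero _ ht)) •
          Phi K r m η' ((w (e a)).eval (algebraMap K K[X][X] t))) := by
      funext a
      rw [hGt, map_smul]
      rfl
    rw [h5]
    exact hlt.units_smul _
  have hcard : Fintype.card ι = ∑ c ∈ Finset.range B, n c := by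
    rw [Fintype.card_sigma, ← sum_card_act lam B n, ← hM]
    simp only [Fintype.card_fin]
    exact Fin.sum_univ_eq_sum_range (fun u => (act lam B n u).card) M
  rw [← hcard]
  exact ⟨_, fun a => P (e a), fun a => hPm _, hfin⟩

theorem below_chainF [Infinite K] {r m : ℕ} {a ρ D : ℝ} (ha : 0 < a) (h : Chain a ρ)
    (hg : ∀ (B : ℕ) (n : ℕ → ℕ), (∀ c, B ≤ c → n c = 0) → Below ρ D n →
      Good K r m n (∑ c ∈ Finset.range B, n c)) :
    ∀ (B : ℕ) (n : ℕ → ℕ), (∀ c, B ≤ c → n c = 0) → Below a D n →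
      Good K r m n (∑ c ∈ Finset.range B, n c) := by
  induction h with
  | base => exact hg
  | @step ρ ρ' k h1 h2 h3 ih =>
    apply ih
    intro B n hn hb
    have hpos : 0 < ρ := lt_of_lt_of_le ha h1.le
    have hpos' : 0 < ρ' := lt_of_lt_of_le hpos h2
    have hk : ρ ^ 2 ≤ k := by
      rw [← h3, pow_two]
      exact mul_le_mul_of_nonneg_left h2 hpos.le
    -- the full rows below the lines
    have key : ∀ σ : ℝ, ρ ≤ σ → (∀ c, ⌈|D| / ρ⌉₊ + 1 ≤ c →
        ⌊σ * D + 1 - σ ^ 2 * (c : ℝ)⌋₊ = 0) := by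
      intro σ hσ c hc
      have hσ0 : 0 < σ := lt_of_lt_of_le hpos hσ
      rw [Nat.floor_eq_zero]
      have h5 : (⌈|D| / ρ⌉₊ : ℝ) + 1 ≤ c := by exact_mod_cast hc
      have h6 := Nat.le_ceil (|D| / ρ)
      have h7 : |D| / ρ < c := by linarith
      rw [div_lt_iff₀ hpos] at h7
      have h8 : (c : ℝ) * ρ ≤ c * σ := mul_le_mul_of_nonneg_left hσ (Nat.cast_nonneg c)
      have h9 : D < c * σ := lt_of_le_of_lt (le_abs_self D) (lt_of_lt_of_le h7 h8)
      have h10 : σ * D < σ * (c * σ) := mul_lt_mul_of_pos_left h9 hσ0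
      have h11 : σ * (c * σ) = σ ^ 2 * c := by ring
      linarith
    have hbel : ∀ σ : ℝ, Below σ D (fun c => ⌊σ * D + 1 - σ ^ 2 * (c : ℝ)⌋₊) := by
      intro σ c hc
      have h5 : 0 < ⌊σ * D + 1 - σ ^ 2 * (c : ℝ)⌋₊ := Nat.pos_of_ne_zero hc
      rw [Nat.floor_pos] at h5
      exact Nat.floor_le (by linarith)
    have h4 := hg (⌈|D| / ρ⌉₊ + 1) (fun c => ⌊ρ' * D + 1 - ρ' ^ 2 * (c : ℝ)⌋₊)
      (key ρ' h2) (hbel ρ')
    have h5 := hull_step (lam := k) (n := fun c => ⌊ρ * D + 1 - ρ ^ 2 * (c : ℝ)⌋₊) ?_ ?_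
      (key ρ' h2) h4
    · refine Good.shrink (⌈|D| / ρ⌉₊ + 1) B (key ρ le_rfl) (fun c => ?_) h5
      rcases Nat.eq_zero_or_pos (n c) with h0 | h0
      · rw [h0]; exact Nat.zero_le _
      · exact Nat.le_floor (hb c h0.ne')
    · intro u c₁ c₂ c₃ h12 h23 hc1 hc3
      rw [mem_act] at hc1 hc3 ⊢
      have h6 : k * c₂ ≤ k * c₃ := Nat.mul_le_mul_left k h23
      have h7 := hbel ρ c₁ (by
        intro h0
        dsimp only at h0
        omega)
      dsimp only at h7
      obtain ⟨N1, hN1⟩ : ∃ N1, N1 = ⌊ρ * D + 1 - ρ ^ 2 * (c₁ : ℝ)⌋₊ := ⟨_, rfl⟩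
      rw [← hN1] at h7 hc1
      have h8 : N1 - k * (c₂ - c₁) ≤ ⌊ρ * D + 1 - ρ ^ 2 * (c₂ : ℝ)⌋₊ := by
        rcases le_or_gt N1 (k * (c₂ - c₁)) with h0 | h0
        · rw [Nat.sub_eq_zero_of_le h0]; exact Nat.zero_le _
        · apply Nat.le_floor
          rw [Nat.cast_sub h0.le]
          push_cast [h12]
          have h9 : (0 : ℝ) ≤ c₂ - c₁ := by
            have : (c₁ : ℝ) ≤ c₂ := by exact_mod_cast h12
            linarith
          have h10 : ρ ^ 2 * ((c₂ : ℝ) - c₁) ≤ k * (c₂ - c₁) := mul_le_mul_of_nonneg_right hk h9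
          have h11 : ρ ^ 2 * ((c₂ : ℝ) - c₁) = ρ ^ 2 * c₂ - ρ ^ 2 * c₁ := by ring
          linarith
      have h9 : k * c₂ = k * c₁ + k * (c₂ - c₁) := by
        rw [← mul_add]; congr 1; omega
      refine ⟨by omega, by omega, by omega⟩
    · intro i u hi
      have h6 := upper_bound hpos h3 h2 (hbel ρ) hi
      have h7 : k * i ≤ u := le_of_lt_card_act hi
      have h8 : u - k * i + 1 ≤ ⌊ρ' * D + 1 - ρ' ^ 2 * (i : ℝ)⌋₊ := by
        apply Nat.le_floor
        push_cast [h7]
        linarith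
      omega

end Pool.Agent.Helper7.NM
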