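import Pool.Agent.Helper7.NM.Nod

set_option autoImplicit false

/-! NM-7. Bounds for nodal moves: `nod_below`, unit moves from above and from below. The proofs are
described in the comments. -/

namespace Pool.Agent.Helper7.NM

open Pool.Agent.Helper41.Fat Pool.Agent.Helper42.Game

theorem unit_nod_zero {δ Q : ℕ} {n : ℕ → ℕ} (hn : Antitone n) {i : ℕ} (h : n i ≤ δ * i) :
    nod δ Q n i = 0 := by
  unfold nod
  split_ifs with hi
  · have h1 : n i - δ * i = 0 := by omega
    rw [h1, zero_add]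
    refine Finset.sum_eq_zero fun c hc => ?_
    rw [Finset.mem_Ioc] at hc
    have h2 : n c ≤ n i := hn hc.1.le
    have h3 : n c - δ * i = 0 := by omega
    rw [h3]; simp
  · rfl

theorem unit_nod_self (δ Q : ℕ) (n : ℕ → ℕ) : nod δ Q n Q = n Q - δ * Q := by
  unfold nod
  rw [if_pos le_rfl]
  simp

/-- One nodal move on rows below a line, with a short row `Q`. -/
theorem nod_below {δ Q : ℕ} {n : ℕ → ℕ} {A σ : ℝ} (hσ : 0 < σ) (hn : Antitone n)
    (h1 : ∀ c < Q, (n c : ℝ) ≤ A - σ * c) (h2 : n Q ≤ δ * Q) (i : ℕ) (hi : nod δ Q n i ≠ 0) :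
    i < Q ∧ (nod δ Q n i : ℝ) ≤ (A - (σ + δ) * i) * ((σ + δ) / σ) + δ := by
  have hiQ : i < Q := by
    rcases lt_trichotomy i Q with h | h | h
    · exact h
    · exfalso
      apply hi
      rw [h, unit_nod_self]
      omega
    · exact absurd (nod_of_lt n h) hi
  refine ⟨hiQ, ?_⟩
  have hlt : δ * i < n i := by
    by_contra hle
    exact hi (unit_nod_zero hn (by omega))
  set y : ℝ := A - (σ + δ) * i with hy
  have hni : ((n i - δ * i : ℕ) : ℝ) ≤ y := by
    rw [Nat.cast_sub hlt.le]
    have := h1 i hiQ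
    push_cast
    rw [hy]
    linarith
  have hy0 : 0 ≤ y := le_trans (Nat.cast_nonneg _) hni
  have hsum : (∑ c ∈ Finset.Ioc i Q, min (n c - δ * i) δ)
      ≤ δ * ((Finset.Ioo i Q).filter (fun c => δ * i < n c)).card + δ := by
    have hI : Finset.Ioc i Q = insert Q (Finset.Ioo i Q) := by
      ext c
      simp only [Finset.mem_Ioc, Finset.mem_insert, Finset.mem_Ioo]
      omega
    rw [hI, Finset.sum_insert (by simp)]
    have h3 : ∑ c ∈ Finset.Ioo i Q, min (n c - δ * i) δ
        ≤ δ * ((Finset.Ioo i Q).filter (fun c => δ * i < n c)).card := by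
      rw [← Finset.sum_filter_add_sum_filter_not (Finset.Ioo i Q) (fun c => δ * i < n c)]
      have h4 : ∑ c ∈ (Finset.Ioo i Q).filter (fun c => ¬ δ * i < n c), min (n c - δ * i) δ
          = 0 := by
        refine Finset.sum_eq_zero fun c hc => ?_
        rw [Finset.mem_filter] at hc
        have : n c - δ * i = 0 := by omega
        rw [this]; simp
      rw [h4, add_zero]
      calc ∑ c ∈ (Finset.Ioo i Q).filter (fun c => δ * i < n c), min (n c - δ * i) δ
          ≤ ∑ _c ∈ (Finset.Ioo i Q).filter (fun c => δ * i < n c), δ :=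
            Finset.sum_le_sum fun c _ => min_le_right _ _
        _ = δ * ((Finset.Ioo i Q).filter (fun c => δ * i < n c)).card := by
            rw [Finset.sum_const, smul_eq_mul, mul_comm]
    have h5 : min (n Q - δ * i) δ ≤ δ := min_le_right _ _
    omega
  have hcard : (((Finset.Ioo i Q).filter (fun c => δ * i < n c)).card : ℝ) ≤ y / σ := by
    have hsub : (Finset.Ioo i Q).filter (fun c => δ * i < n c)
        ⊆ Finset.Ioc i (i + ⌊y / σ⌋₊) := by
      intro c hc
      rw [Finset.mem_filter, Finset.mem_Ioo] at hc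
      rw [Finset.mem_Ioc]
      refine ⟨hc.1.1, ?_⟩
      have h6 : ((c - i : ℕ) : ℝ) ≤ y / σ := by
        rw [le_div_iff₀ hσ, Nat.cast_sub hc.1.1.le]
        have h7 := h1 c hc.1.2
        have h8 : ((δ * i : ℕ) : ℝ) < n c := by exact_mod_cast hc.2
        push_cast at h8
        rw [hy]
        nlinarith
      have := Nat.le_floor h6
      omega
    calc (((Finset.Ioo i Q).filter (fun c => δ * i < n c)).card : ℝ)
        ≤ ((Finset.Ioc i (i + ⌊y / σ⌋₊)).card : ℝ) := by
          exact_mod_cast Finset.card_le_card hsub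
      _ = (⌊y / σ⌋₊ : ℝ) := by rw [Nat.card_Ioc]; congr 1; omega
      _ ≤ y / σ := Nat.floor_le (by positivity)
  have hnod : nod δ Q n i = (n i - δ * i) + ∑ c ∈ Finset.Ioc i Q, min (n c - δ * i) δ := by
    unfold nod
    rw [if_pos hiQ.le]
  have hfin : (nod δ Q n i : ℝ) ≤ ((n i - δ * i : ℕ) : ℝ)
      + (δ * ((Finset.Ioo i Q).filter (fun c => δ * i < n c)).card + δ) := by
    rw [hnod]
    have : ((∑ c ∈ Finset.Ioc i Q, min (n c - δ * i) δ : ℕ) : ℝ)
      ≤ ((δ * ((Finset.Ioo i Q).filter (fun c => δ * i < n c)).card + δ : ℕ) : ℝ) := by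
      exact_mod_cast hsum
    push_cast at this ⊢
    linarith
  have hδ0 : (0 : ℝ) ≤ δ := Nat.cast_nonneg _
  have hm : (δ : ℝ) * (((Finset.Ioo i Q).filter (fun c => δ * i < n c)).card : ℝ)
      ≤ δ * (y / σ) := mul_le_mul_of_nonneg_left hcard hδ0
  have he : y * ((σ + δ) / σ) = y + δ * (y / σ) := by
    field_simp
  rw [he]
  linarith

/-- The number of `j < k` with `j * Q < u`. -/
def unitCount (Q k u : ℕ) : ℕ := ((Finset.range k).filter (fun j => j * Q < u)).card

theorem unitCount_succ (Q k u : ℕ) :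
    unitCount Q (k + 1) u = (if 0 < u then 1 else 0) + unitCount Q k (u - Q) := by
  unfold unitCount
  rw [Finset.card_filter, Finset.card_filter, Finset.sum_range_succ']
  rw [add_comm]
  congr 1
  · simp
  · refine Finset.sum_congr rfl fun j _ => ?_
    have : ((j + 1) * Q < u) ↔ (j * Q < u - Q) := by
      rw [add_mul, one_mul]; omega
    simp only [this]

theorem unitCount_le (Q k u : ℕ) : unitCount Q k u ≤ k := by
  unfold unitCount
  calc _ ≤ (Finset.range k).card := Finset.card_filter_le _ _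
    _ = k := Finset.card_range k

theorem unitCount_le' {Q : ℕ} (hQ : 0 < Q) (k u : ℕ) : unitCount Q k u ≤ u / Q + 1 := by
  unfold unitCount
  calc ((Finset.range k).filter (fun j => j * Q < u)).card
      ≤ (Finset.range (u / Q + 1)).card := by
        refine Finset.card_le_card fun j hj => ?_
        rw [Finset.mem_filter] at hj
        rw [Finset.mem_range]
        have : j ≤ u / Q := (Nat.le_div_iff_mul_le hQ).2 hj.2.le
        omega
    _ = u / Q + 1 := Finset.card_range _

theorem unit_nod_le {Q : ℕ} {n : ℕ → ℕ} {u : ℕ} (hu : n Q ≤ u) {i : ℕ} (hiQ : i < Q) :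
    nod 1 Q n i ≤ (n i - i) + ((Q - 1 - i) + (if 0 < u then 1 else 0)) := by
  unfold nod
  rw [if_pos hiQ.le, one_mul]
  have hI : Finset.Ioc i Q = insert Q (Finset.Ioo i Q) := by
    ext c
    simp only [Finset.mem_Ioc, Finset.mem_insert, Finset.mem_Ioo]
    omega
  rw [hI, Finset.sum_insert (by simp)]
  have h3 : ∑ c ∈ Finset.Ioo i Q, min (n c - i) 1 ≤ Q - 1 - i := by
    calc ∑ c ∈ Finset.Ioo i Q, min (n c - i) 1 ≤ ∑ _c ∈ Finset.Ioo i Q, 1 :=
          Finset.sum_le_sum fun c _ => min_le_right _ _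
      _ = Q - 1 - i := by
          rw [Finset.sum_const, smul_eq_mul, mul_one, Nat.card_Ioo]
          omega
  have h4 : min (n Q - i) 1 ≤ if 0 < u then 1 else 0 := by
    split_ifs with h
    · exact min_le_right _ _
    · have : n Q - i = 0 := by omega
      rw [this]; simp
  omega

theorem unit_up_aux {K : Type*} [Field K] {r m Q : ℕ}
    (hmove : ∀ n : ℕ → ℕ, Antitone n → (∀ c, Q < c → n c = 0) →
      Good K r m (nod 1 Q n) (∑ c ∈ Finset.range (Q + 1), nod 1 Q n c) →
      Good K r m n (∑ c ∈ Finset.range (Q + 1), n c)) (hQ : 0 < Q) :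
    ∀ (k : ℕ) (A σ : ℝ) (u : ℕ) (n : ℕ → ℕ), Antitone n → (∀ c, Q < c → n c = 0) →
      (∀ c < Q, (n c : ℝ) ≤ A - σ * c) → n Q ≤ u → (k : ℝ) * (Q - 1) ≤ A - σ * (Q - 1) → 0 ≤ σ →
      (∀ n' : ℕ → ℕ, Antitone n' → (∀ c, Q < c → n' c = 0) →
        (∀ c < Q, (n' c : ℝ) ≤ A + k * (Q - 1) + (unitCount Q k u : ℕ) - (σ + 2 * k) * c) →
        n' Q ≤ u - k * Q → Good K r m n' (∑ c ∈ Finset.range (Q + 1), n' c)) →
      Good K r m n (∑ c ∈ Finset.range (Q + 1), n c) := by
  intro k
  induction k with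
  | zero =>
    intro A σ u n hn hz h1 h2 _ _ h
    refine h n hn hz (fun c hc => ?_) (by omega)
    have := h1 c hc
    have h0 : (0 : ℝ) ≤ (unitCount Q 0 u : ℕ) := Nat.cast_nonneg _
    push_cast
    linarith
  | succ k ih =>
    intro A σ u n hn hz h1 h2 h3 h4 h
    apply hmove n hn hz
    have hQ1 : (1 : ℝ) ≤ Q := by exact_mod_cast hQ
    refine ih (A + (Q - 1) + ((if 0 < u then 1 else 0 : ℕ) : ℝ)) (σ + 2) (u - Q) (nod 1 Q n)
      (nod_antitone hn) (fun c hc => nod_of_lt n hc) ?_ ?_ ?_ (by linarith) ?_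
    · intro i hi
      have hi1 : (i : ℝ) ≤ Q - 1 := by
        have : i + 1 ≤ Q := hi
        have : ((i + 1 : ℕ) : ℝ) ≤ Q := by exact_mod_cast this
        push_cast at this
        linarith
      have hif : (0 : ℝ) ≤ ((if 0 < u then 1 else 0 : ℕ) : ℝ) := Nat.cast_nonneg _
      by_cases hni : n i ≤ i
      · rw [unit_nod_zero hn (by omega)]
        push_cast at h3 ⊢
        have h5 : σ * i ≤ σ * (Q - 1) := mul_le_mul_of_nonneg_left hi1 h4
        have hk : (0 : ℝ) ≤ (k : ℝ) * (Q - 1) := mul_nonneg (Nat.cast_nonneg _) (by linarith)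
        push_cast at hif
        nlinarith
      · have h6 := unit_nod_le (Q := Q) h2 hi
        have h7 : (nod 1 Q n i : ℝ) ≤ (((n i - i) + ((Q - 1 - i) + (if 0 < u then 1 else 0)) : ℕ) : ℝ) := by
          exact_mod_cast h6
        have h8 : ((n i - i : ℕ) : ℝ) = n i - i := by
          rw [Nat.cast_sub (by omega)]
        have h9 : ((Q - 1 - i : ℕ) : ℝ) = Q - 1 - i := by
          rw [Nat.cast_sub (by omega), Nat.cast_sub (by omega)]
          push_cast
          ring
        rw [Nat.cast_add, Nat.cast_add, h8, h9] at h7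
        have h10 := h1 i hi
        linarith
    · rw [unit_nod_self]
      omega
    · have hif : (0 : ℝ) ≤ ((if 0 < u then 1 else 0 : ℕ) : ℝ) := Nat.cast_nonneg _
      push_cast at h3 hif ⊢
      nlinarith
    · intro n' hn' hz' h5 h6
      refine h n' hn' hz' (fun c hc => ?_) ?_
      · have := h5 c hc
        rw [unitCount_succ]
        push_cast at this ⊢
        linarith
      · rw [add_mul, one_mul]
        omega

/-- Unit moves from above: `k` unit moves on rows below a line `A - σ c` for `c < Q`, with a row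
`Q` of length at most `u`. -/
theorem unit_up {K : Type*} [Field K] {r m Q : ℕ}
    (hmove : ∀ n : ℕ → ℕ, Antitone n → (∀ c, Q < c → n c = 0) →
      Good K r m (nod 1 Q n) (∑ c ∈ Finset.range (Q + 1), nod 1 Q n c) →
      Good K r m n (∑ c ∈ Finset.range (Q + 1), n c)) (hQ : 0 < Q) :
    ∀ (k : ℕ) (A σ : ℝ) (u : ℕ) (n : ℕ → ℕ), Antitone n → (∀ c, Q < c → n c = 0) →
      (∀ c < Q, (n c : ℝ) ≤ A - σ * c) → n Q ≤ u → (k : ℝ) * (Q - 1) ≤ A - σ * (Q - 1) → 0 ≤ σ →
      (∀ n' : ℕ → ℕ, Antitone n' → (∀ c, Q < c → n' c = 0) →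
        (∀ c < Q, (n' c : ℝ) ≤ A + k * (Q - 1) + min (k : ℝ) (u / Q + 1) - (σ + 2 * k) * c) →
        n' Q ≤ u - k * Q → Good K r m n' (∑ c ∈ Finset.range (Q + 1), n' c)) →
      Good K r m n (∑ c ∈ Finset.range (Q + 1), n c) := by
  intro k A σ u n hn hz h1 h2 h3 h4 h
  refine unit_up_aux hmove hQ k A σ u n hn hz h1 h2 h3 h4 fun n' hn' hz' h5 h6 => ?_
  refine h n' hn' hz' (fun c hc => ?_) h6
  have h7 := h5 c hc
  have h8 : ((unitCount Q k u : ℕ) : ℝ) ≤ k := by exact_mod_cast unitCount_le Q k u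
  have h9 : ((unitCount Q k u : ℕ) : ℝ) ≤ (u : ℝ) / Q + 1 := by
    have h10 : ((unitCount Q k u : ℕ) : ℝ) ≤ ((u / Q + 1 : ℕ) : ℝ) := by
      exact_mod_cast unitCount_le' hQ k u
    have h11 : ((u / Q : ℕ) : ℝ) ≤ (u : ℝ) / Q := Nat.cast_div_le
    push_cast at h10
    linarith
  have h12 := le_min h8 h9
  linarith

/-- Unit moves from below. -/
theorem unit_low {K : Type*} [Field K] {r m Q R : ℕ}
    (hmove : ∀ n : ℕ → ℕ, Antitone n → Good K r m (nod 1 Q n) R → Good K r m n R) :
    ∀ (k : ℕ) (L σ : ℝ) (n : ℕ → ℕ), Antitone n → (∀ c ≤ Q, L - σ * c ≤ (n c : ℝ)) →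
      (k : ℝ) * Q ≤ L - σ * Q →
      (∀ n' : ℕ → ℕ, Antitone n' → (∀ c ≤ Q, L + k * Q - (σ + 2 * k) * c ≤ (n' c : ℝ)) →
        Good K r m n' R) →
      Good K r m n R := by
  intro k
  induction k with
  | zero =>
    intro L σ n hn h1 _ h
    refine h n hn fun c hc => ?_
    have := h1 c hc
    push_cast
    linarith
  | succ k ih =>
    intro L σ n hn h1 h2 h
    apply hmove n hn
    have hQ0 : (0 : ℝ) ≤ Q := Nat.cast_nonneg _
    have hQn : Q ≤ n Q := by
      have h3 := h1 Q le_rfl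
      have h4 : (0 : ℝ) ≤ (k : ℝ) * Q := mul_nonneg (Nat.cast_nonneg _) hQ0
      have : (Q : ℝ) ≤ n Q := by push_cast at h2; nlinarith
      exact_mod_cast this
    refine ih (L + Q) (σ + 2) (nod 1 Q n) (nod_antitone hn) ?_ ?_ ?_
    · intro i hi
      rcases Nat.lt_or_ge i Q with hiQ | hiQ
      · have hnod : nod 1 Q n i = (n i - i) + (Q - i) := by
          unfold nod
          rw [if_pos hi, one_mul]
          congr 1
          have : ∀ c ∈ Finset.Ioc i Q, min (n c - i) 1 = 1 := by
            intro c hc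
            rw [Finset.mem_Ioc] at hc
            have h5 : n Q ≤ n c := hn hc.2
            apply min_eq_right
            omega
          rw [Finset.sum_congr rfl this, Finset.sum_const, smul_eq_mul, mul_one, Nat.card_Ioc]
        have h5 : n Q ≤ n i := hn hi
        rw [hnod, Nat.cast_add, Nat.cast_sub (by omega), Nat.cast_sub hi]
        have := h1 i hi
        linarith
      · have : i = Q := by omega
        subst this
        rw [unit_nod_self, one_mul, Nat.cast_sub hQn]
        have := h1 i le_rfl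
        linarith
    · push_cast at h2
      nlinarith
    · intro n' hn' h5
      refine h n' hn' fun c hc => ?_
      have := h5 c hc
      push_cast at this ⊢
      linarith

end Pool.Agent.Helper7.NM
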