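import Pool.Agent.Helper7.NM.Move
import Pool.Agent.Helper7.NM.Hull
import Pool.Agent.Helper7.NM.Unit
import Pool.Agent.Helper7.FreeChain
import Pool.Agent.Helper42.StartThree

set_option autoImplicit false

/-! The two-speed start `b / a` in every characteristic, by nodal moves. -/

namespace Pool.Agent.Helper7.NM

open Pool.Agent.Helper41.Fat Pool.Agent.Helper42.Game Pool.Agent.Helper7.Free

variable {K : Type*} [Field K]

theorem stair_antitone (d : ℕ) : Antitone (fun b : ℕ => d + 1 - b) := by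
  intro x y h
  beta_reduce
  omega

theorem good_stripF [Infinite K] {r m R : ℕ} (a d : ℕ) (ha : 0 < a)
    (hg : Good K r m (strip a d) R) : Good K r m (fun b => d + 1 - b) R := by
  apply nodal_move (a - 1) d (fun c c' h _ => stair_antitone d h)
  have : nod (a - 1) d (fun b => d + 1 - b) = strip a d := funext (fun i => nod_stair ha d i)
  rw [this]
  exact hg

theorem good_phiF [Infinite K] {r m R : ℕ} {a b : ℕ} (d : ℕ) (ha : 0 < a) (hab : a ^ 2 ≤ b)
    (hg : Good K r m (phi b (a ^ 2) (strip a d 0)) R) : Good K r m (fun b => d + 1 - b) R := by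
  apply good_stripF a d ha
  have hx : 0 < a ^ 2 := by positivity
  have h1 : Good K r m (fun c => strip a d 0 - a ^ 2 * c) R := by
    apply nodal_move (b - a ^ 2) (strip a d 0)
    · intro c c' h _
      have : a ^ 2 * c ≤ a ^ 2 * c' := Nat.mul_le_mul_left _ h
      omega
    · have : nod (b - a ^ 2) (strip a d 0) (fun c => strip a d 0 - a ^ 2 * c) =
          phi b (a ^ 2) (strip a d 0) := by
        funext i
        have h2 : strip a d 0 < a ^ 2 * (strip a d 0 + 1) := by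
          have := Nat.le_mul_of_pos_left (strip a d 0 + 1) hx
          omega
        rw [nod_lin hx h2 i]
        have : a ^ 2 + (b - a ^ 2) = b := by omega
        rw [this]
      rw [this]
      exact hg
  refine Good.mono (fun c => ?_) h1
  have := strip_ge_nat a d c
  omega

/-- Regularity from a chain starting at `b / a`. -/
theorem twoStart_regularF [Infinite K] {r m d a b : ℕ} {ρ : ℝ} (ha : 0 < a) (hab : a ^ 2 ≤ b)
    (h : Chain ((b : ℝ) / a) ρ)
    (h1 : m * ρ ≤ d + 3 / 2 + (b : ℝ) / a / 2 - (a : ℝ) ^ 2 / (8 * ((b : ℝ) / a)) - ρ)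
    (h2 : r * m ≤ ρ * (d + 3 / 2 + (b : ℝ) / a / 2 - (a : ℝ) ^ 2 / (8 * ((b : ℝ) / a)) - ρ)) :
    Good K r m (fun b => d + 1 - b) (r * (m + 1).choose 2) := by
  have ha' : (0 : ℝ) < a := by exact_mod_cast ha
  have hb : 0 < b := lt_of_lt_of_le (by positivity) hab
  have hb' : (0 : ℝ) < b := by exact_mod_cast hb
  set ρ0 : ℝ := (b : ℝ) / a with hρ0
  have hρ0pos : 0 < ρ0 := by positivity
  have hρ : 0 < ρ := lt_of_lt_of_le hρ0pos h.le
  set D : ℝ := (d : ℝ) + 3 / 2 - ρ0 / 2 - (a : ℝ) ^ 2 / (8 * ρ0) with hD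
  have e : D - (ρ - ρ0) = d + 3 / 2 + ρ0 / 2 - (a : ℝ) ^ 2 / (8 * ρ0) - ρ := by rw [hD]; ring
  set α := strip a d 0 with hα
  apply good_phiF d ha hab
  rw [← hα]
  refine above_chainI (K := K) (D := D) hρ0pos h
    (fun n hn => good_of_above hρ ?_ ?_ n hn) (phi b (a ^ 2) α) ?_
  · rw [e]; exact h1
  · rw [e]; exact h2
  · intro c
    have h3 := phi_ge b (a ^ 2) α c (by positivity)
    push_cast at h3
    refine le_trans ?_ h3
    have hαr : (a : ℝ) * ((d : ℝ) + 1 - ((a : ℝ) - 1) / 2) ≤ α := by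
      have h4 := strip_ge a d 0
      rw [hα]
      simpa using h4
    have h5 : (b : ℝ) / a ^ 2 * ((a : ℝ) * ((d : ℝ) + 1 - ((a : ℝ) - 1) / 2))
        ≤ (b : ℝ) / a ^ 2 * α := mul_le_mul_of_nonneg_left hαr (by positivity)
    have e2 : ρ0 * D - ρ0 ^ 2 * c = (b : ℝ) / a ^ 2 * ((a : ℝ) * ((d : ℝ) + 1 - ((a : ℝ) - 1) / 2))
        - (b : ℝ) / a ^ 2 * (b * c) - (b : ℝ) ^ 2 / (2 * a ^ 2) + b / 2 - a ^ 2 / 8 := by
      rw [hD, hρ0]
      field_simp
      ring
    rw [e2]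
    have e3 : (b : ℝ) / a ^ 2 * ((α : ℝ) - b * c) = (b : ℝ) / a ^ 2 * α
        - (b : ℝ) / a ^ 2 * (b * c) := by ring
    rw [e3]
    linarith

/-- The state after the first two nodal moves, from above. -/
theorem two_moves_empty [Infinite K] {d a b : ℕ} (ha : 0 < a) (hab : 3 * a ^ 2 ≤ b) :
    ∃ n2 : ℕ → ℕ, Antitone n2 ∧
      (∀ i, n2 i ≤ phi b (a ^ 2) (strip a d 0) i + (if i = 0 then a ^ 2 / 2 else 0)) ∧
      ∀ r m B : ℕ, (∀ c, B ≤ c → n2 c = 0) → Good K r m n2 (∑ c ∈ Finset.range B, n2 c) →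
        Good K r m (fun b => d + 1 - b) ((d + 2).choose 2) := by
  set x := a ^ 2 with hx
  have hx0 : 0 < x := by positivity
  set Q := (d + 1) / a with hQ
  have hQa : Q * a ≤ d + 1 := Nat.div_mul_le_self _ _
  have hQa2 : d + 1 < (Q + 1) * a := by
    have := Nat.lt_div_mul_add (a := d + 1) (b := a) ha
    rw [← hQ] at this
    linarith
  set α := strip a d 0 with hα
  have hanti : Antitone (strip a d) := by
    intro c c' h
    apply Finset.sum_le_sum
    intro s _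
    have : c * a ≤ c' * a := Nat.mul_le_mul_right a h
    omega
  have hrow : ∀ c < Q, strip a d c + x * c ≤ α := by
    intro c hc
    apply strip_le_nat
    exact le_trans (Nat.mul_le_mul_right a (by omega : c + 1 ≤ Q)) hQa
  have htop := strip_top_nat a d Q hQa
  rw [← hα, ← hx] at htop
  have htop2 : strip a d Q ≤ (α - x * Q) + x / 2 := by omega
  have hαle : α ≤ x * (Q + 1) := by
    have h1 : α ≤ ∑ s ∈ Finset.range a, (d + 1) := by
      rw [hα, strip]
      apply Finset.sum_le_sum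
      intro s _
      omega
    rw [Finset.sum_const, Finset.card_range, smul_eq_mul] at h1
    calc α ≤ a * (d + 1) := h1
      _ ≤ a * ((Q + 1) * a) := Nat.mul_le_mul_left a hQa2.le
      _ = x * (Q + 1) := by rw [hx]; ring
  have htop3 : strip a d Q ≤ b - x := by
    have : x * (Q + 1) = x * Q + x := by ring
    omega
  refine ⟨nod (b - x) Q (strip a d), nod_antitone hanti, ?_, ?_⟩
  · intro i
    have h1 := nod_le_phi (δ := b - x) hx0 hrow htop2 htop3 i
    have : x + (b - x) = b := by omega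
    rw [this] at h1
    exact h1
  · intro r m B hB hg
    apply good_stripF a d ha
    apply nodal_move (b - x) Q (fun c c' h _ => hanti h)
    have h1 : ∑ c ∈ Finset.range B, nod (b - x) Q (strip a d) c =
        ∑ c ∈ Finset.range (Q + 1), nod (b - x) Q (strip a d) c := by
      rcases le_total B (Q + 1) with h | h
      · exact Finset.sum_subset (Finset.range_subset_range.2 h) (fun i _ hi =>
          hB i (by rw [Finset.mem_range] at hi; omega))
      · symm
        exact Finset.sum_subset (Finset.range_subset_range.2 h) (fun i _ hi =>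
          nod_of_lt _ (by rw [Finset.mem_range] at hi; omega))
    rw [h1, nod_sum, sum_strip_total a d (Q + 1) (by omega)] at hg
    exact hg

/-- Emptiness from a chain starting at `b / a + g / (b / a)`. -/
theorem threeStart_empty [Infinite K] {r m d a b g : ℕ} {ρ D : ℝ} (ha : 0 < a)
    (hab : 3 * a ^ 2 ≤ b) (had : a ≤ d + 1)
    (hg : ((b : ℝ) / a) ^ 2 ≤ g * (((d : ℝ) + 3 / 2 - a / 2) / ((b : ℝ) / a) - 1))
    (h : Chain ((b : ℝ) / a + g / ((b : ℝ) / a)) ρ)
    (hD : (d : ℝ) + 3 / 2 - (b : ℝ) / a / 2 + (5 / 8 * (a : ℝ) ^ 2 + g) / ((b : ℝ) / a) ≤ D)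
    (h1 : D < m * ρ) (h2 : ρ * D < r * m) :
    Good K r m (fun b => d + 1 - b) ((d + 2).choose 2) := by
  have ha' : (0 : ℝ) < a := by exact_mod_cast ha
  have ha1 : (1 : ℝ) ≤ a := by exact_mod_cast ha
  have hb : 0 < b := lt_of_lt_of_le (by positivity) hab
  have hb' : (0 : ℝ) < b := by exact_mod_cast hb
  have had' : (a : ℝ) ≤ d + 1 := by exact_mod_cast had
  set ρ0 : ℝ := (b : ℝ) / a with hρ0
  have hρ0pos : 0 < ρ0 := by positivity
  have hg0 : (0 : ℝ) ≤ g := Nat.cast_nonneg g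
  have hρ3pos : 0 < ρ0 + g / ρ0 := by positivity
  have hρ : 0 < ρ := lt_of_lt_of_le hρ3pos h.le
  obtain ⟨n2, hn2a, hn2b, hn2g⟩ := two_moves_empty (K := K) (d := d) ha hab
  set x := a ^ 2 with hx
  have hx0 : 0 < x := by positivity
  have hxr : (x : ℝ) = (a : ℝ) ^ 2 := by rw [hx]; push_cast; ring
  have hxpos : (0 : ℝ) < x := by exact_mod_cast hx0
  have habR : 3 * (x : ℝ) ≤ b := by exact_mod_cast hab
  set α := strip a d 0 with hα
  have hαr : (α : ℝ) = (a : ℝ) * ((d : ℝ) + 3 / 2 - a / 2) := by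
    have h4 := strip_eq a d 0 (by omega)
    rw [hα, h4]
    push_cast
    ring
  have hE : ((x / 2 : ℕ) : ℝ) ≤ (x : ℝ) / 2 := Nat.cast_div_le
  have hn1E : ∀ i, (n2 i : ℝ) ≤ phi b x α i + (x : ℝ) / 2 := by
    intro i
    have h3 := hn2b i
    have h4 : n2 i ≤ phi b x α i + x / 2 := by
      refine le_trans h3 ?_
      split_ifs <;> omega
    have h5 : (n2 i : ℝ) ≤ phi b x α i + ((x / 2 : ℕ) : ℝ) := by exact_mod_cast h4
    linarith
  set Q' := α / b with hQ'
  have hQ'1 : b * Q' ≤ α := Nat.mul_div_le _ _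
  have hQ'2 : α < b * Q' + b := by
    have := Nat.lt_mul_div_succ α hb
    rw [Nat.mul_add, mul_one] at this
    exact this
  have hσ : (b : ℝ) ^ 2 / x = ρ0 ^ 2 := by rw [hρ0, hxr, div_pow]
  -- `Q' ≥ 1`
  have hQ'r : ((d : ℝ) + 3 / 2 - a / 2) / ρ0 - 1 ≤ Q' := by
    have h3 : (α : ℝ) ≤ b * Q' + b := by exact_mod_cast hQ'2.le
    rw [hαr] at h3
    rw [sub_le_iff_le_add, div_le_iff₀ hρ0pos]
    have e1 : ((Q' : ℝ) + 1) * ρ0 = (b * Q' + b) / a := by rw [hρ0]; field_simp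
    rw [e1, le_div_iff₀ ha']
    linarith
  have hgQ : ρ0 ^ 2 ≤ g * Q' := le_trans hg (mul_le_mul_of_nonneg_left hQ'r hg0)
  have hQ'0 : 0 < Q' := by
    rcases Nat.eq_zero_or_pos Q' with h0 | h0
    · rw [h0] at hgQ
      simp only [Nat.cast_zero, mul_zero] at hgQ
      have : 0 < ρ0 ^ 2 := by positivity
      linarith
    · exact h0
  set α' : ℝ := (b : ℝ) / x * α - (b : ℝ) ^ 2 / (2 * x) + b / 2 + 5 / 8 * x with hα'
  set Z : ℝ := (α : ℝ) - b * Q' with hZ
  have hZ0 : 0 ≤ Z := by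
    have : (b : ℝ) * Q' ≤ α := by exact_mod_cast hQ'1
    rw [hZ]; linarith
  have hZb : Z ≤ b := by
    have : (α : ℝ) ≤ b * Q' + b := by exact_mod_cast hQ'2.le
    rw [hZ]; linarith
  have hfull : ∀ c : ℕ, c < Q' → (n2 c : ℝ) ≤ α' - ρ0 ^ 2 * c := by
    intro c hc
    have h3 : b * c + b ≤ α := by
      have h4 : b * (c + 1) ≤ b * Q' := Nat.mul_le_mul_left b hc
      rw [Nat.mul_add, mul_one] at h4
      omega
    have h5 := phi_le b x α c hx0 h3
    have h6 := hn1E c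
    have e1 : (b : ℝ) / x * ((α : ℝ) - b * c) = (b : ℝ) / x * α - ρ0 ^ 2 * c := by
      rw [← hσ]; ring
    rw [e1] at h5
    rw [hα']
    linarith
  have hlast : (n2 Q' : ℝ) ≤ ρ0 ^ 2 := by
    have h5 := phi_last b x α Q' hx0 hQ'1 hQ'2
    have h6 := hn1E Q'
    rw [← hZ] at h5
    have h7 : (phi b x α Q' : ℝ) ≤ ((b : ℝ) ^ 2 + b * x + x ^ 2 / 4) / (2 * x) := by
      rw [le_div_iff₀ (by positivity)]
      have h8 : Z ^ 2 ≤ (b : ℝ) ^ 2 := pow_le_pow_left₀ hZ0 hZb 2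
      have h9 : Z * x ≤ b * x := mul_le_mul_of_nonneg_right hZb hxpos.le
      linarith
    have h8 : ((b : ℝ) ^ 2 + b * x + x ^ 2 / 4) / (2 * x) + x / 2 ≤ (b : ℝ) ^ 2 / x := by
      rw [div_add_div _ _ (by positivity) (by norm_num), div_le_div_iff₀ (by positivity) hxpos]
      have h9 : 3 * (x : ℝ) * b ≤ b * b := mul_le_mul_of_nonneg_right habR hb'.le
      have h10 : 3 * (x : ℝ) * x ≤ b * x := mul_le_mul_of_nonneg_right habR hxpos.le
      have h11 : 0 ≤ (b : ℝ) ^ 2 - b * x - 5 / 4 * x ^ 2 := by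
        have h13 : 0 ≤ (x : ℝ) * x := by positivity
        linarith
      have h12 := mul_nonneg h11 hxpos.le
      linarith
    rw [← hσ]
    linarith
  have hz : ∀ c, Q' < c → n2 c = 0 := by
    intro c hc
    have h3 := hn2b c
    have h4 : phi b x α c = 0 := by
      apply phi_zero
      have : b * (Q' + 1) ≤ b * c := Nat.mul_le_mul_left b hc
      rw [Nat.mul_add, mul_one] at this
      omega
    rw [h4, if_neg (by omega)] at h3
    omega
  have hQn : n2 Q' ≤ g * Q' := by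
    have : (n2 Q' : ℝ) ≤ ((g * Q' : ℕ) : ℝ) := by
      push_cast
      linarith
    exact_mod_cast this
  apply hn2g r m (Q' + 1) (fun c hc => hz c (by omega))
  apply nodal_move g Q' (fun c c' h _ => hn2a h)
  rw [← nod_sum g Q' n2]
  refine below_chainF (D := D) hρ3pos h (fun B n hn hb => good_of_below hρ h1 h2 B n hn hb)
    (Q' + 1) (nod g Q' n2) (fun c hc => nod_of_lt _ (by omega)) ?_
  intro i hi
  obtain ⟨-, h4⟩ := nod_below (σ := ρ0 ^ 2) (A := α') (by positivity) hn2a hfull hQn i hi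
  refine le_trans h4 ?_
  have e1 : (ρ0 ^ 2 + g) / ρ0 ^ 2 = (ρ0 + g / ρ0) / ρ0 := by field_simp
  have e2 : α' = ρ0 * ((d : ℝ) + 3 / 2 - ρ0 / 2) + 5 / 8 * (a : ℝ) ^ 2 := by
    rw [hα', hαr, hxr, hρ0]
    field_simp
    ring
  have e3 : (α' - (ρ0 ^ 2 + g) * i) * ((ρ0 ^ 2 + g) / ρ0 ^ 2) + g =
      α' * ((ρ0 + g / ρ0) / ρ0) + g - (ρ0 + g / ρ0) ^ 2 * i := by
    rw [e1]
    field_simp
    ring
  rw [e3]
  have h5 : (ρ0 + g / ρ0) * ((d : ℝ) + 3 / 2 - ρ0 / 2 + (5 / 8 * (a : ℝ) ^ 2 + g) / ρ0)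
      ≤ (ρ0 + g / ρ0) * D := mul_le_mul_of_nonneg_left hD hρ3pos.le
  have e4 : (ρ0 + g / ρ0) * ((d : ℝ) + 3 / 2 - ρ0 / 2 + (5 / 8 * (a : ℝ) ^ 2 + g) / ρ0)
      = α' * ((ρ0 + g / ρ0) / ρ0) + g + g * (g / ρ0 ^ 2) := by
    rw [e2]
    field_simp
    ring
  have h6 : 0 ≤ (g : ℝ) * (g / ρ0 ^ 2) := by positivity
  linarith

end Pool.Agent.Helper7.NM
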