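import Pool.Agent.Helper7.NM.Core

set_option autoImplicit false

/-! NM-1. A nodal polynomial `G` for which the spaces `∑_k G^k K[x]_{< M_k}` have all vanishing
orders `0, 1, …, dim - 1` at `0`.

`Dig G q M L p`: `p = ∑_{k < q} G^k c_k + G^q R` with `deg c_k < M_k`, `deg R < L`.

`exists_classical`, by induction on `n`. Families `(q i, M i, L i)`, `i < I`, with `M i k < n` for
`k < q i` and `M i` nondecreasing on `[0, q i)`. `D i = ∑_{k < q i} M i k + L i`.
* `n = 0`: all `q i = 0`; `G = 1`, `p = X^j`.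
* `n → n + 1` (now `M i k ≤ n`). Let `q' i` be the first `k < q i` with `M i k = n` (or `q i`), and
  `L' i = n * (q i - q' i) + L i`; as `M i k = n` for `q' i ≤ k < q i`, the number `D i` is the same
  for the family `(q', M, L')`, which satisfies the hypotheses for `n`. Let `G₁` be the polynomial
  for this family. Every `R'` with `deg R' < n * (q i - q' i) + L i` is
  `∑_{j < q i - q' i} G₁^j c_j + G₁^(q i - q' i) R` with `deg c_j < n`, `deg R < L i` (repeated
  division by `G₁`, `natDegree G₁ = n`; if `n = 0` there is nothing to divide: `c_j = 0` and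
  `G₁` is constant, `G₁ = 1`). So `Dig G₁ (q' i) (M i) (L' i) p → Dig G₁ (q i) (M i) (L i) p`.
  Hence for all `i < I`, `j < D i` there are digits `c_k`, `R` with
  `∑ G₁^k c_k + G₁^(q i) R ≡ X^j` modulo `X^(D i)`. Let `G = (1 - ε X) G₁`, `ε ∈ K`. The elements
  `p_j(ε) = ∑ G^k c_k + G^(q i) R` are polynomials in `ε` with coefficients in `K[X]`, and
  `p_j(0) ≡ X^j`. Apply `finite_bad` with `R := K[X]`, `Φ : K[X] →ₗ[K] (Fin (D i) → K)` the first
  `D i` coefficients (for each `i < I`): for all but finitely many `ε` the vectors `Φ (p_j(ε))`,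
  `j < D i`, are linearly independent, hence a basis of `Fin (D i) → K`, and every `X^j` is a
  combination of them modulo `X^(D i)` (`Dig` is stable under linear combinations). Choose `ε ≠ 0`
  outside the finitely many finite bad sets (`K` infinite): then `natDegree G = n + 1`,
  `G.coeff 0 = 1`.

`exists_nodal`: for `i ≤ Q` put `M k = n (Q - k) - δ * i` (nondecreasing in `k ≤ Q`), let `q i` be the
first `k < Q - i` with `δ ≤ M k`, or `Q - i` if there is none, and
`L i = (Q - i - q i) * δ + M (Q - i)`. Then `∑_{k < q i} M k + L i = nod δ Q n i` (for `k < q i`: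
`min (M k) δ = M k`; for `q i ≤ k < Q - i`: `min (M k) δ = δ`; reindex `c = Q - k`). Apply
`exists_classical` with `n := δ`, `I := Q + 1`. Elements of `Dig G (q i) M (L i)` are of the required
form: a polynomial `R` with `deg R < (Q - i - q i) * δ + M (Q - i)` is
`∑_{j < Q - i - q i} G^j c_j + G^(Q - i - q i) R'` with `deg c_j < δ ≤ M (q i + j)`,
`deg R' < M (Q - i)` (the same division lemma). -/

open Polynomial

namespace Pool.Agent.Helper7.NM

variable {K : Type*} [Field K]

/-- Digits. -/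
def Dig (G : K[X]) (q : ℕ) (M : ℕ → ℕ) (L : ℕ) (p : K[X]) : Prop :=
  ∃ (c : ℕ → K[X]) (R : K[X]), (∀ k < q, c k ∈ degreeLT K (M k)) ∧ R ∈ degreeLT K L ∧
    p = ∑ k ∈ Finset.range q, G ^ k * c k + G ^ q * R

theorem div_mem_degreeLT {G : K[X]} (hG0 : G ≠ 0) {m : ℕ} {R : K[X]}
    (hR : R ∈ degreeLT K (G.natDegree + m)) : R / G ∈ degreeLT K m := by
  rw [mem_degreeLT] at hR ⊢
  rcases lt_or_ge R.degree G.degree with h | h
  · rw [(Polynomial.div_eq_zero_iff hG0).2 h, degree_zero]
    exact WithBot.bot_lt_coe m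
  · have h1 := Polynomial.degree_add_div hG0 h
    by_cases h0 : R / G = 0
    · rw [h0, degree_zero]
      exact WithBot.bot_lt_coe m
    · rw [← h1, degree_eq_natDegree hG0, degree_eq_natDegree h0] at hR
      rw [degree_eq_natDegree h0]
      have h2 : G.natDegree + (R / G).natDegree < G.natDegree + m := by exact_mod_cast hR
      have h3 : (R / G).natDegree < m := by omega
      exact_mod_cast h3

/-- Repeated division with remainder. -/
theorem division (G : K[X]) (n e L : ℕ) (hG : G.natDegree = n) (hG0 : G ≠ 0) (R : K[X])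
    (hR : R ∈ degreeLT K (e * n + L)) :
    ∃ (c : ℕ → K[X]) (R' : K[X]), (∀ j < e, c j ∈ degreeLT K n) ∧ R' ∈ degreeLT K L ∧
      R = ∑ j ∈ Finset.range e, G ^ j * c j + G ^ e * R' := by
  subst hG
  induction e generalizing R with
  | zero =>
    refine ⟨fun _ => 0, R, fun j hj => absurd hj (Nat.not_lt_zero j), ?_, ?_⟩
    · rw [zero_mul, zero_add] at hR
      exact hR
    · rw [Finset.range_zero, Finset.sum_empty, pow_zero, one_mul, zero_add]
  | succ e ih =>
    have h1 : R / G ∈ degreeLT K (e * G.natDegree + L) := by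
      apply div_mem_degreeLT hG0
      have : G.natDegree + (e * G.natDegree + L) = (e + 1) * G.natDegree + L := by ring
      rw [this]
      exact hR
    obtain ⟨c, R', hc, hR', hsum⟩ := ih (R / G) h1
    refine ⟨fun j => if j = 0 then R % G else c (j - 1), R', ?_, hR', ?_⟩
    · intro j hj
      dsimp only
      split_ifs with h
      · rw [mem_degreeLT, ← degree_eq_natDegree hG0]
        exact EuclideanDomain.mod_lt R hG0
      · exact hc (j - 1) (by omega)
    · rw [Finset.sum_range_succ']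
      have h2 : ∑ k ∈ Finset.range e, G ^ (k + 1) * (if k + 1 = 0 then R % G else c (k + 1 - 1)) =
          G * ∑ j ∈ Finset.range e, G ^ j * c j := by
        rw [Finset.mul_sum]
        apply Finset.sum_congr rfl
        intro k _
        rw [if_neg (Nat.succ_ne_zero k), Nat.add_sub_cancel, pow_succ]
        ring
      rw [h2]
      dsimp only
      rw [if_pos rfl, pow_zero, one_mul]
      have h3 : R = G * (R / G) + R % G := (EuclideanDomain.div_add_mod R G).symm
      conv_lhs => rw [h3, hsum]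
      ring

/-- Extension of the digits. -/
theorem dig_extend {G : K[X]} (hG0 : G ≠ 0) {q q₂ L : ℕ} {M : ℕ → ℕ} (hq : q ≤ q₂)
    (hM : ∀ k, q ≤ k → k < q₂ → G.natDegree ≤ M k) {p : K[X]}
    (h : Dig G q M ((q₂ - q) * G.natDegree + L) p) : Dig G q₂ M L p := by
  obtain ⟨c, R, hc, hR, rfl⟩ := h
  obtain ⟨c', R', hc', hR', rfl⟩ := division G G.natDegree (q₂ - q) L rfl hG0 R hR
  obtain ⟨e, rfl⟩ : ∃ e, q₂ = q + e := ⟨q₂ - q, by omega⟩
  rw [Nat.add_sub_cancel_left] at hc' ⊢
  refine ⟨fun k => if k < q then c k else c' (k - q), R', ?_, hR', ?_⟩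
  · intro k hk
    dsimp only
    split_ifs with h
    · exact hc k h
    · exact degreeLT_mono (hM k (by omega) hk) (hc' (k - q) (by omega))
  · rw [Finset.sum_range_add]
    have h1 : ∑ k ∈ Finset.range q, G ^ k * (if k < q then c k else c' (k - q)) =
        ∑ k ∈ Finset.range q, G ^ k * c k := by
      apply Finset.sum_congr rfl
      intro k hk
      rw [if_pos (Finset.mem_range.1 hk)]
    have h2 : ∑ k ∈ Finset.range e, G ^ (q + k) * (if q + k < q then c (q + k)
        else c' (q + k - q)) = G ^ q * ∑ k ∈ Finset.range e, G ^ k * c' k := by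
      rw [Finset.mul_sum]
      apply Finset.sum_congr rfl
      intro k _
      rw [if_neg (by omega), Nat.add_sub_cancel_left, pow_add]
      ring
    rw [h1, h2, pow_add]
    ring

theorem dig_zero (G : K[X]) (q : ℕ) (M : ℕ → ℕ) (L : ℕ) : Dig G q M L 0 :=
  ⟨fun _ => 0, 0, fun _ _ => Submodule.zero_mem _, Submodule.zero_mem _, by simp⟩

theorem dig_add {G : K[X]} {q : ℕ} {M : ℕ → ℕ} {L : ℕ} {p p' : K[X]} (h : Dig G q M L p)
    (h' : Dig G q M L p') : Dig G q M L (p + p') := by
  obtain ⟨c, R, hc, hR, rfl⟩ := h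
  obtain ⟨c', R', hc', hR', rfl⟩ := h'
  refine ⟨fun k => c k + c' k, R + R', fun k hk => Submodule.add_mem _ (hc k hk) (hc' k hk),
    Submodule.add_mem _ hR hR', ?_⟩
  simp only [mul_add, Finset.sum_add_distrib]
  ring

theorem dig_smul {G : K[X]} {q : ℕ} {M : ℕ → ℕ} {L : ℕ} {p : K[X]} (a : K) (h : Dig G q M L p) :
    Dig G q M L (a • p) := by
  obtain ⟨c, R, hc, hR, rfl⟩ := h
  refine ⟨fun k => a • c k, a • R, fun k hk => Submodule.smul_mem _ a (hc k hk),
    Submodule.smul_mem _ a hR, ?_⟩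
  rw [smul_add, Finset.smul_sum]
  simp only [mul_smul_comm]

theorem dig_sum {G : K[X]} {q : ℕ} {M : ℕ → ℕ} {L : ℕ} {ι : Type*} (s : Finset ι) (p : ι → K[X])
    (h : ∀ i ∈ s, Dig G q M L (p i)) : Dig G q M L (∑ i ∈ s, p i) := by
  classical
  induction s using Finset.induction_on with
  | empty =>
    rw [Finset.sum_empty]
    exact dig_zero G q M L
  | insert i s hi ih =>
    rw [Finset.sum_insert hi]
    exact dig_add (h i (Finset.mem_insert_self i s))
      (ih fun j hj => h j (Finset.mem_insert_of_mem hj))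

/-- The first `D` coefficients. -/
noncomputable def frst (K : Type*) [Field K] (D : ℕ) : K[X] →ₗ[K] (Fin D → K) :=
  LinearMap.pi fun l => lcoeff K (l : ℕ)

theorem frst_apply {D : ℕ} (p : K[X]) (l : Fin D) : frst K D p l = p.coeff l := rfl

theorem frst_eq_iff {D : ℕ} (p : K[X]) (j : Fin D) :
    frst K D p = Pi.single j 1 ↔ X ^ D ∣ p - X ^ (j : ℕ) := by
  rw [X_pow_dvd_iff]
  constructor
  · intro h d hd
    have h1 := congrFun h ⟨d, hd⟩
    rw [frst_apply] at h1
    rw [coeff_sub, coeff_X_pow, h1, Pi.single_apply]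
    by_cases hdj : d = (j : ℕ)
    · rw [if_pos (Fin.ext hdj), if_pos hdj, sub_self]
    · rw [if_neg (fun h2 => hdj (congrArg Fin.val h2)), if_neg hdj, sub_self]
  · intro h
    funext l
    have h1 := h l l.2
    rw [coeff_sub, coeff_X_pow, sub_eq_zero] at h1
    rw [frst_apply, h1, Pi.single_apply]
    by_cases hlj : l = j
    · rw [if_pos hlj, if_pos (congrArg Fin.val hlj)]
    · rw [if_neg hlj, if_neg (fun h2 => hlj (Fin.ext h2))]

/-- The perturbation step for one family. -/
theorem finite_perturb (G₁ : K[X]) (q : ℕ) (M : ℕ → ℕ) (L D : ℕ)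
    (h : ∀ j < D, ∃ p, Dig G₁ q M L p ∧ X ^ D ∣ p - X ^ j) :
    {ε : K | ¬ ∀ j < D, ∃ p, Dig ((1 - C ε * X) * G₁) q M L p ∧ X ^ D ∣ p - X ^ j}.Finite := by
  classical
  have h1 : ∀ j : Fin D, ∃ (c : ℕ → K[X]) (R : K[X]), (∀ k < q, c k ∈ degreeLT K (M k)) ∧
      R ∈ degreeLT K L ∧
      X ^ D ∣ (∑ k ∈ Finset.range q, G₁ ^ k * c k + G₁ ^ q * R) - X ^ (j : ℕ) := by
    intro j
    obtain ⟨p, ⟨c, R, hc, hR, rfl⟩, hp⟩ := h j j.2
    exact ⟨c, R, hc, hR, hp⟩
  choose c R hc hR hp using h1
  let B : K[X][X] := (1 - C (X : K[X]) * X) * C G₁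
  let w : Fin D → K[X][X] := fun j =>
    ∑ k ∈ Finset.range q, B ^ k * C (c j k) + B ^ q * C (R j)
  have hBev : ∀ ε : K, B.eval (algebraMap K K[X] ε) = (1 - C ε * X) * G₁ := by
    intro ε
    simp only [B, eval_mul, eval_sub, eval_one, eval_C, eval_X, algebraMap_eq]
    ring
  have hwev : ∀ (ε : K) (j : Fin D), (w j).eval (algebraMap K K[X] ε) =
      ∑ k ∈ Finset.range q, ((1 - C ε * X) * G₁) ^ k * c j k +
        ((1 - C ε * X) * G₁) ^ q * R j := by
    intro ε j
    simp only [w, eval_add, eval_finsetSum, eval_mul, eval_pow, eval_C, hBev]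
  have hw0 : ∀ j : Fin D, (w j).coeff 0 =
      ∑ k ∈ Finset.range q, G₁ ^ k * c j k + G₁ ^ q * R j := by
    intro j
    have h2 := hwev 0 j
    rw [map_zero, ← coeff_zero_eq_eval_zero] at h2
    rw [h2]
    simp
  have hli : LinearIndependent K (fun j => frst K D ((w j).coeff 0)) := by
    have h2 : (fun j => frst K D ((w j).coeff 0)) = fun j : Fin D => Pi.single j (1 : K) := by
      funext j
      rw [frst_eq_iff, hw0]
      exact hp j
    rw [h2]
    have h3 := (Pi.basisFun K (Fin D)).linearIndependent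
    convert h3 using 1
    funext j
    rw [Pi.basisFun_apply]
  refine (finite_bad (frst K D) w hli).subset ?_
  intro ε hε
  rw [Set.mem_ofPred_eq] at hε ⊢
  intro hlin
  apply hε
  intro j₀ hj₀
  have hspan : Submodule.span K (Set.range fun j : Fin D =>
      frst K D ((w j).eval (algebraMap K K[X] ε))) = ⊤ := by
    apply hlin.span_eq_top_of_card_eq_finrank'
    simp
  have hmem : (Pi.single (⟨j₀, hj₀⟩ : Fin D) (1 : K) : Fin D → K) ∈
      Submodule.span K (Set.range fun j : Fin D =>
        frst K D ((w j).eval (algebraMap K K[X] ε))) := by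
    rw [hspan]
    exact Submodule.mem_top
  rw [Submodule.mem_span_range_iff_exists_fun] at hmem
  obtain ⟨a, ha⟩ := hmem
  refine ⟨∑ j, a j • (w j).eval (algebraMap K K[X] ε), ?_, ?_⟩
  · apply dig_sum
    intro j _
    apply dig_smul
    exact ⟨c j, R j, hc j, hR j, hwev ε j⟩
  · have h2 := (frst_eq_iff (∑ j, a j • (w j).eval (algebraMap K K[X] ε))
      (⟨j₀, hj₀⟩ : Fin D)).1 (by rw [map_sum, ← ha]; simp only [map_smul])
    exact h2

/-- The cut position: the first `k < q` with `d ≤ M k`, or `q`. -/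
theorem exists_cut (d q : ℕ) (M : ℕ → ℕ) (hM : ∀ k l, k ≤ l → l < q → M k ≤ M l) :
    ∃ q' ≤ q, (∀ k < q', M k < d) ∧ ∀ k, q' ≤ k → k < q → d ≤ M k := by
  classical
  have hex : ∃ k, q ≤ k ∨ d ≤ M k := ⟨q, Or.inl le_rfl⟩
  refine ⟨Nat.find hex, Nat.find_min' hex (Or.inl le_rfl), ?_, ?_⟩
  · intro k hk
    have h1 := Nat.find_min hex hk
    push Not at h1
    exact h1.2
  · intro k hk hkq
    rcases Nat.find_spec hex with h | h
    · omega
    · exact h.trans (hM _ k hk hkq)

theorem exists_classical [Infinite K] (n : ℕ) : ∀ (I : ℕ) (q : ℕ → ℕ) (M : ℕ → ℕ → ℕ) (L : ℕ → ℕ),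
    (∀ i < I, ∀ k l, k ≤ l → l < q i → M i k ≤ M i l) → (∀ i < I, ∀ k < q i, M i k < n) →
    ∃ G : K[X], G.natDegree = n ∧ G.coeff 0 = 1 ∧
      ∀ i < I, ∀ j < ∑ k ∈ Finset.range (q i), M i k + L i,
        ∃ p, Dig G (q i) (M i) (L i) p ∧ X ^ (∑ k ∈ Finset.range (q i), M i k + L i) ∣ p - X ^ j := by
  classical
  induction n with
  | zero =>
    intro I q M L _ hM
    refine ⟨1, natDegree_one, coeff_one_zero, ?_⟩
    intro i hi j hj
    have hq : q i = 0 := by
      by_contra h
      exact absurd (hM i hi 0 (Nat.pos_of_ne_zero h)) (Nat.not_lt_zero _)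
    rw [hq, Finset.range_zero, Finset.sum_empty, zero_add] at hj ⊢
    refine ⟨X ^ j, ⟨fun _ => 0, X ^ j, fun k hk => absurd hk (Nat.not_lt_zero k), ?_, ?_⟩, ?_⟩
    · rw [mem_degreeLT, degree_X_pow]
      exact_mod_cast hj
    · rw [Finset.range_zero, Finset.sum_empty, pow_zero, one_mul, zero_add]
    · rw [sub_self]
      exact dvd_zero _
  | succ n ih =>
    intro I q M L hmono hM
    have hcut : ∀ i, ∃ q', i < I → q' ≤ q i ∧ (∀ k < q', M i k < n) ∧
        ∀ k, q' ≤ k → k < q i → n ≤ M i k := by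
      intro i
      by_cases hi : i < I
      · obtain ⟨q', h1, h2, h3⟩ := exists_cut n (q i) (M i) (hmono i hi)
        exact ⟨q', fun _ => ⟨h1, h2, h3⟩⟩
      · exact ⟨0, fun h => absurd h hi⟩
    choose q' hq' using hcut
    obtain ⟨G₁, hG₁, hG₁0, hcl⟩ := ih I q' M (fun i => (q i - q' i) * n + L i)
      (fun i hi k l hkl hl => hmono i hi k l hkl (hl.trans_le (hq' i hi).1))
      (fun i hi k hk => (hq' i hi).2.1 k hk)
    have hG₁ne : G₁ ≠ 0 := by
      intro h
      rw [h, coeff_zero] at hG₁0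
      exact zero_ne_one hG₁0
    have hD : ∀ i < I, ∑ k ∈ Finset.range (q' i), M i k + ((q i - q' i) * n + L i) =
        ∑ k ∈ Finset.range (q i), M i k + L i := by
      intro i hi
      obtain ⟨h1, h2, h3⟩ := hq' i hi
      obtain ⟨e, he⟩ : ∃ e, q i = q' i + e := ⟨q i - q' i, by omega⟩
      rw [he, Finset.sum_range_add, Nat.add_sub_cancel_left]
      have h4 : ∑ k ∈ Finset.range e, M i (q' i + k) = e * n := by
        rw [Finset.sum_congr rfl (g := fun _ => n), Finset.sum_const, Finset.card_range,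
          smul_eq_mul]
        intro k hk
        have hk' := Finset.mem_range.1 hk
        have h5 := h3 (q' i + k) (by omega) (by omega)
        have h6 := hM i hi (q' i + k) (by omega)
        omega
      rw [h4]
      ring
    have hfin : ∀ i < I, {ε : K | ¬ ∀ j < ∑ k ∈ Finset.range (q i), M i k + L i,
        ∃ p, Dig ((1 - C ε * X) * G₁) (q i) (M i) (L i) p ∧
          X ^ (∑ k ∈ Finset.range (q i), M i k + L i) ∣ p - X ^ j}.Finite := by
      intro i hi
      apply finite_perturb
      intro j hj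
      have h1 := hcl i hi
      rw [hD i hi] at h1
      obtain ⟨p, hp, hdvd⟩ := h1 j hj
      refine ⟨p, ?_, hdvd⟩
      apply dig_extend hG₁ne (hq' i hi).1
      · rw [hG₁]
        exact (hq' i hi).2.2
      · rw [hG₁]
        exact hp
    have hbad : ((⋃ i ∈ Finset.range I, {ε : K | ¬ ∀ j < ∑ k ∈ Finset.range (q i), M i k + L i,
        ∃ p, Dig ((1 - C ε * X) * G₁) (q i) (M i) (L i) p ∧
          X ^ (∑ k ∈ Finset.range (q i), M i k + L i) ∣ p - X ^ j}) ∪ {0}).Finite := by
      apply Set.Finite.union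
      · apply Set.Finite.biUnion (Finset.finite_toSet (Finset.range I))
        intro i hi
        exact hfin i (Finset.mem_range.1 (Finset.mem_coe.1 hi))
      · exact Set.finite_singleton 0
    obtain ⟨ε, hε⟩ := hbad.exists_notMem
    rw [Set.mem_union, not_or] at hε
    obtain ⟨hε1, hε0⟩ := hε
    have hε0' : ε ≠ 0 := fun h => hε0 (by rw [h]; exact Set.mem_singleton 0)
    have hlin : (1 - C ε * X : K[X]).natDegree = 1 := by
      have h2 : (1 - C ε * X : K[X]) = C (-ε) * X + C 1 := by
        rw [C_neg, C_1]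
        ring
      rw [h2]
      exact natDegree_linear (neg_ne_zero.2 hε0')
    have hlin0 : (1 - C ε * X : K[X]) ≠ 0 := by
      intro h
      rw [h, natDegree_zero] at hlin
      exact zero_ne_one hlin
    refine ⟨(1 - C ε * X) * G₁, ?_, ?_, ?_⟩
    · rw [natDegree_mul hlin0 hG₁ne, hlin, hG₁, add_comm]
    · rw [mul_coeff_zero, hG₁0]
      simp
    · intro i hi
      by_contra hcon
      apply hε1
      rw [Set.mem_iUnion₂]
      exact ⟨i, Finset.mem_range.2 hi, hcon⟩

theorem exists_nodal [Infinite K] (δ Q : ℕ) (n : ℕ → ℕ)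
    (hn : ∀ c c', c ≤ c' → c' ≤ Q → n c' ≤ n c) :
    ∃ G : K[X], G.natDegree ≤ δ ∧ G.coeff 0 = 1 ∧
      ∀ i ≤ Q, ∀ j < nod δ Q n i, ∃ c : ℕ → K[X],
        (∀ k ≤ Q - i, c k ∈ degreeLT K (n (Q - k) - δ * i)) ∧
        X ^ nod δ Q n i ∣ ∑ k ∈ Finset.range (Q - i + 1), G ^ k * c k - X ^ j := by
  classical
  have hmono : ∀ i k l, k ≤ l → l ≤ Q → n (Q - k) - δ * i ≤ n (Q - l) - δ * i := by
    intro i k l hkl hl
    have := hn (Q - l) (Q - k) (by omega) (by omega)
    omega
  have hcut : ∀ i, ∃ q' ≤ Q - i, (∀ k < q', n (Q - k) - δ * i < δ) ∧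
      ∀ k, q' ≤ k → k < Q - i → δ ≤ n (Q - k) - δ * i :=
    fun i => exists_cut δ (Q - i) (fun k => n (Q - k) - δ * i)
      (fun k l hkl hl => hmono i k l hkl (by omega))
  choose q hq1 hq2 hq3 using hcut
  obtain ⟨G, hG, hG0, hcl⟩ := exists_classical (K := K) δ (Q + 1) q
    (fun i k => n (Q - k) - δ * i)
    (fun i => (Q - i - q i) * δ + (n (Q - (Q - i)) - δ * i))
    (fun i hi k l hkl hl => hmono i k l hkl (by have := hq1 i; omega))
    (fun i hi k hk => hq2 i k hk)
  have hGne : G ≠ 0 := by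
    intro h
    rw [h, coeff_zero] at hG0
    exact zero_ne_one hG0
  refine ⟨G, hG.le, hG0, ?_⟩
  intro i hi
  have hD : ∑ k ∈ Finset.range (q i), (n (Q - k) - δ * i) +
      ((Q - i - q i) * δ + (n (Q - (Q - i)) - δ * i)) = nod δ Q n i := by
    rw [nod, if_pos hi]
    have h1 : Q - (Q - i) = i := by omega
    have h2 : ∑ c ∈ Finset.Ioc i Q, min (n c - δ * i) δ =
        ∑ k ∈ Finset.range (Q - i), min (n (Q - k) - δ * i) δ := by
      apply Finset.sum_bij' (fun c _ => Q - c) (fun k _ => Q - k)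
      · intro c hc
        rw [Finset.mem_Ioc] at hc
        rw [Finset.mem_range]
        omega
      · intro k hk
        rw [Finset.mem_range] at hk
        rw [Finset.mem_Ioc]
        omega
      · intro c hc
        rw [Finset.mem_Ioc] at hc
        omega
      · intro k hk
        rw [Finset.mem_range] at hk
        omega
      · intro c hc
        rw [Finset.mem_Ioc] at hc
        have : Q - (Q - c) = c := by omega
        rw [this]
    obtain ⟨e, he⟩ : ∃ e, Q - i = q i + e := ⟨Q - i - q i, by have := hq1 i; omega⟩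
    have h3 : ∑ k ∈ Finset.range (Q - i), min (n (Q - k) - δ * i) δ =
        ∑ k ∈ Finset.range (q i), (n (Q - k) - δ * i) + (Q - i - q i) * δ := by
      rw [he, Finset.sum_range_add, Nat.add_sub_cancel_left]
      congr 1
      · apply Finset.sum_congr rfl
        intro k hk
        exact min_eq_left (hq2 i k (Finset.mem_range.1 hk)).le
      · rw [Finset.sum_congr rfl (g := fun _ => δ), Finset.sum_const, Finset.card_range,
          smul_eq_mul]
        intro k hk
        have hk' := Finset.mem_range.1 hk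
        exact min_eq_right (hq3 i (q i + k) (by omega) (by omega))
    rw [h2, h3, h1]
    ring
  intro j hj
  have hcli := hcl i (by omega)
  rw [hD] at hcli
  obtain ⟨p, hp, hdvd⟩ := hcli j hj
  have hp' : Dig G (Q - i) (fun k => n (Q - k) - δ * i) (n (Q - (Q - i)) - δ * i) p := by
    apply dig_extend hGne (hq1 i)
    · rw [hG]
      exact hq3 i
    · rw [hG]
      exact hp
  obtain ⟨c, R, hc, hR, hpe⟩ := hp'
  refine ⟨fun k => if k < Q - i then c k else R, ?_, ?_⟩
  · intro k hk
    dsimp only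
    split_ifs with h
    · exact hc k h
    · have hk' : k = Q - i := by omega
      rw [hk']
      exact hR
  · rw [Finset.sum_range_succ]
    dsimp only
    rw [if_neg (lt_irrefl _)]
    have h1 : ∑ k ∈ Finset.range (Q - i), G ^ k * (if k < Q - i then c k else R) =
        ∑ k ∈ Finset.range (Q - i), G ^ k * c k := by
      apply Finset.sum_congr rfl
      intro k hk
      rw [if_pos (Finset.mem_range.1 hk)]
    rw [h1, ← hpe]
    exact hdvd

end Pool.Agent.Helper7.NM
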