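import Pool.Agent.Helper7.NM.Core
import Pool.Agent.Helper42.StartTwo

set_option autoImplicit false

/-! NM-6. Combinatorics of the nodal move (`nod` is defined in `Core.lean`).

All subtractions are truncated. Useful: `min (a - δ * i) δ = (a - δ * i) - (a - δ * (i + 1))`.

`nod_sum`: exchange the sums: the cells of the row `c` contribute `n c - δ * c` to the row `c` and
`min (n c - δ * i) δ` to the rows `i < c`; `∑_{i < c} min (n c - δ * i) δ = min (n c) (δ * c)`
(telescoping).
`nod_antitone`: termwise.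
`nod_lin`: put `y = α - (x + δ) * i`. The left side is `y + ∑_{l ≥ 1} min (y - x * l) δ` (`c = i + l`;
terms with `x * l ≥ y` vanish, and `α < x * (Q + 1)`, so the range of `c` does not matter), the right
side is `∑_{l ≥ 0} min (x + δ) (y - x * l)`; use
`min (x + δ) (y - x * l) = min x (y - x * l) + min δ (y - x * (l + 1))` and
`∑_{l ≥ 0} min x (y - x * l) = y` (telescoping; `x > 0`). For `i > Q` both sides are `0`
(`phi_zero`: `α ≤ x * i`).
`nod_stair`: `nod_lin` with `x = 1`, `α = d + 1` and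
`phi a 1 (d + 1) i = ∑_l min a (y - l) = ∑_l ∑_{s < a} [s < y - l] = ∑_{s < a} (y - s) = strip a d i`,
`y = d + 1 - a * i`.
`nod_le_phi`: compare with the rows `n₀ c = α - x * c`: `n c ≤ n₀ c` for `c < Q`,
`n Q ≤ n₀ Q + E`, `n Q ≤ δ`; the row `Q` contributes to the row `i ≥ 1` only
`min (n Q - δ * i) δ = 0`, and for `i = 0` at most `min (n₀ Q) δ + E` (or `n Q ≤ n₀ Q + E` if
`Q = 0`); the rest is at most `nod δ Q₀ n₀ i = phi (x + δ) x α i` for large `Q₀ ≥ Q` (`nod_lin`; the
terms with `c > Q` only increase the sum). -/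

namespace Pool.Agent.Helper7.NM

open Pool.Agent.Helper41.Fat Pool.Agent.Helper42.Game

theorem nod_of_lt {δ Q : ℕ} (n : ℕ → ℕ) {i : ℕ} (h : Q < i) : nod δ Q n i = 0 := by
  rw [nod, if_neg (by omega)]

/-- Telescoping. -/
theorem nodAux_tele (a δ k : ℕ) : ∑ i ∈ Finset.range k, min (a - δ * i) δ = min a (δ * k) := by
  induction k with
  | zero => simp
  | succ k ih =>
    rw [Finset.sum_range_succ, ih, Nat.mul_succ]
    omega

theorem nodAux_range {f : ℕ → ℕ} {A B : ℕ} (hA : ∀ l, A ≤ l → f l = 0)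
    (hB : ∀ l, B ≤ l → f l = 0) :
    ∑ l ∈ Finset.range A, f l = ∑ l ∈ Finset.range B, f l := by
  have h1 : ∑ l ∈ Finset.range A, f l = ∑ l ∈ Finset.range (max A B), f l := by
    refine Finset.sum_subset (fun l hl => ?_) fun l _ h2 => hA l ?_
    · rw [Finset.mem_range] at hl ⊢
      omega
    · rw [Finset.mem_range] at h2
      omega
  have h2 : ∑ l ∈ Finset.range B, f l = ∑ l ∈ Finset.range (max A B), f l := by
    refine Finset.sum_subset (fun l hl => ?_) fun l _ h2 => hB l ?_
    · rw [Finset.mem_range] at hl ⊢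
      omega
    · rw [Finset.mem_range] at h2
      omega
  rw [h1, h2]

theorem nodAux_Ioc (f : ℕ → ℕ) (i Q : ℕ) :
    ∑ c ∈ Finset.Ioc i Q, f c = ∑ l ∈ Finset.range (Q - i), f (i + 1 + l) := by
  have h : Finset.Ioc i Q = Finset.Ico (i + 1) (Q + 1) := by
    ext c
    simp only [Finset.mem_Ioc, Finset.mem_Ico]
    omega
  rw [h, Finset.sum_Ico_eq_sum_range]
  congr 2
  omega

theorem nod_sum (δ Q : ℕ) (n : ℕ → ℕ) :
    ∑ i ∈ Finset.range (Q + 1), nod δ Q n i = ∑ c ∈ Finset.range (Q + 1), n c := by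
  have h1 : ∑ i ∈ Finset.range (Q + 1), nod δ Q n i
      = ∑ i ∈ Finset.range (Q + 1), ((n i - δ * i)
        + ∑ c ∈ Finset.Ioc i Q, min (n c - δ * i) δ) := by
    refine Finset.sum_congr rfl fun i hi => ?_
    rw [Finset.mem_range] at hi
    rw [nod, if_pos (by omega)]
  have h2 : ∑ i ∈ Finset.range (Q + 1), ∑ c ∈ Finset.Ioc i Q, min (n c - δ * i) δ
      = ∑ c ∈ Finset.range (Q + 1), ∑ i ∈ Finset.range c, min (n c - δ * i) δ := by
    refine Finset.sum_comm' fun i c => ?_
    simp only [Finset.mem_range, Finset.mem_Ioc]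
    omega
  rw [h1, Finset.sum_add_distrib, h2, ← Finset.sum_add_distrib]
  refine Finset.sum_congr rfl fun c _ => ?_
  rw [nodAux_tele]
  omega

theorem nod_antitone {δ Q : ℕ} {n : ℕ → ℕ} (hn : Antitone n) : Antitone (nod δ Q n) := by
  intro i j hij
  rcases Nat.lt_or_ge Q j with hj | hj
  · rw [nod_of_lt n hj]
    exact Nat.zero_le _
  · rw [nod, nod, if_pos hj, if_pos (hij.trans hj)]
    have hd : δ * i ≤ δ * j := Nat.mul_le_mul_left _ hij
    have h1 : n j ≤ n i := hn hij
    refine add_le_add (by omega) ?_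
    calc ∑ c ∈ Finset.Ioc j Q, min (n c - δ * j) δ
        ≤ ∑ c ∈ Finset.Ioc j Q, min (n c - δ * i) δ :=
          Finset.sum_le_sum fun c _ => by omega
      _ ≤ ∑ c ∈ Finset.Ioc i Q, min (n c - δ * i) δ := by
          refine Finset.sum_le_sum_of_subset fun c hc => ?_
          rw [Finset.mem_Ioc] at hc ⊢
          omega

theorem nodAux_lin {x δ α Q : ℕ} (hx : 0 < x) (hQ : α ≤ x * (Q + 1)) (i : ℕ) :
    nod δ Q (fun c => α - x * c) i = phi (x + δ) x α i := by
  rcases Nat.lt_or_ge Q i with hi | hi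
  · rw [nod_of_lt _ hi, phi_zero]
    calc α ≤ x * (Q + 1) := hQ
      _ ≤ x * i := Nat.mul_le_mul_left _ hi
      _ ≤ (x + δ) * i := Nat.mul_le_mul_right _ (Nat.le_add_right _ _)
  · rw [nod, if_pos hi, nodAux_Ioc, phi]
    have hy : (x + δ) * i = x * i + δ * i := Nat.add_mul _ _ _
    have e1 : ∀ l, α - ((x + δ) * i + x * l) = (α - (x + δ) * i) - x * l := fun l => by omega
    have e2 : ∀ l, min (x + δ) (α - ((x + δ) * i + x * l))
        = min ((α - (x + δ) * i) - x * l) x + min ((α - (x + δ) * i) - x * (l + 1)) δ := by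
      intro l
      rw [e1, Nat.mul_succ]
      omega
    have e3 : ∀ l, min (α - x * (i + 1 + l) - δ * i) δ
        = min ((α - (x + δ) * i) - x * (l + 1)) δ := by
      intro l
      have h1 : x * (i + 1 + l) = x * i + x * (l + 1) := by ring
      rw [h1]
      omega
    rw [Finset.sum_congr rfl fun l _ => e2 l, Finset.sum_add_distrib, nodAux_tele,
      Finset.sum_congr rfl fun l _ => e3 l]
    have h2 : min (α - (x + δ) * i) (x * (α + 1)) = α - (x + δ) * i := by
      refine min_eq_left ?_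
      have h3 : α + 1 ≤ x * (α + 1) := Nat.le_mul_of_pos_left _ hx
      omega
    rw [h2]
    refine congrArg₂ (· + ·) (by omega) ?_
    refine nodAux_range (fun l hl => ?_) fun l hl => ?_
    · have h3 : x * (Q + 1 - i) ≤ x * (l + 1) := Nat.mul_le_mul_left _ (by omega)
      have h4 : x * (Q + 1) = x * (Q + 1 - i) + x * i := by
        rw [← Nat.mul_add]
        congr 1
        omega
      omega
    · have h3 : l + 1 ≤ x * (l + 1) := Nat.le_mul_of_pos_left _ hx
      omega

theorem nod_lin {x δ α Q : ℕ} (hx : 0 < x) (hQ : α < x * (Q + 1)) (i : ℕ) :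
    nod δ Q (fun c => α - x * c) i = phi (x + δ) x α i :=
  nodAux_lin hx hQ.le i

theorem nodAux_count (s y N : ℕ) :
    ∑ l ∈ Finset.range N, (if l + s < y then 1 else 0) = min N (y - s) := by
  induction N with
  | zero => simp
  | succ N ih =>
    rw [Finset.sum_range_succ, ih]
    split_ifs <;> omega

theorem nod_stair {a : ℕ} (ha : 0 < a) (d i : ℕ) :
    nod (a - 1) d (fun b => d + 1 - b) i = strip a d i := by
  have h1 := nodAux_lin (x := 1) (δ := a - 1) (α := d + 1) (Q := d) Nat.one_pos (by omega) i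
  have h2 : (fun c => d + 1 - 1 * c) = fun c => d + 1 - c := by
    funext c
    rw [Nat.one_mul]
  have h3 : 1 + (a - 1) = a := by omega
  rw [h2, h3] at h1
  rw [h1, phi, strip]
  have e1 : ∀ l, min a (d + 1 - (a * i + 1 * l))
      = ∑ s ∈ Finset.range a, (if s + l < d + 1 - a * i then 1 else 0) := by
    intro l
    rw [nodAux_count]
    omega
  have e2 : ∀ s, d + 1 - (i * a + s)
      = ∑ l ∈ Finset.range (d + 1 + 1), (if l + s < d + 1 - a * i then 1 else 0) := by
    intro s
    rw [nodAux_count, Nat.mul_comm i a]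
    omega
  rw [Finset.sum_congr rfl fun l _ => e1 l, Finset.sum_congr rfl fun s _ => e2 s,
    Finset.sum_comm]
  refine Finset.sum_congr rfl fun s _ => Finset.sum_congr rfl fun l _ => ?_
  rw [Nat.add_comm s l]

theorem nod_le_phi {x δ α Q E : ℕ} {n : ℕ → ℕ} (hx : 0 < x) (h1 : ∀ c < Q, n c + x * c ≤ α)
    (h2 : n Q ≤ (α - x * Q) + E) (h3 : n Q ≤ δ) (i : ℕ) :
    nod δ Q n i ≤ phi (x + δ) x α i + (if i = 0 then E else 0) := by
  rcases Nat.lt_or_ge Q i with hi | hi
  · rw [nod_of_lt _ hi]
    exact Nat.zero_le _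
  · have hQ0 : α ≤ x * (Q + α + 1) := by
      calc α ≤ Q + α + 1 := by omega
        _ ≤ x * (Q + α + 1) := Nat.le_mul_of_pos_left _ hx
    rw [← nodAux_lin (δ := δ) hx hQ0 i, nod, nod, if_pos hi, if_pos (by omega)]
    have hδ : 1 ≤ i → δ ≤ δ * i := fun h => Nat.le_mul_of_pos_right _ h
    have hsub : ∑ c ∈ Finset.Ioc i Q, min ((α - x * c) - δ * i) δ
        ≤ ∑ c ∈ Finset.Ioc i (Q + α), min ((α - x * c) - δ * i) δ := by
      refine Finset.sum_le_sum_of_subset fun c hc => ?_
      rw [Finset.mem_Ioc] at hc ⊢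
      omega
    rcases Nat.lt_or_ge i Q with hiQ | hiQ
    · have hterm : ∀ c ∈ Finset.Ioc i Q, min (n c - δ * i) δ
          ≤ min ((α - x * c) - δ * i) δ + (if c = Q then (if i = 0 then E else 0) else 0) := by
        intro c hc
        rw [Finset.mem_Ioc] at hc
        rcases Nat.lt_or_ge c Q with hcQ | hcQ
        · have := h1 c hcQ
          omega
        · have hcQ' : c = Q := by omega
          subst hcQ'
          rw [if_pos rfl]
          rcases Nat.eq_zero_or_pos i with h0 | h0
          · subst h0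
            rw [if_pos rfl]
            omega
          · have := hδ h0
            omega
      have hsum : ∑ c ∈ Finset.Ioc i Q, min (n c - δ * i) δ
          ≤ ∑ c ∈ Finset.Ioc i Q, min ((α - x * c) - δ * i) δ + (if i = 0 then E else 0) := by
        calc ∑ c ∈ Finset.Ioc i Q, min (n c - δ * i) δ
            ≤ ∑ c ∈ Finset.Ioc i Q, (min ((α - x * c) - δ * i) δ
              + (if c = Q then (if i = 0 then E else 0) else 0)) := Finset.sum_le_sum hterm
          _ = _ := by
            rw [Finset.sum_add_distrib, Finset.sum_ite_eq', if_pos]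
            rw [Finset.mem_Ioc]
            exact ⟨hiQ, le_refl _⟩
      have := h1 i hiQ
      omega
    · have hiQ' : i = Q := by omega
      subst hiQ'
      rw [Finset.Ioc_self, Finset.sum_empty]
      rcases Nat.eq_zero_or_pos i with h0 | h0
      · subst h0
        rw [if_pos rfl]
        omega
      · have := hδ h0
        omega

end Pool.Agent.Helper7.NM
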