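import Pool.Agent.Helper41.FatMain

set_option autoImplicit false

/-! Project NM (helper7), MP_e6aa12_ag: definitions and a specialization lemma.

`nod δ Q n`: the rows obtained from the rows `n` by the nodal move of degree `δ`: the cells
`0, …, n c - 1` of the row `c ≤ Q` are cut into blocks of length `δ`, the block number `i < c` goes
to the row `i`, the rest stays in the row `c`. -/

open Polynomial

namespace Pool.Agent.Helper7.NM

open Pool.Agent.Helper41.Fat

/-- The rows after the nodal move of degree `δ`. -/
def nod (δ Q : ℕ) (n : ℕ → ℕ) (i : ℕ) : ℕ :=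
  if i ≤ Q then (n i - δ * i) + ∑ c ∈ Finset.Ioc i Q, min (n c - δ * i) δ else 0

variable {K : Type*} [Field K]

/-- The specialization lemma, with all bad parameters. -/
theorem finite_bad {R : Type*} [CommRing R] [Algebra K R]
    {Q : Type*} [AddCommGroup Q] [Module K Q] (Φ : R →ₗ[K] Q) {ρ : ℕ} (w : Fin ρ → R[X])
    (hw : LinearIndependent K (fun i => Φ ((w i).coeff 0))) :
    {t : K | ¬ LinearIndependent K (fun i => Φ ((w i).eval (algebraMap K R t)))}.Finite := by
  classical
  obtain ⟨φ, hφ⟩ := exists_coord hw
  let A : Matrix (Fin ρ) (Fin ρ) K[X] := Matrix.of fun i j =>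
    ∑ k ∈ (w j).support, monomial k (φ (Φ ((w j).coeff k)) i)
  have hev : ∀ t : K, ∀ i j, (A i j).eval t = φ (Φ ((w j).eval (algebraMap K R t))) i := by
    intro t i j
    have h1 : (w j).eval (algebraMap K R t)
        = ∑ k ∈ (w j).support, (t ^ k) • ((w j).coeff k) := by
      rw [Polynomial.eval_eq_sum, Polynomial.sum_def]
      refine Finset.sum_congr rfl fun k _ => ?_
      rw [← map_pow, mul_comm, Algebra.smul_def]
    rw [h1]
    simp only [A, Matrix.of_apply, eval_finsetSum, eval_monomial, map_sum, map_smul,
      Finset.sum_apply, Pi.smul_apply, smul_eq_mul]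
    exact Finset.sum_congr rfl fun k _ => mul_comm _ _
  have hdet : ∀ t : K, A.det.eval t
      = (Matrix.of fun i j => φ (Φ ((w j).eval (algebraMap K R t))) i).det := by
    intro t
    have := (Polynomial.evalRingHom t).map_det A
    rw [coe_evalRingHom] at this
    rw [this]
    congr 1
    ext i j
    simp [hev]
  have h0 : A.det.eval 0 = 1 := by
    rw [hdet]
    have : (Matrix.of fun i j => φ (Φ ((w j).eval (algebraMap K R 0))) i)
        = (1 : Matrix (Fin ρ) (Fin ρ) K) := by
      ext i j
      rw [Matrix.of_apply, map_zero, ← Polynomial.coeff_zero_eq_eval_zero, hφ, Matrix.one_apply,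
        Pi.single_apply]
    rw [this, Matrix.det_one]
  have hne : A.det ≠ 0 := by
    intro h
    rw [h] at h0
    simp at h0
  refine (A.det.roots.toFinset.finite_toSet).subset ?_
  intro t ht
  rw [Finset.mem_coe, Multiset.mem_toFinset, mem_roots hne, IsRoot.def]
  by_contra h
  apply ht
  apply linearIndependent_of_det _ φ
  rw [← hdet]
  exact h

end Pool.Agent.Helper7.NM
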