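import Pool.Agent.Helper7.NM.Core
import Pool.Agent.Helper7.FatScale

set_option autoImplicit false

/-! NM-2. The substitution `z = 1 / ζ`.

`flip_cond`: `P = ∑_j C a_j * (X - C η)^j` (`j ≤ Q`, `a_j = (taylor η P).coeff j`,
`Polynomial.sum_taylor_eq` or similar), so `reflect Q P = ∑_j C a_j * X^(Q-j) * (1 - C η * X)^j`
(`reflect_mul`, `reflect_C_mul`, …) and
`taylor θ (reflect Q P) = ∑_j C a_j * (X + C θ)^(Q-j) * ((1 - C (θ*η)) - C η * X)^j`.
Here `C a_j ∈ cond r (m - j)`, `(1 - C (θ*η)) - C η * X ∈ cond r 1` (if `m = 0` there is nothing to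
prove; otherwise `X^r ∣ X^(r*m) ∣ 1 - θ*η`), so its `j`-th power is in `cond r j`; use
`Pool.Agent.Helper7.Scale.cond_mul` (products of elements of `cond r m₁` and `cond r m₂` are in
`cond r (m₁ + m₂)`), `cond r 0 = ⊤` and `cond r m' ≤ cond r m` for `m ≤ m'`.

`exists_inv`: `X^N` and `θ` are coprime.

`flip_good`: combine: if `∑ c_i w_i = P` with `Phi η P = 0` then `Phi θ (reflect Q P) = 0` and
`reflect Q P = ∑ c_i reflect Q (w_i)`, so all `c_i = 0`. -/

open Polynomial

namespace Pool.Agent.Helper7.NM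

open Pool.Agent.Helper41.Fat

variable {K : Type*} [Field K]

private theorem cond_zero (r : ℕ) (P : K[X][X]) : P ∈ cond K r 0 := fun j hj => absurd hj (Nat.not_lt_zero j)

private theorem cond_anti {r m m' : ℕ} (h : m ≤ m') {P : K[X][X]} (hP : P ∈ cond K r m') :
    P ∈ cond K r m := by
  intro j hj
  exact (pow_dvd_pow _ (Nat.mul_le_mul_left r (Nat.sub_le_sub_right h j))).trans
    (hP j (lt_of_lt_of_le hj h))

private theorem reflect_sum' {S : Type*} [CommRing S] {ι : Type*} (s : Finset ι) (f : ι → S[X]) (Q : ℕ) :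
    reflect Q (∑ i ∈ s, f i) = ∑ i ∈ s, reflect Q (f i) := by
  ext n
  simp only [coeff_reflect, finsetSum_coeff]

private theorem reflect_lin_pow {S : Type*} [CommRing S] (η : S) (j : ℕ) :
    reflect j ((X - C η) ^ j) = (1 - C η * X) ^ j := by
  induction j with
  | zero => simp
  | succ j ih =>
    have h1 : ((X - C η : S[X]) ^ j).natDegree ≤ j := by
      refine natDegree_pow_le.trans ?_
      have := natDegree_X_sub_C_le η
      calc j * (X - C η : S[X]).natDegree ≤ j * 1 := Nat.mul_le_mul_left _ this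
        _ = j := mul_one _
    rw [pow_succ, reflect_mul _ _ h1 (natDegree_X_sub_C_le η), ih, pow_succ, reflect_sub, reflect_C,
      reflect_one_X, pow_one]

private theorem reflect_term {S : Type*} [CommRing S] (η a : S) {j Q : ℕ} (h : j ≤ Q) :
    reflect Q (C a * (X - C η) ^ j) = C a * (X ^ (Q - j) * (1 - C η * X) ^ j) := by
  have h1 : ((X - C η : S[X]) ^ j).natDegree ≤ j := by
    refine natDegree_pow_le.trans ?_
    have := natDegree_X_sub_C_le η
    calc j * (X - C η : S[X]).natDegree ≤ j * 1 := Nat.mul_le_mul_left _ this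
      _ = j := mul_one _
  obtain ⟨t, rfl⟩ := Nat.exists_eq_add_of_le' h
  rw [reflect_C_mul]
  have h2 : ((X - C η : S[X]) ^ j) = 1 * (X - C η) ^ j := (one_mul _).symm
  have h3 : (1 : S[X]).natDegree ≤ t := by simp
  have h4 : reflect t (1 : S[X]) = X ^ t := by
    rw [← C_1, reflect_C, C_1, one_mul]
  rw [h2, reflect_mul _ _ h3 h1, reflect_lin_pow, h4, Nat.add_sub_cancel]

theorem flip_cond {r m Q : ℕ} {θ η : K[X]} (h : X ^ (r * m) ∣ 1 - θ * η) {P : K[X][X]}
    (hP : P.natDegree ≤ Q) (hc : taylor η P ∈ cond K r m) :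
    taylor θ (P.reflect Q) ∈ cond K r m := by
  rcases Nat.eq_zero_or_pos m with rfl | hm
  · exact cond_zero r _
  have hsum : P = ∑ j ∈ Finset.range (Q + 1), C ((taylor η P).coeff j) * (X - C η) ^ j := by
    conv_lhs => rw [← sum_taylor_eq P η]
    rw [sum_over_range' _ _ (Q + 1) (by rw [natDegree_taylor]; omega)]
    intro n
    simp
  have hlin : (1 - C (θ * η)) - C η * X ∈ cond K r 1 := by
    intro j hj
    have hj0 : j = 0 := by omega
    subst hj0
    have h0 : ((1 - C (θ * η)) - C η * X : K[X][X]).coeff 0 = 1 - θ * η := by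
      simp [coeff_one]
    rw [h0]
    refine dvd_trans (pow_dvd_pow _ ?_) h
    have : r * (1 - 0) ≤ r * m := Nat.mul_le_mul_left _ (by omega)
    exact this
  rw [hsum, reflect_sum', map_sum]
  refine Submodule.sum_mem _ fun j hj => ?_
  rw [Finset.mem_range] at hj
  rw [reflect_term η _ (by omega : j ≤ Q)]
  have ht : taylor θ (C ((taylor η P).coeff j) * (X ^ (Q - j) * (1 - C η * X) ^ j))
      = (C ((taylor η P).coeff j) * ((1 - C (θ * η)) - C η * X) ^ j) * (X + C θ) ^ (Q - j) := by
    simp only [taylor_mul, taylor_pow, taylor_C, taylor_X, map_sub, taylor_one, C_mul, C_1]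
    ring
  rw [ht]
  have hp : ((1 - C (θ * η)) - C η * X) ^ j ∈ cond K r j := by
    have := Scale.cond_pow hlin j
    rwa [mul_one] at this
  have ha : C ((taylor η P).coeff j) ∈ cond K r (m - j) := by
    intro i hi
    by_cases hi0 : i = 0
    · subst hi0
      rw [coeff_C_zero, Nat.sub_zero]
      exact hc j (by omega)
    · rw [coeff_C_of_ne_zero hi0]
      exact dvd_zero _
  have h1 := Scale.cond_mul (Scale.cond_mul ha hp) (cond_zero r ((X + C θ) ^ (Q - j)))
  exact cond_anti (by omega) h1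

theorem exists_inv (N : ℕ) (θ : K[X]) (hθ : θ.coeff 0 ≠ 0) : ∃ η : K[X], X ^ N ∣ 1 - θ * η := by
  have hX : IsCoprime (X : K[X]) θ := by
    refine (Polynomial.irreducible_X.coprime_iff_not_dvd).2 ?_
    rw [X_dvd_iff]
    exact hθ
  obtain ⟨a, b, hab⟩ := (hX.pow_left (m := N))
  refine ⟨b, a, ?_⟩
  rw [← hab]
  ring

/-- Rows are transported by the substitution `z = 1 / ζ`. -/
theorem flip_good {r m Q R : ℕ} {n : ℕ → ℕ} (θ : K[X]) (hθ : θ.coeff 0 ≠ 0) (w : Fin R → K[X][X])
    (hw : ∀ i, w i ∈ rows K (fun k => if k ≤ Q then n (Q - k) else 0))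
    (hl : LinearIndependent K (fun i => Phi K r m θ (w i))) : Good K r m n R := by
  obtain ⟨η, hη⟩ := exists_inv (r * m) θ hθ
  have hdeg : ∀ i, (w i).natDegree ≤ Q := by
    intro i
    rw [natDegree_le_iff_coeff_eq_zero]
    intro N hN
    have h1 : (w i).coeff N ∈ degreeLT K (if N ≤ Q then n (Q - N) else 0) := hw i N
    rw [if_neg (by omega), mem_degreeLT] at h1
    by_contra hne
    have h2 := zero_le_degree_iff.2 hne
    exact absurd (lt_of_lt_of_le h1 (by exact_mod_cast h2)) (lt_irrefl _)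
  refine ⟨η, fun i => reflect Q (w i), ?_, ?_⟩
  · intro i j
    rw [coeff_reflect]
    by_cases hj : j ≤ Q
    · rw [revAt_le hj]
      have h1 : (w i).coeff (Q - j) ∈ degreeLT K (if Q - j ≤ Q then n (Q - (Q - j)) else 0) :=
        hw i (Q - j)
      rwa [if_pos (Nat.sub_le _ _), Nat.sub_sub_self hj] at h1
    · rw [coeff_eq_zero_of_natDegree_lt]
      · exact Submodule.zero_mem _
      · rw [revAt_eq_self_of_lt (by omega)]
        have := hdeg i
        omega
  · rw [Fintype.linearIndependent_iff] at hl ⊢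
    intro c hc
    apply hl c
    have h1 : ∀ η₀ : K[X], ∀ y : Fin R → K[X][X],
        ∑ i, c i • Phi K r m η₀ (y i) = Phi K r m η₀ (∑ i, c i • y i) := by
      intro η₀ y
      simp only [map_sum, map_smul]
    have h2 : ∑ i, c i • w i = reflect Q (∑ i, c i • reflect Q (w i)) := by
      ext n : 1
      simp only [coeff_reflect, finsetSum_coeff, coeff_smul, revAt_invol]
    rw [h1] at hc ⊢
    rw [h2, Phi_eq_zero_iff]
    refine flip_cond hη ?_ (Phi_eq_zero_iff.1 hc)
    rw [natDegree_le_iff_coeff_eq_zero]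
    intro N hN
    rw [finsetSum_coeff]
    refine Finset.sum_eq_zero fun i _ => ?_
    rw [coeff_smul, coeff_reflect, revAt_eq_self_of_lt hN,
      coeff_eq_zero_of_natDegree_lt (lt_of_le_of_lt (hdeg i) hN), smul_zero]

end Pool.Agent.Helper7.NM
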