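import Pool.Agent.Helper42.StartExists

set_option autoImplicit false

/-! NM-5. The choice of the start `b / a`, in a general position.

A generalization of `Helper42.StartNum.good_prime`, `core`, `exists_start` (copy these proofs with the
following changes).

`good_prime_gen`: `s` is any real number with `√r / 2 ≤ s ≤ √r` instead of `√r`. In the proof the
product is over `⌊k * s⌋₊ + i - C`; only `C + 1 ≤ s` (from `2 * (C + 1) ≤ √r`, enlarge `X`) and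
`s ≤ √r ≤ 8 A^3` are used.

`core_gen`: `s` = location, `T` = target (it was `s^2`). The sequence is
`y t = (T - (b0/a)^2)/2 - (γ t + k^2 t^2/(2 a^2))`; all auxiliary lemmas `aux_base`, `aux_step`,
`aux_tot` concern the location only. Instead of `aux_range`, `aux_fin`: the integer `z - t * R`
satisfies `2 * (z - t * R) ≥ T - X^2 - δ^2/128 > -1` because `X ≤ s - δ`, `X^2 ≤ (s - δ)^2 ≤ T`, so it
is `≥ 0`.

`exists_start_gen`: as `exists_start`; `a ≤ s - 1` follows from `a^5 ≤ r` and `√r / 2 ≤ s` for `a`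
large (`a ≥ L`, e.g. `4 * (a + 1)^2 ≤ a^5`). -/

namespace Pool.Agent.Helper7.NM

open Pool.Agent.Helper42.StartNum

open Finset

theorem good_prime_gen (K C L : ℕ) (hK : 1 ≤ K) : ∃ r0 : ℕ, ∀ r : ℕ, r0 ≤ r → ∀ s : ℝ,
    √(r : ℝ) / 2 ≤ s → s ≤ √(r : ℝ) → ∃ a : ℕ, L ≤ a ∧ a ^ 5 ≤ r ∧
    ∀ k : ℕ, 1 ≤ k → k ≤ K → ∀ j : ℤ, (C : ℝ) ≤ |k * s - j * a| := by
  classical
  obtain ⟨N0, hN0⟩ : ∃ N0, N0 = K * (2*C+1) := ⟨_, rfl⟩
  obtain ⟨M, hM⟩ : ∃ M, M = 4 * N0 + 1 := ⟨_, rfl⟩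
  obtain ⟨X, hX⟩ : ∃ X, X = 8 * K + 2 * C + 2^(5*M) + L + 2 := ⟨_, rfl⟩
  refine ⟨X^6, ?_⟩
  intro r hr s hs1 hs2
  obtain ⟨A, hA⟩ : ∃ A, A = Nat.findGreatest (fun A => A^6 ≤ r) r := ⟨_, rfl⟩
  have hXr : X ≤ r := (Nat.le_self_pow (by norm_num) X).trans hr
  have hXA : X ≤ A := by
    rw [hA]; exact Nat.le_findGreatest hXr hr
  have hA6 : A^6 ≤ r := by
    rw [hA]
    exact Nat.findGreatest_spec (P := fun A => A^6 ≤ r) hXr hr
  have hA7 : r < (A+1)^6 := by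
    by_contra hcon
    push Not at hcon
    have h1 : A + 1 ≤ r := (Nat.le_self_pow (by norm_num) (A+1)).trans hcon
    have h2 : A + 1 ≤ Nat.findGreatest (fun A => A^6 ≤ r) r := Nat.le_findGreatest h1 hcon
    omega
  have hXA1 : 8 * K + 2 * C + L + 2 ≤ A := by
    have : 0 < 2^(5*M) := by positivity
    omega
  have hA2 : 2^(5*M) ≤ A := by
    refine le_trans ?_ hXA
    rw [hX]
    have : 2^(5*M) ≤ 8 * K + 2 * C + 2^(5*M) := Nat.le_add_left _ _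
    omega
  have hApos : 0 < A := by omega
  have hA1 : 8 * K + C ≤ A := by omega
  have hprime : ∀ i : ℕ, ∃ p, Nat.Prime p ∧ 2^i * A < p ∧ p ≤ 2 * (2^i * A) := by
    intro i
    apply Nat.exists_prime_lt_and_le_two_mul
    positivity
  choose p hp hp1 hp2 using hprime
  have hmono : StrictMono p := by
    apply strictMono_nat_of_lt_succ
    intro i
    have h1 := hp2 i
    have h2 := hp1 (i+1)
    rw [pow_succ] at h2
    calc p i ≤ 2 * (2^i * A) := h1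
      _ = 2^i * 2 * A := by ring
      _ < p (i+1) := h2
  obtain ⟨P, hPdef⟩ : ∃ P : ℕ, P = ∏ k ∈ Icc 1 K, ∏ i ∈ range (2*C+1),
    (⌊(k:ℝ) * s⌋₊ + i - C) := ⟨_, rfl⟩
  have hr0' : (0:ℝ) ≤ √(r:ℝ) := Real.sqrt_nonneg _
  have hs0 : (0:ℝ) ≤ s := by linarith
  have hsC : ((C:ℝ) + 1) ≤ s := by
    have h0 : 2 * ((C:ℝ) + 1) ≤ √(r:ℝ) := by
      apply Real.le_sqrt_of_sq_le
      have h1 : (2 * (C+1))^2 ≤ r := by
        calc (2 * (C+1))^2 ≤ A^2 := Nat.pow_le_pow_left (by omega) 2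
          _ ≤ A^6 := Nat.pow_le_pow_right hApos (by norm_num)
          _ ≤ r := hA6
      exact_mod_cast h1
    linarith
  have hsA : s ≤ 8 * (A:ℝ)^3 := by
    refine hs2.trans ?_
    rw [Real.sqrt_le_left (by positivity)]
    have h1 : r ≤ (8 * A^3)^2 := by
      calc r ≤ (A+1)^6 := hA7.le
        _ ≤ (2*A)^6 := Nat.pow_le_pow_left (by omega) 6
        _ = (8 * A^3)^2 := by ring
    exact_mod_cast h1
  have hks : ∀ k : ℕ, 1 ≤ k → (C:ℝ) + 1 ≤ k * s := by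
    intro k hk
    have : (1:ℝ) ≤ k := by exact_mod_cast hk
    calc (C:ℝ) + 1 ≤ 1 * s := by rw [one_mul]; exact hsC
      _ ≤ k * s := mul_le_mul_of_nonneg_right this hs0
  have hPpos : 0 < P := by
    rw [hPdef]
    apply Finset.prod_pos
    intro k hk
    apply Finset.prod_pos
    intro i _
    have h1 : C + 1 ≤ ⌊(k:ℝ) * s⌋₊ := by
      apply Nat.le_floor
      push_cast
      exact hks k (Finset.mem_Icc.mp hk).1
    omega
  have hPle : P ≤ (A^4)^N0 := by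
    rw [hPdef]
    calc ∏ k ∈ Icc 1 K, ∏ i ∈ range (2*C+1), (⌊(k:ℝ) * s⌋₊ + i - C)
        ≤ ∏ k ∈ Icc 1 K, ∏ i ∈ range (2*C+1), A^4 := by
          apply Finset.prod_le_prod' 
          intro k hk
          apply Finset.prod_le_prod'
          intro i hi
          have h1 : ⌊(k:ℝ) * s⌋₊ ≤ 8 * K * A^3 := by
            apply Nat.floor_le_of_le
            push_cast
            have : (k:ℝ) ≤ K := by exact_mod_cast (Finset.mem_Icc.mp hk).2
            calc (k:ℝ) * s ≤ K * (8 * (A:ℝ)^3) :=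
                  mul_le_mul this hsA hs0 (by positivity)
              _ = 8 * K * (A:ℝ)^3 := by ring
          have h2 : i ≤ 2 * C := by have := Finset.mem_range.mp hi; omega
          have h3 : 1 ≤ A^3 := Nat.one_le_pow _ _ hApos
          calc ⌊(k:ℝ) * s⌋₊ + i - C ≤ 8 * K * A^3 + C := by omega
            _ ≤ 8 * K * A^3 + C * A^3 := by
                have := Nat.le_mul_of_pos_right C h3
                omega
            _ = (8 * K + C) * A^3 := by ring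
            _ ≤ A * A^3 := Nat.mul_le_mul_right _ hA1
            _ = A^4 := by ring
      _ = (A^4)^N0 := by
          rw [Finset.prod_const, Finset.prod_const, Nat.card_Icc, Finset.card_range, ← pow_mul,
            hN0]
          congr 1
          rw [show K + 1 - 1 = K by omega]; ring
  have hex : ∃ i ∈ range M, ¬ p i ∣ P := by
    by_contra hcon
    push Not at hcon
    have h1 : ∏ q ∈ (range M).image p, q ∣ P := by
      apply Finset.prod_primes_dvd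
      · intro q hq
        obtain ⟨i, _, rfl⟩ := Finset.mem_image.mp hq
        exact (hp i).prime
      · intro q hq
        obtain ⟨i, hi, rfl⟩ := Finset.mem_image.mp hq
        exact hcon i hi
    rw [Finset.prod_image (fun x _ y _ h => hmono.injective h)] at h1
    have h2 : A^M ≤ ∏ i ∈ range M, p i := by
      calc A^M = ∏ i ∈ range M, A := by rw [Finset.prod_const, Finset.card_range]
        _ ≤ ∏ i ∈ range M, p i := by
            apply Finset.prod_le_prod'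
            intro i _
            have h3 := hp1 i
            have h4 : A ≤ 2^i * A := Nat.le_mul_of_pos_left A (by positivity)
            omega
    have h3 := Nat.le_of_dvd hPpos h1
    have h4 : A^M ≤ A^(4*N0) := by
      rw [pow_mul]; exact h2.trans (h3.trans hPle)
    have hA2' : 1 < A := by omega
    have h5 := (Nat.pow_le_pow_iff_right hA2').mp h4
    omega
  obtain ⟨i, hi, hndvd⟩ := hex
  have hi' : i < M := Finset.mem_range.mp hi
  refine ⟨p i, ?_, ?_, ?_⟩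
  · have h3 := hp1 i
    have h4 : A ≤ 2^i * A := Nat.le_mul_of_pos_left A (by positivity)
    omega
  · have h1 : p i ≤ 2^M * A := by
      calc p i ≤ 2 * (2^i * A) := hp2 i
        _ = 2^(i+1) * A := by ring
        _ ≤ 2^M * A := by
            apply Nat.mul_le_mul_right
            exact Nat.pow_le_pow_right (by norm_num) (by omega)
    calc (p i)^5 ≤ (2^M * A)^5 := Nat.pow_le_pow_left h1 5
      _ = 2^(5*M) * A^5 := by rw [mul_pow, ← pow_mul, Nat.mul_comm M 5]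
      _ ≤ A * A^5 := Nat.mul_le_mul_right _ hA2
      _ = A^6 := by ring
      _ ≤ r := hA6
  · intro k hk1 hkK j
    by_contra hcon
    push Not at hcon
    rw [abs_lt] at hcon
    obtain ⟨hc1, hc2⟩ := hcon
    have h1 := hks k hk1
    have hjpos : (0:ℝ) < j * p i := by linarith
    have hppos : (0:ℝ) < p i := by exact_mod_cast (hp i).pos
    have hj0 : (0:ℝ) < j := by
      by_contra h
      push Not at h
      have := mul_nonpos_of_nonpos_of_nonneg h hppos.le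
      linarith
    have hj1 : 0 < j := by exact_mod_cast hj0
    obtain ⟨n, rfl⟩ := Int.eq_ofNat_of_zero_le hj1.le
    apply hndvd
    obtain ⟨f, hf⟩ : ∃ f : ℕ, f = ⌊(k:ℝ) * s⌋₊ := ⟨_, rfl⟩
    have hf1 : (f:ℝ) ≤ k * s := by
      rw [hf]; exact Nat.floor_le (by positivity)
    have hf2 : k * s < (f:ℝ) + 1 := by
      rw [hf]; exact Nat.lt_floor_add_one _
    rw [Int.cast_natCast] at hc1 hc2
    have g1 : f < n * p i + C := by
      have : (f:ℝ) < n * p i + C := by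
        linarith
      exact_mod_cast this
    have g2 : n * p i < f + 1 + C := by
      have : (n:ℝ) * p i < f + 1 + C := by
        linarith
      exact_mod_cast this
    have g3 : f + (n * p i + C - f) - C = n * p i := by omega
    have d1 : p i ∣ (f + (n * p i + C - f) - C) := by
      rw [g3]; exact Dvd.intro_left n rfl
    refine d1.trans ?_
    rw [hPdef, hf]
    refine Dvd.dvd.trans (b := ∏ i ∈ range (2*C+1), (⌊(k:ℝ) * s⌋₊ + i - C))
      (Finset.dvd_prod_of_mem (s := range (2*C+1))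
      (fun i => ⌊(k:ℝ) * s⌋₊ + i - C) (a := n * p i + C - ⌊(k:ℝ) * s⌋₊) ?_) ?_
    · rw [Finset.mem_range]; omega
    · exact Finset.dvd_prod_of_mem
        (fun k : ℕ => ∏ i ∈ range (2*C+1), (⌊(k:ℝ) * s⌋₊ + i - C))
        (Finset.mem_Icc.mpr ⟨hk1, hkK⟩)

theorem core_gen (δ s T : ℝ) (K C a : ℕ) (hδ0 : 0 < δ) (hδ1 : δ ≤ 1 / 8) (hK : 1024 / δ ^ 2 ≤ K)
    (hC : 8 * K / δ + 2 * K + 2 ≤ C) (ha : 512 * K / δ ^ 2 ≤ a) (has : (a : ℝ) ≤ s - 1)
    (hP : ∀ k : ℕ, 1 ≤ k → k ≤ K → ∀ j : ℤ, (C : ℝ) ≤ |k * s - j * a|) (hT : (s - δ) ^ 2 ≤ T) :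
    ∃ b e : ℕ, a ^ 2 ≤ b ∧ s - 3 * δ / 2 ≤ (b : ℝ) / a ∧ (b : ℝ) / a ≤ s - δ ∧
      δ ^ 2 / 512 ≤ T - ((b : ℝ) / a) ^ 2 - 2 * e ∧
      T - ((b : ℝ) / a) ^ 2 - 2 * e ≤ δ ^ 2 / 128 := by
  have hδ2 : 0 < δ^2 := by positivity
  have hK' : 1024 ≤ K * δ^2 := by
    rw [div_le_iff₀ hδ2] at hK; exact hK
  have hK1 : (65536:ℝ) ≤ K := auxK δ K hδ0 hδ1 hK'
  have hKpos : (0:ℝ) < K := by linarith
  have hKn : 0 < K := by exact_mod_cast hKpos
  have ha' : 512 * K ≤ a * δ^2 := by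
    rw [div_le_iff₀ hδ2] at ha; exact ha
  obtain ⟨hapos, haδ, ha512⟩ := auxa δ K a hδ0 hδ1 hKpos ha'
  have hspos : 0 < s := by linarith
  -- base point
  obtain ⟨b0, hb0⟩ : ∃ b0 : ℕ, b0 = ⌈(a:ℝ) * (s - 3*δ/2)⌉₊ := ⟨_, rfl⟩
  have hb1 : (a:ℝ) * (s - 3*δ/2) ≤ b0 := by rw [hb0]; exact Nat.le_ceil _
  have hb2 : (b0:ℝ) < (a:ℝ) * (s - 3*δ/2) + 1 := by
    rw [hb0]
    apply Nat.ceil_lt_add_one
    apply mul_nonneg hapos.le
    linarith
  obtain ⟨k, hk0, hkK, hk⟩ := Real.exists_nat_abs_mul_sub_round_le ((b0:ℝ)/a^2) hKn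
  have hk1 : (1:ℝ) ≤ k := by exact_mod_cast hk0
  have hkK' : (k:ℝ) ≤ K := by exact_mod_cast hkK
  obtain ⟨R, hR⟩ : ∃ R : ℤ, R = round ((k:ℝ) * ((b0:ℝ)/a^2)) := ⟨_, rfl⟩
  rw [← hR] at hk
  obtain ⟨γ, hγ⟩ : ∃ γ : ℝ, γ = (k:ℝ) * ((b0:ℝ)/a^2) - R := ⟨_, rfl⟩
  rw [← hγ] at hk
  have hγ1 : |γ| * K ≤ 1 := by
    have h1 : |γ| * (K + 1) ≤ 1 := by
      rw [le_div_iff₀ (by positivity)] at hk
      exact hk
    linarith [abs_nonneg γ]
  -- lower bound on a*|γ|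
  have hγ2 : 8 * K ≤ a * |γ| * δ := by
    have h1 := hP k (by omega) hkK R
    have h2 : (k:ℝ) * s - R * a = a * γ + k * (s - b0/a) := by
      rw [hγ]; field_simp; ring
    have h3 : |s - b0/a| ≤ 3*δ/2 := aux_base δ s a b0 hδ0 hapos (by linarith) hb1 hb2
    have h5 : |(k:ℝ) * s - R * a| ≤ a * |γ| + k * (3*δ/2) := by
      rw [h2]
      calc |a * γ + k * (s - b0/a)| ≤ |a * γ| + |k * (s - b0/a)| := abs_add_le _ _
        _ = a * |γ| + k * |s - b0/a| := by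
            rw [abs_mul, abs_mul, Nat.abs_cast, Nat.abs_cast]
        _ ≤ a * |γ| + k * (3*δ/2) := by
            gcongr
    have h6 : (k:ℝ) * (3*δ/2) ≤ K * 1 :=
      mul_le_mul hkK' (by linarith) (by linarith) hKpos.le
    have h7 : 8 * K / δ ≤ a * |γ| := by linarith
    rw [div_le_iff₀ hδ0] at h7
    exact h7
  -- number of steps
  obtain ⟨N, hN⟩ : ∃ N : ℕ, N = ⌊(δ * a/2 - 1)/k⌋₊ := ⟨_, rfl⟩
  have hkp : (0:ℝ) < k := by linarith
  have hN0 : 0 ≤ (δ * a/2 - 1)/k := by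
    apply div_nonneg _ hkp.le
    linarith
  have hN1 : (N:ℝ) ≤ (δ * a/2 - 1)/k := by rw [hN]; exact Nat.floor_le hN0
  have hN2 : (δ * a/2 - 1)/k < N + 1 := by rw [hN]; exact Nat.lt_floor_add_one _
  have hkN : (k:ℝ) * N ≤ δ * a/2 - 1 := by
    rw [le_div_iff₀ hkp] at hN1; linarith
  have hkN2 : δ * a/2 - 1 < k * N + k := by
    rw [div_lt_iff₀ hkp] at hN2; linarith
  -- the sequence
  obtain ⟨t, htN, z, hz1, hz2⟩ := circ_ivt
    (fun t : ℕ => (T - ((b0:ℝ)/a)^2)/2 - (γ * t + k^2 * t^2/(2*a^2))) (3*δ^2/1024) (δ^2/1024) N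
    (by positivity)
    (by
      intro t ht
      have htN : ((t:ℝ) + 1) ≤ N := by exact_mod_cast ht
      have e1 : (T - ((b0:ℝ)/a)^2)/2 - (γ * ((t+1:ℕ):ℝ) + k^2 * ((t+1:ℕ):ℝ)^2/(2*a^2)) -
          ((T - ((b0:ℝ)/a)^2)/2 - (γ * (t:ℝ) + k^2 * (t:ℝ)^2/(2*a^2)))
          = -(γ + k^2 * (2*t+1)/(2*a^2)) := by
        push_cast; field_simp; ring
      rw [e1, abs_neg]
      exact aux_step δ K k a t γ N hδ0 hδ1 hKpos hK' ha' hk1 hkK' (Nat.cast_nonneg _) htN hkN hγ1)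
    (by
      have e1 : (T - ((b0:ℝ)/a)^2)/2 - (γ * (N:ℝ) + k^2 * (N:ℝ)^2/(2*a^2)) -
          ((T - ((b0:ℝ)/a)^2)/2 - (γ * ((0:ℕ):ℝ) + k^2 * ((0:ℕ):ℝ)^2/(2*a^2)))
          = -(γ * N + k^2 * N^2/(2*a^2)) := by
        push_cast; ring
      rw [e1, abs_neg]
      exact aux_tot δ K k a γ N hδ0 hδ1 (by linarith) ha' hk1 hkK' (Nat.cast_nonneg _) hkN hkN2 hγ2)
  -- conclusion
  have htN' : (t:ℝ) ≤ N := by exact_mod_cast htN
  have hkt : (k:ℝ) * t ≤ δ * a/2 - 1 := (mul_le_mul_of_nonneg_left htN' hkp.le).trans hkN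
  have hkt0 : (0:ℝ) ≤ k * t := by positivity
  have hx : (((b0 + k * t : ℕ):ℝ)/a)^2 = (b0/a)^2 + 2 * (t * (γ + R)) + k^2*t^2/a^2 := by
    rw [hγ]; push_cast; field_simp; ring
  have hxlo : s - 3*δ/2 ≤ ((b0 + k * t : ℕ):ℝ)/a := by
    rw [le_div_iff₀ hapos]; push_cast
    linarith
  have hxhi : ((b0 + k * t : ℕ):ℝ)/a ≤ s - δ := by
    rw [div_le_iff₀ hapos]; push_cast
    linarith
  obtain ⟨X, hX⟩ : ∃ X : ℝ, X = ((b0 + k * t : ℕ):ℝ)/a := ⟨_, rfl⟩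
  rw [← hX] at hx hxlo hxhi
  have hkey : T - X^2 - 2 * ((z - t * R : ℤ):ℝ) =
      2 * ((T - ((b0:ℝ)/a)^2)/2 - (γ * t + k^2 * t^2/(2*a^2)) - z) := by
    rw [hx]; push_cast; field_simp; ring
  have hD1 : δ^2/512 ≤ T - X^2 - 2 * ((z - t * R : ℤ):ℝ) := by rw [hkey]; linarith
  have hD2 : T - X^2 - 2 * ((z - t * R : ℤ):ℝ) ≤ δ^2/128 := by rw [hkey]; linarith
  have hX0 : 0 ≤ X := by
    have h1 := auxa δ K a hδ0 hδ1 hKpos ha'
    linarith
  have hXT : X^2 ≤ T := (pow_le_pow_left₀ hX0 hxhi 2).trans hT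
  have hδ3 := aux1 δ hδ0 hδ1
  have hf3 : (-1:ℝ) < ((z - t * R : ℤ):ℝ) := by linarith
  have hznn : 0 ≤ z - t * R := by
    have h1 : (-1 : ℤ) < z - t * R := by exact_mod_cast hf3
    omega
  obtain ⟨e, he⟩ := Int.eq_ofNat_of_zero_le hznn
  have heR : ((z - t * R : ℤ):ℝ) = (e:ℝ) := by rw [he]; norm_cast
  rw [heR] at hD1 hD2
  refine ⟨b0 + k * t, e, ?_, ?_, ?_, ?_, ?_⟩
  · have h1 : (a:ℝ)^2 ≤ b0 := by
      refine le_trans ?_ hb1
      rw [pow_two]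
      apply mul_le_mul_of_nonneg_left _ hapos.le
      linarith
    have h2 : a^2 ≤ b0 := by exact_mod_cast h1
    exact h2.trans (Nat.le_add_right _ _)
  · rw [← hX]; linarith
  · rw [← hX]; linarith
  · rw [← hX]; linarith
  · rw [← hX]; linarith

theorem exists_start_gen (δ : ℝ) (hδ0 : 0 < δ) (hδ1 : δ ≤ 1 / 8) :
    ∃ r0 : ℕ, ∀ r : ℕ, r0 ≤ r → ∀ s T : ℝ, √(r : ℝ) / 2 ≤ s → s ≤ √(r : ℝ) → (s - δ) ^ 2 ≤ T →
      ∃ a b e : ℕ, 0 < a ∧ a ^ 5 ≤ r ∧ a ^ 2 ≤ b ∧ s - 3 * δ / 2 ≤ (b : ℝ) / a ∧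
        (b : ℝ) / a ≤ s - δ ∧ δ ^ 2 / 512 ≤ T - ((b : ℝ) / a) ^ 2 - 2 * e ∧
        T - ((b : ℝ) / a) ^ 2 - 2 * e ≤ δ ^ 2 / 128 := by
  obtain ⟨K, hK⟩ : ∃ K : ℕ, K = ⌈1024 / δ^2⌉₊ + 1 := ⟨_, rfl⟩
  obtain ⟨C, hC⟩ : ∃ C : ℕ, C = ⌈8 * K / δ + 2 * K + 2⌉₊ := ⟨_, rfl⟩
  obtain ⟨L, hL⟩ : ∃ L : ℕ, L = ⌈512 * K / δ^2⌉₊ + 3 := ⟨_, rfl⟩
  have hK1 : 1024 / δ^2 ≤ K := by
    rw [hK]; push_cast
    linarith [Nat.le_ceil (1024 / δ^2)]
  have hC1 : 8 * K / δ + 2 * K + 2 ≤ C := by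
    rw [hC]; exact Nat.le_ceil _
  have hL1 : 512 * K / δ^2 ≤ L := by
    rw [hL]; push_cast
    linarith [Nat.le_ceil (512 * K / δ^2)]
  obtain ⟨r0, hr0⟩ := good_prime_gen K C L (by omega)
  refine ⟨r0, ?_⟩
  intro r hr s T hs1 hs2 hT
  obtain ⟨a, haL, ha5, hP⟩ := hr0 r hr s hs1 hs2
  have ha2 : 3 ≤ a := by omega
  have haR : (L:ℝ) ≤ a := by exact_mod_cast haL
  have has : (a:ℝ) ≤ s - 1 := by
    have h1 : 2 * ((a:ℝ) + 1) ≤ √(r:ℝ) := by
      apply Real.le_sqrt_of_sq_le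
      have h2 : (2 * (a+1))^2 ≤ r := by
        calc (2 * (a+1))^2 ≤ (2 * (2*a))^2 := Nat.pow_le_pow_left (by omega) 2
          _ = 16 * a^2 := by ring
          _ ≤ a^3 * a^2 := by
              apply Nat.mul_le_mul_right
              have := Nat.pow_le_pow_left ha2 3
              omega
          _ = a^5 := by ring
          _ ≤ r := ha5
      exact_mod_cast h2
    linarith
  obtain ⟨b, e, h1, h2, h3, h4, h5⟩ :=
    core_gen δ s T K C a hδ0 hδ1 hK1 hC1 (by linarith) has hP hT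
  exact ⟨a, b, e, by omega, ha5, h1, h2, h3, h4, h5⟩

end Pool.Agent.Helper7.NM
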