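import Pool.Agent.Helper7.NM.Large
import Pool.Agent.Helper7.NM.StartGen
import Pool.Agent.Helper42.EpsWindow

set_option autoImplicit false

/-! Large multiplicities: `m ≥ 256 √r / δ`. -/

namespace Pool.Agent.Helper7.NM

open Pool.Agent.Helper41.Fat Pool.Agent.Helper42.Game Pool.Agent.Helper42.Eps

variable {K : Type*} [Field K]

/-- Bounds on `a`. -/
theorem a_bounds {r a : ℕ} {δ : ℝ} (hδ0 : 0 < δ) (hδ1 : δ ≤ 1 / 16)
    (hS : 1024 / δ ^ 5 ≤ √(r : ℝ)) (ha : 0 < a) (ha5 : a ^ 5 ≤ r) :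
    4 * (a : ℝ) ^ 2 ≤ δ * √(r : ℝ) ∧ (a : ℝ) ≤ √(r : ℝ) / 64 := by
  have hr0 : (0 : ℝ) ≤ r := Nat.cast_nonneg r
  obtain ⟨S, hSd⟩ : ∃ S : ℝ, S = √(r : ℝ) := ⟨_, rfl⟩
  have hS2 : S ^ 2 = r := by rw [hSd]; exact Real.sq_sqrt hr0
  rw [← hSd] at hS ⊢
  have hS1 : 1024 ≤ S := by
    refine le_trans ?_ hS
    rw [le_div_iff₀ (by positivity)]
    have : δ ^ 5 ≤ 1 := pow_le_one₀ hδ0.le (by linarith)
    linarith
  have hS0 : 0 < S := by linarith
  have hδS : 1024 ≤ S * δ ^ 5 := by rwa [div_le_iff₀ (by positivity)] at hS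
  have ha1 : (1 : ℝ) ≤ a := by exact_mod_cast ha
  have haR : (a : ℝ) ^ 5 ≤ S ^ 2 := by rw [hS2]; exact_mod_cast ha5
  have ha4 : 4 * (a : ℝ) ^ 2 ≤ δ * S := by
    have h3 : (4 * (a : ℝ) ^ 2) ^ 5 ≤ (δ * S) ^ 5 := by
      calc (4 * (a : ℝ) ^ 2) ^ 5 = 1024 * ((a : ℝ) ^ 5) ^ 2 := by ring
        _ ≤ 1024 * (S ^ 2) ^ 2 := by
            apply mul_le_mul_of_nonneg_left _ (by norm_num)
            exact pow_le_pow_left₀ (by positivity) haR 2
        _ ≤ (S * δ ^ 5) * (S ^ 2) ^ 2 := mul_le_mul_of_nonneg_right hδS (by positivity)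
        _ = (δ * S) ^ 5 := by ring
    exact le_of_pow_le_pow_left₀ (by norm_num) (by positivity) h3
  refine ⟨ha4, ?_⟩
  have h8 : (a : ℝ) ≤ a ^ 2 := by
    rw [pow_two]; exact le_mul_of_one_le_left (by positivity) ha1
  have h9 : δ * S ≤ 1 / 16 * S := mul_le_mul_of_nonneg_right hδ1 hS0.le
  linarith

theorem large_empty [Infinite K] {r m d a b g : ℕ} {ε δ τ x : ℝ} (hδ0 : 0 < δ)
    (hεδ : 16 * δ ≤ ε) (hε1 : ε ≤ 1)
    (hτ0 : 0 ≤ τ) (hτ1 : τ ≤ 1) (hS : 1024 ≤ √(r : ℝ)) (hm : 1024 ≤ m)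
    (ha : 0 < a) (hab : 3 * a ^ 2 ≤ b) (hx0S : (b : ℝ) / a ≤ √(r : ℝ))
    (hlow : √(r : ℝ) - 9 * δ / 8 ≤ (b : ℝ) / a)
    (ha2 : 4 * (a : ℝ) ^ 2 ≤ δ * √(r : ℝ)) (haS : (a : ℝ) ≤ √(r : ℝ) / 64)
    (hg1 : 2 * ((b : ℝ) / a) ^ 2 ≤ g * m) (hg2 : (g : ℝ) ≤ δ * ((b : ℝ) / a) / 16)
    (hch : Chain ((b : ℝ) / a + g / ((b : ℝ) / a)) x) (hxS : x ≤ √(r : ℝ))
    (hxl : √(r : ℝ) - τ / 2 ≤ x)
    (h : (d : ℝ) + 3 / 2 ≤ √(r : ℝ) * (m + 1 / 2) - ε - m * τ) :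
    Good K r m (fun b => d + 1 - b) ((d + 2).choose 2) := by
  obtain ⟨S, hSd⟩ : ∃ S : ℝ, S = √(r : ℝ) := ⟨_, rfl⟩
  have hS2 : S ^ 2 = r := by rw [hSd]; exact Real.sq_sqrt (Nat.cast_nonneg r)
  rw [← hSd] at hS hx0S hlow ha2 haS hxS hxl h
  have hS0 : 0 < S := by linarith
  have hmR : (1024 : ℝ) ≤ m := by exact_mod_cast hm
  have hmpos : (0 : ℝ) < m := by linarith
  have ha0 : (0 : ℝ) < a := by exact_mod_cast ha
  have hb0 : 0 < b := lt_of_lt_of_le (by positivity) hab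
  have hb0' : (0 : ℝ) < b := by exact_mod_cast hb0
  obtain ⟨x0, hx0d⟩ : ∃ x0 : ℝ, x0 = (b : ℝ) / a := ⟨_, rfl⟩
  have hx0 : 0 < x0 := by rw [hx0d]; positivity
  have hx : 0 < x := by linarith
  obtain ⟨T, hT⟩ : ∃ T : ℝ, T = S * ((m : ℝ) + 1 / 2) - ε - m * τ - 3 / 2 := ⟨_, rfl⟩
  have hdT : (d : ℝ) ≤ T := by rw [hT]; linarith
  have hT0 : 0 ≤ T := le_trans (Nat.cast_nonneg d) hdT
  obtain ⟨d', hd'⟩ : ∃ d' : ℕ, d' = ⌊T⌋₊ := ⟨_, rfl⟩
  have hdd' : d ≤ d' := by rw [hd']; exact Nat.le_floor hdT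
  have hd'1 : (d' : ℝ) ≤ T := by rw [hd']; exact Nat.floor_le hT0
  have hd'2 : T < d' + 1 := by rw [hd']; exact Nat.lt_floor_add_one T
  have hmτ : (m : ℝ) * τ ≤ m * 1 := mul_le_mul_of_nonneg_left hτ1 hmpos.le
  have hSm : 1024 * (m : ℝ) ≤ S * m := mul_le_mul_of_nonneg_right hS hmpos.le
  have hmS : 1024 * S ≤ S * m := by
    have := mul_le_mul_of_nonneg_left hmR hS0.le
    linarith
  have hden : 3 / 4 * (S * m) ≤ (d' : ℝ) + 3 / 2 - a / 2 := by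
    rw [hT] at hd'2
    have e1 : S * ((m : ℝ) + 1 / 2) = S * m + S / 2 := by ring
    rw [e1] at hd'2
    linarith
  have had : a ≤ d' + 1 := by
    have : (a : ℝ) ≤ d' + 1 := by linarith
    exact_mod_cast this
  rw [← hx0d] at hx0S hlow hg1 hg2 hch
  have hg0 : (0 : ℝ) ≤ g := Nat.cast_nonneg g
  have hgood : Good K r m (fun b => d' + 1 - b) ((d' + 2).choose 2) := by
    have hDlt : (d' : ℝ) + 3 / 2 - x0 / 2 + (5 / 8 * (a : ℝ) ^ 2 + g) / x0 < m * x := by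
      have h1 : (m : ℝ) * (S - τ / 2) ≤ m * x := mul_le_mul_of_nonneg_left hxl hmpos.le
      have h2 : (m : ℝ) * (S - τ / 2) = S * m - m * τ / 2 := by ring
      have h3 : 0 ≤ (m : ℝ) * τ := by positivity
      have h4 : (5 / 8 * (a : ℝ) ^ 2 + g) / x0 ≤ δ := by
        rw [div_le_iff₀ hx0]
        have h5 : δ * (S / 2) ≤ δ * x0 := mul_le_mul_of_nonneg_left (by linarith) hδ0.le
        linarith
      rw [hT] at hd'1
      have e1 : S * ((m : ℝ) + 1 / 2) = S * m + S / 2 := by ring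
      rw [e1] at hd'1
      linarith
    rw [hx0d] at hDlt hch
    apply threeStart_empty ha hab had ?_ hch le_rfl hDlt
    · calc x * _ < x * (m * x) := mul_lt_mul_of_pos_left hDlt hx
        _ = m * x ^ 2 := by ring
        _ ≤ m * S ^ 2 := by
            apply mul_le_mul_of_nonneg_left _ hmpos.le
            exact pow_le_pow_left₀ hx.le hxS 2
        _ = r * m := by rw [hS2]; ring
    · rw [← hx0d]
      have h5 : (m : ℝ) / 2 ≤ ((d' : ℝ) + 3 / 2 - a / 2) / x0 - 1 := by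
        rw [le_sub_iff_add_le, le_div_iff₀ hx0]
        have h6 : ((m : ℝ) / 2 + 1) * x0 ≤ (m / 2 + 1) * S :=
          mul_le_mul_of_nonneg_left hx0S (by linarith)
        have h7 : ((m : ℝ) / 2 + 1) * S = S * m / 2 + S := by ring
        linarith
      have h6 := mul_le_mul_of_nonneg_left h5 hg0
      have h7 : (g : ℝ) * (m / 2) = g * m / 2 := by ring
      linarith
  have h8 := Good.shrink (K := K) (d' + 1) (d + 1) (n := fun b => d' + 1 - b)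
    (n' := fun b => d + 1 - b) (fun c hc => by omega) (fun c => by omega)
    (by rw [sum_stair]; exact hgood)
  rw [sum_stair] at h8
  exact h8

theorem large_regular [Infinite K] {r m d a b : ℕ} {ε δ τ x : ℝ} (hδ0 : 0 < δ)
    (hεδ : 16 * δ ≤ ε) (hτ0 : 0 ≤ τ) (hS : 1024 ≤ √(r : ℝ))
    (ha : 0 < a) (hab : a ^ 2 ≤ b)
    (hlow : √(r : ℝ) - 9 * δ / 8 ≤ (b : ℝ) / a) (hlow2 : √(r : ℝ) / 2 ≤ (b : ℝ) / a)
    (ha2 : 4 * (a : ℝ) ^ 2 ≤ δ * √(r : ℝ))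
    (hch : Chain ((b : ℝ) / a) x) (hxS : x ≤ √(r : ℝ)) (hrx : (r : ℝ) ≤ x * (√(r : ℝ) + τ))
    (h : √(r : ℝ) * (m + 1 / 2) + ε + m * τ ≤ (d : ℝ) + 3 / 2) :
    Good K r m (fun b => d + 1 - b) (r * (m + 1).choose 2) := by
  obtain ⟨S, hSd⟩ : ∃ S : ℝ, S = √(r : ℝ) := ⟨_, rfl⟩
  rw [← hSd] at hS hlow hlow2 ha2 hxS hrx h
  have hS0 : 0 < S := by linarith
  have ha0 : (0 : ℝ) < a := by exact_mod_cast ha
  have hb0 : 0 < b := lt_of_lt_of_le (by positivity) hab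
  have hb0' : (0 : ℝ) < b := by exact_mod_cast hb0
  have hx : 0 < x := lt_of_lt_of_le (by positivity) hch.le
  have hm0 : (0 : ℝ) ≤ m := Nat.cast_nonneg m
  have hx0 : (0 : ℝ) < (b : ℝ) / a := by positivity
  have ha3 : (a : ℝ) ^ 2 / (8 * ((b : ℝ) / a)) ≤ δ := by
    rw [div_le_iff₀ (by positivity)]
    have h5 : δ * (S / 2) ≤ δ * ((b : ℝ) / a) := mul_le_mul_of_nonneg_left hlow2 hδ0.le
    have h6 : 0 ≤ (a : ℝ) ^ 2 := by positivity
    linarith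
  obtain ⟨E, hE⟩ : ∃ E : ℝ, E = (d : ℝ) + 3 / 2 + (b : ℝ) / a / 2
    - (a : ℝ) ^ 2 / (8 * ((b : ℝ) / a)) - x := ⟨_, rfl⟩
  have hE1 : m * (S + τ) ≤ E := by
    have e1 : S * ((m : ℝ) + 1 / 2) = S * m + S / 2 := by ring
    have e2 : (m : ℝ) * (S + τ) = S * m + m * τ := by ring
    rw [e1] at h
    linarith
  have hmx : m * x ≤ E := by
    have h1 : (m : ℝ) * x ≤ m * (S + τ) := mul_le_mul_of_nonneg_left (by linarith) hm0
    linarith
  have hrm : (r : ℝ) * m ≤ x * E := by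
    calc (r : ℝ) * m ≤ x * (S + τ) * m := mul_le_mul_of_nonneg_right hrx hm0
      _ = x * (m * (S + τ)) := by ring
      _ ≤ x * E := mul_le_mul_of_nonneg_left hE1 hx.le
  rw [hE] at hmx hrm
  exact twoStart_regularF ha hab hch hmx hrm

/-- The window for large multiplicities. -/
theorem large_window {ε δ : ℝ} {N : ℕ} (hδ0 : 0 < δ) (hεδ : 16 * δ ≤ ε) (hε1 : ε ≤ 1)
    (hft : FineTune δ (N + 1)) :
    ∃ r0 : ℕ, ∀ r : ℕ, r0 ≤ r → ∀ (K : Type*) [Field K] [Infinite K] (m d : ℕ),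
      256 * √(r : ℝ) ≤ m * δ →
      ((d : ℝ) + 3 / 2 ≤ √(r : ℝ) * (m + 1 / 2) - ε - m / (r : ℝ) ^ N ∨
        √(r : ℝ) * (m + 1 / 2) + ε + m / (r : ℝ) ^ N ≤ (d : ℝ) + 3 / 2) →
      Good K r m (fun b => d + 1 - b) (min ((d + 2).choose 2) (r * (m + 1).choose 2)) := by
  have hδ1 : δ ≤ 1 / 16 := by linarith
  obtain ⟨r1, hr1⟩ := hft
  obtain ⟨r2, hr2⟩ := exists_start_gen (3 * δ / 4) (by positivity) (by linarith)
  obtain ⟨r3, hr3⟩ : ∃ r3 : ℕ, r3 = (⌈1024 / δ ^ 5⌉₊ + 1) ^ 2 := ⟨_, rfl⟩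
  refine ⟨max r1 (max r2 r3), ?_⟩
  intro r hr K _ _ m d hm h
  have hrr1 : r1 ≤ r := le_trans (le_max_left _ _) hr
  have hrr2 : r2 ≤ r := le_trans (le_trans (le_max_left _ _) (le_max_right _ _)) hr
  have hrr3 : r3 ≤ r := le_trans (le_trans (le_max_right _ _) (le_max_right _ _)) hr
  obtain ⟨S, hSd⟩ : ∃ S : ℝ, S = √(r : ℝ) := ⟨_, rfl⟩
  have hS2 : S ^ 2 = r := by rw [hSd]; exact Real.sq_sqrt (Nat.cast_nonneg r)
  have hS5 : 1024 / δ ^ 5 ≤ S := by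
    have h1 : ((⌈1024 / δ ^ 5⌉₊ : ℝ) + 1) ≤ S := by
      rw [hSd]
      apply Real.le_sqrt_of_sq_le
      rw [hr3] at hrr3
      exact_mod_cast hrr3
    have h2 := Nat.le_ceil (1024 / δ ^ 5)
    linarith
  have hδ5 : δ ^ 5 ≤ 1 := pow_le_one₀ hδ0.le (by linarith)
  have hS1 : 1024 ≤ S := by
    refine le_trans ?_ hS5
    rw [le_div_iff₀ (by positivity)]
    linarith
  have hS0 : 0 < S := by linarith
  have hr16 : 16 ≤ r := by
    have : (16 : ℝ) ≤ r := by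
      have h1 : 1024 * S ≤ S ^ 2 := by
        rw [pow_two]
        exact mul_le_mul_of_nonneg_right hS1 hS0.le
      rw [← hS2]
      linarith
    exact_mod_cast this
  have hδ2 : δ ^ 2 ≤ δ / 16 := by
    rw [pow_two]
    have := mul_le_mul_of_nonneg_left hδ1 hδ0.le
    linarith
  have hSδ : 1024 ≤ S * δ := by
    have h6 : 1024 ≤ S * δ ^ 5 := by rwa [div_le_iff₀ (by positivity)] at hS5
    have h7 : δ ^ 5 ≤ δ := by
      calc δ ^ 5 ≤ δ ^ 1 := pow_le_pow_of_le_one hδ0.le (by linarith) (by norm_num)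
        _ = δ := pow_one δ
    have h8 : S * δ ^ 5 ≤ S * δ := mul_le_mul_of_nonneg_left h7 hS0.le
    linarith
  rw [← hSd] at hm
  obtain ⟨a, b, e, ha, ha5, hab, hb1, hb2, hx1, hx2⟩ := hr2 r hrr2 S (r - δ ^ 2 / 512)
    (by rw [← hSd]; linarith) (by rw [hSd]) (by
      rw [← hS2]
      have e1 : (S - 3 * δ / 4) ^ 2 = S ^ 2 - 3 / 2 * (S * δ) + 9 / 16 * δ ^ 2 := by ring
      rw [e1]
      linarith)
  have ha0 : (0 : ℝ) < a := by exact_mod_cast ha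
  have ha1 : (1 : ℝ) ≤ a := by exact_mod_cast ha
  have hb0 : 0 < b := lt_of_lt_of_le (by positivity) hab
  have hb0' : (0 : ℝ) < b := by exact_mod_cast hb0
  obtain ⟨x0, hx0d⟩ : ∃ x0 : ℝ, x0 = (b : ℝ) / a := ⟨_, rfl⟩
  have hx0 : 0 < x0 := by rw [hx0d]; positivity
  have hab1 := a_bounds hδ0 hδ1 (by rw [← hSd]; exact hS5) ha ha5
  rw [← hSd] at hab1
  obtain ⟨ha4, haS⟩ := hab1
  rw [← hx0d] at hb1 hb2 hx1 hx2
  have hlow : S - 9 * δ / 8 ≤ x0 := by linarith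
  have hx0S : x0 ≤ S := by linarith
  have hlow2 : S / 2 ≤ x0 := by linarith
  have hx01 : 1 ≤ x0 := by linarith
  have hbx : x0 ≤ b := by
    rw [hx0d, div_le_iff₀ ha0]
    exact le_mul_of_one_le_right hb0'.le ha1
  have h3ab : 3 * a ^ 2 ≤ b := by
    have : 3 * (a : ℝ) ^ 2 ≤ b := by
      have h9 : δ * S ≤ 1 / 16 * S := mul_le_mul_of_nonneg_right hδ1 hS0.le
      linarith
    exact_mod_cast this
  -- the size of `e`
  have hδx : (S - 3 * δ / 4) ^ 2 = S ^ 2 - 3 / 2 * (S * δ) + 9 / 16 * δ ^ 2 := by ring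
  have hx0sq : x0 ^ 2 ≤ (S - 3 * δ / 4) ^ 2 := pow_le_pow_left₀ hx0.le (by linarith) 2
  have hx0sq2 : (S - 9 * δ / 8) ^ 2 ≤ x0 ^ 2 := pow_le_pow_left₀ (by linarith) hlow 2
  have hδx2 : (S - 9 * δ / 8) ^ 2 = S ^ 2 - 9 / 4 * (S * δ) + 81 / 64 * δ ^ 2 := by ring
  have hsq : (3 * δ / 4) ^ 2 = 9 / 16 * δ ^ 2 := by ring
  rw [hsq] at hx1 hx2
  have hδ2p : 0 < δ ^ 2 := by positivity
  have he1 : 5 / 4 * (S * δ) ≤ 2 * e := by
    rw [← hS2] at hx2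
    rw [hδx] at hx0sq
    linarith
  have he2 : 2 * (e : ℝ) ≤ 4 * δ * S := by
    rw [← hS2] at hx1
    rw [hδx2] at hx0sq2
    have : 4 * δ * S = 4 * (S * δ) := by ring
    rw [this]
    linarith
  have hτ0 : (0 : ℝ) ≤ 1 / (r : ℝ) ^ N := by positivity
  have hτ1 : 1 / (r : ℝ) ^ N ≤ 1 := by
    have : (0:ℝ) < r := by rw [← hS2]; positivity
    rw [div_le_one (by positivity)]
    apply one_le_pow₀
    have : (16 : ℝ) ≤ r := by exact_mod_cast hr16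
    linarith
  have hmτ : (m : ℝ) / (r : ℝ) ^ N = m * (1 / (r : ℝ) ^ N) := by ring
  rw [hmτ] at h
  rcases h with h | h
  · apply Good.le (min_le_left _ _)
    have hmpos : (0 : ℝ) < m := by
      by_contra hcon
      push Not at hcon
      have := mul_nonpos_of_nonpos_of_nonneg hcon hδ0.le
      linarith
    have hm16 : 4096 * S ≤ m := by
      have h1 : (m : ℝ) * δ ≤ m * (1 / 16) := mul_le_mul_of_nonneg_left hδ1 hmpos.le
      linarith
    obtain ⟨g, hg⟩ : ∃ g : ℕ, g = ⌈2 * x0 ^ 2 / m⌉₊ := ⟨_, rfl⟩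
    have hg1 : 2 * x0 ^ 2 / m ≤ g := by rw [hg]; exact Nat.le_ceil _
    have hg2 : (g : ℝ) < 2 * x0 ^ 2 / m + 1 := by
      rw [hg]; exact Nat.ceil_lt_add_one (by positivity)
    have hg3 : 2 * x0 ^ 2 ≤ g * m := by rwa [div_le_iff₀ hmpos] at hg1
    have hg4 : 2 * x0 ^ 2 / m ≤ x0 * δ / 128 := by
      rw [div_le_iff₀ hmpos]
      have h1 : x0 * (256 * x0) ≤ x0 * (m * δ) :=
        mul_le_mul_of_nonneg_left (by linarith) hx0.le
      have e1 : x0 * (256 * x0) = 256 * x0 ^ 2 := by ring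
      have e2 : x0 * δ / 128 * m = x0 * (m * δ) / 128 := by ring
      rw [e2]
      linarith
    have hx0δ : 512 ≤ x0 * δ := by
      have : S / 2 * δ ≤ x0 * δ := mul_le_mul_of_nonneg_right hlow2 hδ0.le
      linarith
    have hg5 : (g : ℝ) ≤ x0 * δ / 64 := by linarith
    have hg0 : (0 : ℝ) ≤ g := Nat.cast_nonneg g
    have hge : g ≤ e := by
      have h1 : x0 * δ ≤ S * δ := mul_le_mul_of_nonneg_right hx0S hδ0.le
      have : (g : ℝ) ≤ e := by linarith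
      exact_mod_cast this
    have hgx : g / x0 ≤ δ / 64 := by
      rw [div_le_iff₀ hx0]
      linarith
    have hgx2 : (g / x0) ^ 2 ≤ δ ^ 2 / 4096 := by
      have := pow_le_pow_left₀ (by positivity) hgx 2
      have e1 : (δ / 64) ^ 2 = δ ^ 2 / 4096 := by ring
      rwa [e1] at this
    have hx3 : (x0 + g / x0) ^ 2 = x0 ^ 2 + 2 * g + (g / x0) ^ 2 := by
      field_simp
      ring
    have hge' : ((e - g : ℕ) : ℝ) = e - g := by rw [Nat.cast_sub hge]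
    have hx0S' : x0 * δ ≤ S * δ := mul_le_mul_of_nonneg_right hx0S hδ0.le
    obtain ⟨x, hch, hxl, hxu⟩ := hr1 r hrr1 (x0 + g / x0) (by
        have : 0 ≤ (g : ℝ) / x0 := by positivity
        linarith) (e - g) (by
        rw [← hSd, hge']
        have : δ * S = S * δ := by ring
        rw [this]
        linarith) (by
        rw [← hSd, hge']
        linarith) (by
        rw [hge', hx3]
        have : 0 ≤ ((g : ℝ) / x0) ^ 2 := by positivity
        linarith) (by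
        rw [hge', hx3]
        have : 0 ≤ ((g : ℝ) / x0) ^ 2 := by positivity
        linarith)
    have hx : 0 < x := lt_of_lt_of_le (by positivity) hch.le
    obtain ⟨hb1, hb2, hb3⟩ := tuned_bounds hr16 hx hxl hxu
    rw [← hSd] at hb1 hb2 hb3
    have hm1024 : 1024 ≤ m := by
      have : (1024 : ℝ) ≤ m := by linarith
      exact_mod_cast this
    rw [hx0d] at hg3 hg5 hch hx0S hlow
    exact large_empty hδ0 hεδ hε1 hτ0 hτ1 (by rw [← hSd]; exact hS1) hm1024 ha h3ab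
      (by rw [← hSd]; exact hx0S) (by rw [← hSd]; exact hlow) (by rw [← hSd]; exact ha4)
      (by rw [← hSd]; exact haS) hg3 (by
        have : δ * ((b : ℝ) / a) / 16 = ((b : ℝ) / a) * δ / 16 := by ring
        rw [this]
        have : 0 ≤ ((b : ℝ) / a) * δ := by positivity
        linarith) hch (by rw [← hSd]; exact hb1) (by rw [← hSd]; exact hb2) h
  · apply Good.le (min_le_right _ _)
    obtain ⟨x, hch, hxl, hxu⟩ := hr1 r hrr1 x0 hx01 e (by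
        rw [← hSd]
        have : δ * S = S * δ := by ring
        have h1 : 0 < S * δ := by positivity
        rw [this]
        linarith) (by
        rw [← hSd]
        exact he2) (by linarith) (by linarith)
    have hx : 0 < x := lt_of_lt_of_le hx0 hch.le
    obtain ⟨hb1, hb2, hb3⟩ := tuned_bounds hr16 hx hxl hxu
    rw [← hSd] at hb1 hb2 hb3
    rw [hx0d] at hch hlow hlow2
    exact large_regular hδ0 hεδ hτ0 (by rw [← hSd]; exact hS1) ha hab (by rw [← hSd]; exact hlow)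
      (by rw [← hSd]; exact hlow2) (by rw [← hSd]; exact ha4) hch (by rw [← hSd]; exact hb1)
      (by rw [← hSd]; exact hb3) h

end Pool.Agent.Helper7.NM
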