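import Pool.Agent.Helper7.NM.Small
import Pool.Agent.Helper7.NM.LargeNum

set_option autoImplicit false

/-! Small multiplicities: `m < 256 √r / δ`. -/

namespace Pool.Agent.Helper7.NM

open Pool.Agent.Helper41.Fat Pool.Agent.Helper42.Game Pool.Agent.Helper42.Eps

/-- The start for a small multiplicity. `F = √(r m (m + 1))`, `σ = δ ^ 2 / 1024`. -/
theorem small_start {δ σ : ℝ} (hδ0 : 0 < δ) (hδ1 : δ ≤ 1 / 16) (hσ : σ = δ ^ 2 / 1024) :
    ∃ r0 : ℕ, ∀ r : ℕ, r0 ≤ r → 1024 / σ ^ 5 ≤ √(r : ℝ) ∧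
      ∀ (m : ℕ) (S F D : ℝ), S = √(r : ℝ) → 0 ≤ F → F ^ 2 = r * m * (m + 1) →
      1 ≤ m → m * δ < 256 * S → |D - F| ≤ 2 →
      ∃ a b e : ℕ, ∃ x0 η κ : ℝ, 0 < a ∧ 3 * a ^ 2 ≤ b ∧ x0 = (b : ℝ) / a ∧
        4 * (a : ℝ) ^ 2 ≤ σ * S ∧ (a : ℝ) ≤ S / 64 ∧ (r : ℝ) = x0 ^ 2 + 2 * e + η ∧ 0 ≤ η ∧
        η ≤ σ ^ 2 / 128 ∧ 0 ≤ κ ∧ D = x0 * (m + 1) + κ ∧ κ ≤ (m + 1) * σ / 2 ∧
        7 / 10 * S ≤ x0 ∧ x0 ≤ S ∧ |x0 - F / (m + 1)| ≤ 2 / (m + 1) + σ / 2 := by
  have hσ0 : 0 < σ := by rw [hσ]; positivity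
  have hσδ : σ ≤ δ / 16384 := by
    rw [hσ, pow_two]
    have := mul_le_mul_of_nonneg_left hδ1 hδ0.le
    linarith
  have hσ1 : σ ≤ 1 / 8 := by linarith
  obtain ⟨r1, hr1⟩ := exists_start_gen σ hσ0 hσ1
  obtain ⟨r3, hr3⟩ : ∃ r3 : ℕ, r3 = (⌈1024 / σ ^ 5⌉₊ + 1) ^ 2 := ⟨_, rfl⟩
  refine ⟨max r1 r3, fun r hr => ?_⟩
  have hrr1 : r1 ≤ r := le_trans (le_max_left _ _) hr
  have hrr3 : r3 ≤ r := le_trans (le_max_right _ _) hr
  have hS5 : 1024 / σ ^ 5 ≤ √(r : ℝ) := by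
    have h1 : ((⌈1024 / σ ^ 5⌉₊ : ℝ) + 1) ≤ √(r : ℝ) := by
      apply Real.le_sqrt_of_sq_le
      rw [hr3] at hrr3
      exact_mod_cast hrr3
    have h2 := Nat.le_ceil (1024 / σ ^ 5)
    linarith
  refine ⟨hS5, ?_⟩
  intro m S F D hSd hF0 hF2 hm hmδ hDF
  have hS2 : S ^ 2 = r := by rw [hSd]; exact Real.sq_sqrt (Nat.cast_nonneg r)
  have hσ5 : σ ^ 5 ≤ 1 := pow_le_one₀ hσ0.le (by linarith)
  have hS1 : 1024 ≤ S := by
    rw [hSd]
    refine le_trans ?_ hS5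
    rw [le_div_iff₀ (by positivity)]
    linarith
  have hS0 : 0 < S := by linarith
  have hm1 : (1 : ℝ) ≤ m := by exact_mod_cast hm
  obtain ⟨M, hM⟩ : ∃ M : ℝ, M = (m : ℝ) + 1 := ⟨_, rfl⟩
  have hM2 : 2 ≤ M := by rw [hM]; linarith
  have hM0 : 0 < M := by linarith
  have hMδ : M * δ ≤ 512 * S := by
    have e1 : ((m : ℝ) + 1) * δ = m * δ + δ := by ring
    rw [hM, e1]
    linarith
  have hσM : σ * M ≤ δ * S / 2 := by
    have h1 : σ * M = δ / 1024 * (M * δ) := by rw [hσ]; ring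
    rw [h1]
    have h2 := mul_le_mul_of_nonneg_left hMδ (by positivity : (0 : ℝ) ≤ δ / 1024)
    linarith
  have hδS : δ * S ≤ 1 / 16 * S := mul_le_mul_of_nonneg_right hδ1 hS0.le
  -- the centre
  obtain ⟨ρ, hρ⟩ : ∃ ρ : ℝ, ρ = F / M := ⟨_, rfl⟩
  have hρM : ρ * M = F := by rw [hρ]; field_simp
  have hρ0 : 0 ≤ ρ := by rw [hρ]; positivity
  have hρ2 : ρ ^ 2 * M = S ^ 2 * (M - 1) := by
    have h1 : ρ ^ 2 * M * M = S ^ 2 * (M - 1) * M := by
      have e1 : ρ ^ 2 * M * M = (ρ * M) ^ 2 := by ring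
      rw [e1, hρM, hF2, hS2, hM]
      ring
    exact mul_right_cancel₀ hM0.ne' h1
  have hρlow : 705 / 1000 * S ≤ ρ := by
    by_contra hcon
    push Not at hcon
    have h1 : ρ ^ 2 ≤ (705 / 1000 * S) ^ 2 := pow_le_pow_left₀ hρ0 hcon.le 2
    have h2 : ρ ^ 2 * M ≤ (705 / 1000 * S) ^ 2 * M := mul_le_mul_of_nonneg_right h1 hM0.le
    have h3 : (705 / 1000 * S) ^ 2 * M = 497025 / 1000000 * (S ^ 2 * M) := by ring
    rw [hρ2, h3] at h2
    have h4 : S ^ 2 * (M - 1) = S ^ 2 * M - S ^ 2 := by ring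
    rw [h4] at h2
    have h5 : S ^ 2 * 2 ≤ S ^ 2 * M := mul_le_mul_of_nonneg_left hM2 (by positivity)
    have h6 : 0 < S ^ 2 := by positivity
    linarith
  -- `X = D / M`
  obtain ⟨X, hX⟩ : ∃ X : ℝ, X = D / M := ⟨_, rfl⟩
  have hXM : X * M = D := by rw [hX]; field_simp
  have hXρ : |X - ρ| ≤ 2 / M := by
    rw [hX, hρ, ← sub_div, abs_div, abs_of_pos hM0]
    exact div_le_div_of_nonneg_right hDF hM0.le
  have h2M : 2 / M ≤ 1 := by
    rw [div_le_one hM0]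
    exact hM2
  obtain ⟨hX1, hX2⟩ := abs_le.1 hXρ
  have hXS : X + σ ≤ S := by
    have h1 : (ρ + 2 / M + σ) ≤ S := by
      by_contra hcon
      push Not at hcon
      have h2 : S - (2 / M + σ) ≤ ρ := by linarith
      have h3 : (S - (2 / M + σ)) ^ 2 ≤ ρ ^ 2 :=
        pow_le_pow_left₀ (by linarith) h2 2
      have h4 : (S - (2 / M + σ)) ^ 2 * M ≤ ρ ^ 2 * M := mul_le_mul_of_nonneg_right h3 hM0.le
      rw [hρ2] at h4
      have h5 : S ^ 2 * M - 2 * S * (2 + σ * M) ≤ (S - (2 / M + σ)) ^ 2 * M := by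
        have e1 : (S - (2 / M + σ)) ^ 2 * M =
            S ^ 2 * M - 2 * S * (2 + σ * M) + (2 / M + σ) ^ 2 * M := by
          field_simp
          ring
        rw [e1]
        have : 0 ≤ (2 / M + σ) ^ 2 * M := by positivity
        linarith
      have h6 : 2 * S * (2 + σ * M) ≤ 2 * S * (2 + δ * S / 2) :=
        mul_le_mul_of_nonneg_left (by linarith) (by positivity)
      have h7 : 2 * S * (2 + δ * S / 2) = 4 * S + δ * S ^ 2 := by ring
      have h8 : δ * S ^ 2 ≤ 1 / 16 * S ^ 2 := mul_le_mul_of_nonneg_right hδ1 (by positivity)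
      have h9 : 1024 * S ≤ S ^ 2 := by
        rw [pow_two]
        exact mul_le_mul_of_nonneg_right hS1 hS0.le
      have h10 : S ^ 2 * (M - 1) = S ^ 2 * M - S ^ 2 := by ring
      linarith
    linarith
  have hX0 : 0 ≤ X := by linarith
  obtain ⟨a, b, e, ha, ha5, hab, hb1, hb2, hx1, hx2⟩ := hr1 r hrr1 (X + σ) r
    (by rw [← hSd]; linarith) (by rw [← hSd]; exact hXS) (by
      have e1 : X + σ - σ = X := by ring
      rw [e1, ← hS2]
      exact pow_le_pow_left₀ hX0 (by linarith) 2)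
  have ha0 : (0 : ℝ) < a := by exact_mod_cast ha
  have ha1 : (1 : ℝ) ≤ a := by exact_mod_cast ha
  have hb0 : 0 < b := lt_of_lt_of_le (by positivity) hab
  have hb0' : (0 : ℝ) < b := by exact_mod_cast hb0
  obtain ⟨x0, hx0d⟩ : ∃ x0 : ℝ, x0 = (b : ℝ) / a := ⟨_, rfl⟩
  have hab1 := a_bounds hσ0 (by linarith) hS5 ha ha5
  rw [← hSd] at hab1
  obtain ⟨ha4, haS⟩ := hab1
  rw [← hx0d] at hb1 hb2 hx1 hx2
  have hx0lo : X - σ / 2 ≤ x0 := by linarith
  have hx0hi : x0 ≤ X := by linarith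
  have hx07 : 7 / 10 * S ≤ x0 := by linarith
  have hx0 : 0 < x0 := by linarith
  have hbx : x0 ≤ b := by
    rw [hx0d, div_le_iff₀ ha0]
    exact le_mul_of_one_le_right hb0'.le ha1
  have h3ab : 3 * a ^ 2 ≤ b := by
    have : 3 * (a : ℝ) ^ 2 ≤ b := by
      have h9 : σ * S ≤ 1 / 8 * S := mul_le_mul_of_nonneg_right hσ1 hS0.le
      linarith
    exact_mod_cast this
  have hη0 : 0 ≤ (r : ℝ) - x0 ^ 2 - 2 * e := le_trans (by positivity) hx1
  refine ⟨a, b, e, x0, r - x0 ^ 2 - 2 * e, D - x0 * (m + 1), ha, h3ab, hx0d, ha4, haS,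
    by ring, hη0, hx2, ?_, by ring, ?_, hx07, by linarith, ?_⟩
  · rw [← hM, ← hXM]
    have : x0 * M ≤ X * M := mul_le_mul_of_nonneg_right hx0hi hM0.le
    linarith
  · rw [← hM, ← hXM]
    have : (X - σ / 2) * M ≤ x0 * M := mul_le_mul_of_nonneg_right hx0lo hM0.le
    have e1 : (X - σ / 2) * M = X * M - M * σ / 2 := by ring
    linarith
  · rw [← hM, ← hρ, abs_le]
    constructor <;> linarith

variable {K : Type*} [Field K]

theorem small_window {ε δ : ℝ} (hδ0 : 0 < δ) (hεδ : 16 * δ ≤ ε) (hε1 : ε ≤ 1 / 2) :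
    ∃ r0 : ℕ, ∀ r : ℕ, r0 ≤ r → ∀ (K : Type*) [Field K] [Infinite K] (m d : ℕ), 1 ≤ m →
      m * δ < 256 * √(r : ℝ) →
      ((d : ℝ) + 3 / 2 ≤ √((r : ℝ) * m * (m + 1) + 1 / 4) - ε ∨
        √((r : ℝ) * m * (m + 1) + 1 / 4) + ε ≤ (d : ℝ) + 3 / 2) →
      Good K r m (fun b => d + 1 - b) (min ((d + 2).choose 2) (r * (m + 1).choose 2)) := by
  have hδ1 : δ ≤ 1 / 16 := by linarith
  obtain ⟨σ, hσ⟩ : ∃ σ : ℝ, σ = δ ^ 2 / 1024 := ⟨_, rfl⟩
  have hσ0 : 0 < σ := by rw [hσ]; positivity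
  have hσδ : σ ≤ δ / 16384 := by
    rw [hσ, pow_two]
    have := mul_le_mul_of_nonneg_left hδ1 hδ0.le
    linarith
  obtain ⟨r1, hr1⟩ := small_start hδ0 hδ1 hσ
  refine ⟨r1, fun r hr K _ _ m d hm hmδ h => ?_⟩
  obtain ⟨hS5, hstart⟩ := hr1 r hr
  obtain ⟨S, hSd⟩ : ∃ S : ℝ, S = √(r : ℝ) := ⟨_, rfl⟩
  have hS2 : S ^ 2 = r := by rw [hSd]; exact Real.sq_sqrt (Nat.cast_nonneg r)
  rw [← hSd] at hS5 hmδ
  have hσ5 : σ ^ 5 ≤ σ := by
    calc σ ^ 5 ≤ σ ^ 1 := pow_le_pow_of_le_one hσ0.le (by linarith) (by norm_num)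
      _ = σ := pow_one σ
  have hSσ5 : 1024 ≤ S * σ ^ 5 := by rwa [div_le_iff₀ (by positivity)] at hS5
  have hS0 : 0 < S := by
    by_contra hcon
    push Not at hcon
    have := mul_nonpos_of_nonpos_of_nonneg hcon (by positivity : (0 : ℝ) ≤ σ ^ 5)
    linarith
  have hSσ : 1024 ≤ S * σ := by
    have := mul_le_mul_of_nonneg_left hσ5 hS0.le
    linarith
  have hSδ : 16384 * 1024 ≤ S * δ := by
    have := mul_le_mul_of_nonneg_left hσδ hS0.le
    have e1 : S * (δ / 16384) = S * δ / 16384 := by ring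
    rw [e1] at this
    linarith
  have hS1 : 1024 ≤ S := by
    have : S * σ ≤ S * 1 := mul_le_mul_of_nonneg_left (by linarith) hS0.le
    linarith
  have hm1 : (1 : ℝ) ≤ m := by exact_mod_cast hm
  have hm0 : (0 : ℝ) < m := by linarith
  obtain ⟨F, hF⟩ : ∃ F : ℝ, F = √((r : ℝ) * m * (m + 1)) := ⟨_, rfl⟩
  have hF0 : 0 ≤ F := by rw [hF]; exact Real.sqrt_nonneg _
  have hF2 : F ^ 2 = r * m * (m + 1) := by
    rw [hF]
    exact Real.sq_sqrt (by positivity)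
  obtain ⟨Fc, hFc⟩ : ∃ Fc : ℝ, Fc = √((r : ℝ) * m * (m + 1) + 1 / 4) := ⟨_, rfl⟩
  have hFc0 : 0 ≤ Fc := by rw [hFc]; exact Real.sqrt_nonneg _
  have hFc2 : Fc ^ 2 = F ^ 2 + 1 / 4 := by
    rw [hFc, hF2]
    exact Real.sq_sqrt (by positivity)
  have hFFc : F ≤ Fc := by
    rw [hF, hFc]
    exact Real.sqrt_le_sqrt (by linarith)
  have hSF : S ≤ F := by
    rw [hF, hSd]
    apply Real.sqrt_le_sqrt
    have h1 : (1 : ℝ) * 1 ≤ m * (m + 1) := mul_le_mul hm1 (by linarith) (by norm_num) hm0.le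
    have h2 : (r : ℝ) * 1 ≤ r * (m * (m + 1)) :=
      mul_le_mul_of_nonneg_left (by linarith) (Nat.cast_nonneg r)
    linarith
  have hFcF : Fc ≤ F + ε / 8 := by
    by_contra hcon
    push Not at hcon
    have h1 : (F + ε / 8) ^ 2 ≤ Fc ^ 2 := pow_le_pow_left₀ (by linarith) hcon.le 2
    have h2 : (F + ε / 8) ^ 2 = F ^ 2 + F * ε / 4 + ε ^ 2 / 64 := by ring
    rw [h2, hFc2] at h1
    have h3 : S * (16 * δ) ≤ F * ε := mul_le_mul hSF hεδ (by positivity) hF0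
    have h4 : 0 ≤ ε ^ 2 := by positivity
    linarith
  rw [← hFc] at h
  obtain ⟨M, hM⟩ : ∃ M : ℝ, M = (m : ℝ) + 1 := ⟨_, rfl⟩
  have hM2 : 2 ≤ M := by rw [hM]; linarith
  have hM0 : 0 < M := by linarith
  have hMδ : M * δ ≤ 512 * S := by
    have e1 : ((m : ℝ) + 1) * δ = m * δ + δ := by ring
    rw [hM, e1]
    linarith
  have hσM : σ * M ≤ δ * S / 2 := by
    have h1 : σ * M = δ / 1024 * (M * δ) := by rw [hσ]; ring
    rw [h1]
    have h2 := mul_le_mul_of_nonneg_left hMδ (by positivity : (0 : ℝ) ≤ δ / 1024)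
    linarith
  have hδS : δ * S ≤ 1 / 16 * S := mul_le_mul_of_nonneg_right hδ1 hS0.le
  have hσS : σ * S ≤ δ * S / 16384 := by
    have := mul_le_mul_of_nonneg_right hσδ hS0.le
    linarith
  have hσ2M : σ ^ 2 * M ≤ σ * S / 32 := by
    have h1 : σ ^ 2 * M = σ * (σ * M) := by ring
    rw [h1]
    have h2 := mul_le_mul_of_nonneg_left hσM hσ0.le
    have h3 : σ * (δ * S / 2) = (σ * S) * δ / 2 := by ring
    have h4 : (σ * S) * δ ≤ (σ * S) * (1 / 16) := mul_le_mul_of_nonneg_left hδ1 (by positivity)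
    linarith
  -- common identity
  have hid : ∀ x0 : ℝ, (m * (r : ℝ) + (m + 1) * x0 ^ 2) / 2 =
      x0 * F + M * (x0 - F / (m + 1)) ^ 2 / 2 := by
    intro x0
    have h1 : M * (F / (m + 1)) ^ 2 = m * r := by
      rw [← hM]
      have : M * (F / M) ^ 2 = F ^ 2 / M := by
        field_simp
      rw [this, hF2, ← hM]
      field_simp
    have h2 : M * (x0 - F / (m + 1)) ^ 2 =
        M * x0 ^ 2 - 2 * x0 * (M * (F / (m + 1))) + M * (F / (m + 1)) ^ 2 := by ring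
    have h3 : M * (F / (m + 1)) = F := by
      rw [← hM]
      field_simp
    rw [h2, h1, h3, hM]
    ring
  have hsqb : ∀ x0 : ℝ, |x0 - F / (m + 1)| ≤ 2 / (m + 1) + σ / 2 →
      M * (x0 - F / (m + 1)) ^ 2 / 2 ≤ 2 + σ * S := by
    intro x0 hx
    rw [← hM] at hx ⊢
    have h1 : (x0 - F / M) ^ 2 ≤ (2 / M + σ / 2) ^ 2 := by
      rw [← sq_abs]
      exact pow_le_pow_left₀ (abs_nonneg _) hx 2
    have h2 : M * (x0 - F / M) ^ 2 ≤ M * (2 / M + σ / 2) ^ 2 :=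
      mul_le_mul_of_nonneg_left h1 hM0.le
    have h3 : M * (2 / M + σ / 2) ^ 2 = 4 / M + 2 * σ + σ ^ 2 * M / 4 := by
      field_simp
      ring
    have h4 : 4 / M ≤ 2 := by
      rw [div_le_iff₀ hM0]
      linarith
    have h5 : 0 ≤ σ * S := by positivity
    linarith
  rcases h with h | h
  · -- empty side
    apply Good.le (min_le_left _ _)
    obtain ⟨T, hT⟩ : ∃ T : ℝ, T = Fc - ε - 3 / 2 := ⟨_, rfl⟩
    have hdT : (d : ℝ) ≤ T := by rw [hT]; linarith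
    have hT0 : 0 ≤ T := le_trans (Nat.cast_nonneg d) hdT
    obtain ⟨d', hd'⟩ : ∃ d' : ℕ, d' = ⌊T⌋₊ := ⟨_, rfl⟩
    have hdd' : d ≤ d' := by rw [hd']; exact Nat.le_floor hdT
    have hd'1 : (d' : ℝ) ≤ T := by rw [hd']; exact Nat.floor_le hT0
    have hd'2 : T < d' + 1 := by rw [hd']; exact Nat.lt_floor_add_one T
    obtain ⟨a, b, e, x0, η, κ, ha, hab, hx0d, ha4, haS, hre, hη0, hη1, hκ0, hκ, hκ1, hx7, hxS,
      habs⟩ := hstart m S F ((d' : ℝ) + 3 / 2) hSd hF0 hF2 hm hmδ (by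
        rw [abs_le]
        constructor <;> linarith)
    have ha0 : (0 : ℝ) < a := by exact_mod_cast ha
    have ha1 : (1 : ℝ) ≤ a := by exact_mod_cast ha
    have hx0 : 0 < x0 := by linarith
    have he0 : (0 : ℝ) ≤ e := Nat.cast_nonneg e
    rw [← hM] at hκ1
    obtain ⟨k, hk⟩ : ∃ k : ℕ, k = ⌈(κ ^ 2 / 2 + a * κ / 2 + (a : ℝ) ^ 2 / 8) / M⌉₊ := ⟨_, rfl⟩
    have hk1 : (κ ^ 2 / 2 + a * κ / 2 + (a : ℝ) ^ 2 / 8) / M ≤ k := by rw [hk]; exact Nat.le_ceil _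
    have hk2 : (k : ℝ) < (κ ^ 2 / 2 + a * κ / 2 + (a : ℝ) ^ 2 / 8) / M + 1 := by
      rw [hk]; exact Nat.ceil_lt_add_one (by positivity)
    have ha2 : (a : ℝ) ≤ a ^ 2 := by
      rw [pow_two]; exact le_mul_of_one_le_left (by positivity) ha1
    have hk3 : (κ ^ 2 / 2 + a * κ / 2 + (a : ℝ) ^ 2 / 8) / M ≤ σ * S / 8 := by
      rw [div_le_iff₀ hM0]
      have h1 : κ ^ 2 ≤ (M * σ / 2) ^ 2 := pow_le_pow_left₀ hκ0 hκ1 2
      have h2 : (M * σ / 2) ^ 2 = (σ ^ 2 * M) * M / 4 := by ring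
      have h3 : (σ ^ 2 * M) * M ≤ (σ * S / 32) * M := mul_le_mul_of_nonneg_right hσ2M hM0.le
      have h4 : a * κ ≤ a * (M * σ / 2) := mul_le_mul_of_nonneg_left hκ1 ha0.le
      have h5 : a * (M * σ / 2) = (a * σ) * M / 2 := by ring
      have h6 : a * σ ≤ a ^ 2 * (1 / 16) := mul_le_mul ha2 (by linarith) hσ0.le (by positivity)
      have h7 : (a * σ) * M ≤ (a ^ 2 * (1 / 16)) * M := mul_le_mul_of_nonneg_right h6 hM0.le
      have h8 : (4 * (a : ℝ) ^ 2) * M ≤ (σ * S) * M := mul_le_mul_of_nonneg_right ha4 hM0.le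
      have h9 : (a : ℝ) ^ 2 * 1 ≤ a ^ 2 * M := mul_le_mul_of_nonneg_left (by linarith) (by positivity)
      have h10 : (4 * (a : ℝ) ^ 2) * M = 4 * (a ^ 2 * M) := by ring
      have h11 : (a ^ 2 * (1 / 16)) * M = a ^ 2 * M / 16 := by ring
      have h12 : 0 ≤ (σ * S) * M := by positivity
      have h13 : (σ * S / 32) * M = (σ * S) * M / 32 := by ring
      have h14 : σ * S / 8 * M = (σ * S) * M / 8 := by ring
      rw [h14]
      linarith
    have hk4 : (k : ℝ) ≤ σ * S / 4 := by linarith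
    have hk0 : (0 : ℝ) ≤ k := Nat.cast_nonneg k
    -- size of `e`
    have hρ : |x0 - F / M| ≤ 2 / M + σ / 2 := by rw [hM]; exact habs
    obtain ⟨ρ, hρd⟩ : ∃ ρ : ℝ, ρ = F / M := ⟨_, rfl⟩
    rw [← hρd] at hρ
    have hρM : ρ ^ 2 * M = S ^ 2 * (M - 1) := by
      have h1 : ρ ^ 2 * M * M = S ^ 2 * (M - 1) * M := by
        have e1 : ρ ^ 2 * M * M = (ρ * M) ^ 2 := by ring
        have e2 : ρ * M = F := by rw [hρd]; field_simp
        rw [e1, e2, hF2, hS2, hM]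
        ring
      exact mul_right_cancel₀ hM0.ne' h1
    have hρS : ρ ≤ S := by
      by_contra hcon
      push Not at hcon
      have h1 : S ^ 2 ≤ ρ ^ 2 := pow_le_pow_left₀ hS0.le hcon.le 2
      have h2 : S ^ 2 * M ≤ ρ ^ 2 * M := mul_le_mul_of_nonneg_right h1 hM0.le
      rw [hρM] at h2
      have h3 : S ^ 2 * (M - 1) = S ^ 2 * M - S ^ 2 := by ring
      have h4 : 0 < S ^ 2 := by positivity
      linarith
    have hρ0 : 0 ≤ ρ := by rw [hρd]; positivity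
    obtain ⟨w, hw⟩ : ∃ w : ℝ, w = 2 / M + σ / 2 := ⟨_, rfl⟩
    rw [← hw] at hρ
    have hw0 : 0 < w := by rw [hw]; positivity
    have hwM : w * M = 2 + σ * M / 2 := by
      rw [hw]
      field_simp
    have hw1 : w ≤ 2 := by
      by_contra hcon
      push Not at hcon
      have : 2 / M ≤ 1 := by
        rw [div_le_one hM0]
        exact hM2
      rw [hw] at hcon
      linarith
    obtain ⟨hρ1, hρ2⟩ := abs_le.1 hρ
    have hx0sq1 : x0 ^ 2 * M ≤ ρ ^ 2 * M + 2 * S * (w * M) + w ^ 2 * M := by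
      have h1 : x0 ^ 2 ≤ (ρ + w) ^ 2 := pow_le_pow_left₀ hx0.le (by linarith) 2
      have h2 : (ρ + w) ^ 2 = ρ ^ 2 + 2 * ρ * w + w ^ 2 := by ring
      have h3 : ρ * w ≤ S * w := mul_le_mul_of_nonneg_right hρS hw0.le
      have h4 : x0 ^ 2 ≤ ρ ^ 2 + 2 * S * w + w ^ 2 := by linarith
      have h5 := mul_le_mul_of_nonneg_right h4 hM0.le
      have h6 : (ρ ^ 2 + 2 * S * w + w ^ 2) * M = ρ ^ 2 * M + 2 * S * (w * M) + w ^ 2 * M := by ring
      linarith
    have hx0sq2 : ρ ^ 2 * M ≤ x0 ^ 2 * M + 2 * S * (w * M) + w ^ 2 * M := by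
      have h1 : ρ ^ 2 ≤ (x0 + w) ^ 2 := pow_le_pow_left₀ hρ0 (by linarith) 2
      have h2 : (x0 + w) ^ 2 = x0 ^ 2 + 2 * x0 * w + w ^ 2 := by ring
      have h3 : x0 * w ≤ S * w := mul_le_mul_of_nonneg_right hxS hw0.le
      have h4 : ρ ^ 2 ≤ x0 ^ 2 + 2 * S * w + w ^ 2 := by linarith
      have h5 := mul_le_mul_of_nonneg_right h4 hM0.le
      have h6 : (x0 ^ 2 + 2 * S * w + w ^ 2) * M = x0 ^ 2 * M + 2 * S * (w * M) + w ^ 2 * M := by ring
      linarith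
    have hSS : 1024 * S ≤ S ^ 2 := by
      rw [pow_two]
      exact mul_le_mul_of_nonneg_right hS1 hS0.le
    have hSwM : 2 * S * (w * M) ≤ 4 * S + S ^ 2 / 32 := by
      rw [hwM]
      have h1 : S * (σ * M) ≤ S * (δ * S / 2) := mul_le_mul_of_nonneg_left hσM hS0.le
      have h2 : S * (δ * S / 2) = δ * S * S / 2 := by ring
      have h3 : δ * S * S ≤ 1 / 16 * S * S := mul_le_mul_of_nonneg_right hδS hS0.le
      have e1 : 2 * S * (2 + σ * M / 2) = 4 * S + S * (σ * M) := by ring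
      have e2 : 1 / 16 * S * S = S ^ 2 / 16 := by ring
      rw [e1]
      linarith
    have hw2M : w ^ 2 * M ≤ S := by
      have h1 : w ^ 2 * M = w * (w * M) := by ring
      have h2 : w * (w * M) ≤ 2 * (w * M) :=
        mul_le_mul_of_nonneg_right hw1 (by positivity)
      rw [hwM] at h2
      rw [h1, hwM]
      linarith
    have hreM : 2 * (e : ℝ) * M = S ^ 2 * M - x0 ^ 2 * M - η * M := by
      have : 2 * (e : ℝ) = S ^ 2 - x0 ^ 2 - η := by rw [hS2, hre]; ring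
      rw [this]
      ring
    have hηM : η * M ≤ S := by
      have h1 := mul_le_mul_of_nonneg_right hη1 hM0.le
      have h2 : σ ^ 2 / 128 * M = σ ^ 2 * M / 128 := by ring
      have h3 : σ * S ≤ 1 * S := mul_le_mul_of_nonneg_right (by linarith) hS0.le
      linarith
    have hηM0 : 0 ≤ η * M := by positivity
    have hρM' : ρ ^ 2 * M = S ^ 2 * M - S ^ 2 := by rw [hρM]; ring
    have heM1 : 15 / 16 * S ^ 2 ≤ 2 * (e : ℝ) * M := by
      rw [hreM]
      linarith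
    have heM2 : 2 * (e : ℝ) * M ≤ 33 / 32 * S ^ 2 + 5 * S := by
      rw [hreM]
      linarith
    have hke : k ≤ e := by
      have h1 : (k : ℝ) * M ≤ e * M := by
        have h2 : (k : ℝ) * M ≤ σ * S / 4 * M := mul_le_mul_of_nonneg_right hk4 hM0.le
        have h3 : σ * S / 4 * M = S * (σ * M) / 4 := by ring
        have h4 : S * (σ * M) ≤ S * (δ * S / 2) := mul_le_mul_of_nonneg_left hσM hS0.le
        have h5 : S * (δ * S / 2) = δ * S * S / 2 := by ring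
        have h6 : δ * S * S ≤ 1 / 16 * S * S := mul_le_mul_of_nonneg_right hδS hS0.le
        have e2 : 1 / 16 * S * S = S ^ 2 / 16 := by ring
        have h7 : 0 < S ^ 2 := by positivity
        linarith
      have h8 : (k : ℝ) ≤ e := le_of_mul_le_mul_right h1 hM0
      exact_mod_cast h8
    have hx0S2 : 49 / 100 * S ^ 2 ≤ x0 ^ 2 := by
      have := pow_le_pow_left₀ (by positivity) hx7 2
      have e1 : (7 / 10 * S) ^ 2 = 49 / 100 * S ^ 2 := by ring
      linarith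
    have hgood : Good K r m (fun b => d' + 1 - b) ((d' + 2).choose 2) := by
      rw [hx0d] at hre hκ
      refine small_empty (e := e) (k := k) (η := η) (κ := κ) ha hab ?_ hm hre hη0 hκ0 hκ ?_ ?_ hke
        ?_ ?_ ?_
      · have : (a : ℝ) ≤ d' + 1 := by linarith
        exact_mod_cast this
      · rw [← hx0d]
        have h1 : M * σ / 2 = σ * M / 2 := by ring
        linarith
      · rw [div_le_iff₀ hM0, hM] at hk1
        exact hk1
      · rw [← hx0d]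
        have h1 : (k : ℝ) * m ≤ k * M := mul_le_mul_of_nonneg_left (by rw [hM]; linarith) hk0
        have h2 : (k : ℝ) * M ≤ σ * S / 4 * M := mul_le_mul_of_nonneg_right hk4 hM0.le
        have h3 : σ * S / 4 * M = S * (σ * M) / 4 := by ring
        have h4 : S * (σ * M) ≤ S * (δ * S / 2) := mul_le_mul_of_nonneg_left hσM hS0.le
        have h5 : S * (δ * S / 2) = δ * S * S / 2 := by ring
        have h6 : δ * S * S ≤ 1 / 16 * S * S := mul_le_mul_of_nonneg_right hδS hS0.le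
        have e2 : 1 / 16 * S * S = S ^ 2 / 16 := by ring
        have h7 : 0 < S ^ 2 := by positivity
        linarith
      · rw [← hx0d]
        have h1 : (e : ℝ) * (m - 1) ≤ e * M := mul_le_mul_of_nonneg_left (by rw [hM]; linarith) he0
        have h2 : (e : ℝ) * M = 2 * e * M / 2 := by ring
        linarith
      · rw [← hx0d, hid x0]
        have h1 : x0 * ((d' : ℝ) + 3 / 2) ≤ x0 * (F - 7 / 8 * ε) :=
          mul_le_mul_of_nonneg_left (by linarith) hx0.le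
        have h2 : x0 * (F - 7 / 8 * ε) = x0 * F - 7 / 8 * (x0 * ε) := by ring
        have h3 : 7 / 10 * S * (16 * δ) ≤ x0 * ε :=
          mul_le_mul hx7 hεδ (by positivity) hx0.le
        have h4 : 7 / 10 * S * (16 * δ) = 112 / 10 * (S * δ) := by ring
        have h5 : 0 ≤ M * (x0 - F / (m + 1)) ^ 2 / 2 := by positivity
        have h6 : η * m ≤ σ * S := by
          have h7 : η * m ≤ η * M := mul_le_mul_of_nonneg_left (by rw [hM]; linarith) hη0
          have h8 := mul_le_mul_of_nonneg_right hη1 hM0.le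
          have h9 : σ ^ 2 / 128 * M = σ ^ 2 * M / 128 := by ring
          have h10 : 0 ≤ σ * S := by positivity
          linarith
        have h7 : S * δ = δ * S := by ring
        linarith
    have h8 := Good.shrink (K := K) (d' + 1) (d + 1) (n := fun b => d' + 1 - b)
      (n' := fun b => d + 1 - b) (fun c hc => by omega) (fun c => by omega)
      (by rw [sum_stair]; exact hgood)
    rw [sum_stair] at h8
    exact h8
  · -- regular side
    apply Good.le (min_le_right _ _)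
    obtain ⟨d', hd'⟩ : ∃ d' : ℕ, d' = ⌈Fc + ε - 3 / 2⌉₊ := ⟨_, rfl⟩
    have hd'1 : Fc + ε - 3 / 2 ≤ d' := by rw [hd']; exact Nat.le_ceil _
    have hd'2 : (d' : ℝ) < Fc + ε - 3 / 2 + 1 := by
      rw [hd']
      exact Nat.ceil_lt_add_one (by linarith)
    have hdd' : d' ≤ d := by
      rw [hd']
      exact Nat.ceil_le.2 (by linarith)
    obtain ⟨a, b, e, x0, η, κ, ha, hab, hx0d, ha4, haS, hre, hη0, hη1, hκ0, hκ, hκ1, hx7, hxS,
      habs⟩ := hstart m S F ((d' : ℝ) + 3 / 2) hSd hF0 hF2 hm hmδ (by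
        rw [abs_le]
        constructor <;> linarith)
    have hx0 : 0 < x0 := by linarith
    have hgood : Good K r m (fun b => d' + 1 - b) (r * (m + 1).choose 2) := by
      rw [hx0d] at hre
      refine small_regular (e := e) (η := η) ha (by omega) hre hη0 ?_
      rw [← hx0d, hid x0]
      have h1 : x0 * (F + ε) ≤ x0 * ((d' : ℝ) + 3 / 2) :=
        mul_le_mul_of_nonneg_left (by linarith) hx0.le
      have h2 : x0 * (F + ε) = x0 * F + x0 * ε := by ring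
      have h3 : 7 / 10 * S * (16 * δ) ≤ x0 * ε :=
        mul_le_mul hx7 hεδ (by positivity) hx0.le
      have h4 : 7 / 10 * S * (16 * δ) = 112 / 10 * (S * δ) := by ring
      have h5 := hsqb x0 habs
      have h6 : η * m ≤ σ * S := by
        have h7 : η * m ≤ η * M := mul_le_mul_of_nonneg_left (by rw [hM]; linarith) hη0
        have h8 := mul_le_mul_of_nonneg_right hη1 hM0.le
        have h9 : σ ^ 2 / 128 * M = σ ^ 2 * M / 128 := by ring
        have h10 : 0 ≤ σ * S := by positivity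
        linarith
      have h7 : S * δ = δ * S := by ring
      linarith
    exact Good.mono (fun c => by omega) hgood

end Pool.Agent.Helper7.NM
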