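import Pool.Agent.Helper7.NM.LargeNum
import Pool.Agent.Helper7.NM.SmallNum
import Pool.Agent.Helper7.FineTune

set_option autoImplicit false

/-! The window theorem in every characteristic. -/

namespace Pool.Agent.Helper7.NM

open Pool.Agent.Helper41.Fat Pool.Agent.Helper42.Game Pool.Agent.Helper42.Eps

theorem centre_up {r m : ℕ} (hr : 1 ≤ r) :
    √((r : ℝ) * m * (m + 1) + 1 / 4) ≤ √(r : ℝ) * (m + 1 / 2) := by
  have hr1 : (1 : ℝ) ≤ r := by exact_mod_cast hr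
  have hr0 : (0 : ℝ) ≤ r := by linarith
  have hm0 : (0 : ℝ) ≤ m := Nat.cast_nonneg m
  apply Real.sqrt_le_iff.2
  constructor
  · positivity
  · rw [mul_pow, Real.sq_sqrt hr0]
    have : (r : ℝ) * (m + 1 / 2) ^ 2 = r * m * (m + 1) + r / 4 := by ring
    rw [this]
    linarith

theorem centre_low {r m : ℕ} {δ : ℝ} (hr : 1 ≤ r) (hδ0 : 0 < δ) (hδ1 : δ ≤ 1)
    (hm : 256 * √(r : ℝ) ≤ m * δ) :
    √(r : ℝ) * (m + 1 / 2) - δ ≤ √((r : ℝ) * m * (m + 1) + 1 / 4) := by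
  have hr1 : (1 : ℝ) ≤ r := by exact_mod_cast hr
  have hr0 : (0 : ℝ) ≤ r := by linarith
  have hm0 : (0 : ℝ) ≤ m := Nat.cast_nonneg m
  obtain ⟨S, hS⟩ : ∃ S : ℝ, S = √(r : ℝ) := ⟨_, rfl⟩
  have hS2 : S * S = r := by rw [hS]; exact Real.mul_self_sqrt hr0
  have hS0 : 0 ≤ S := by rw [hS]; exact Real.sqrt_nonneg _
  rw [← hS] at hm ⊢
  apply Real.le_sqrt_of_sq_le
  have h1 : (S * (m + 1 / 2) - δ) ^ 2 = S * S * (m + 1 / 2) ^ 2 - 2 * S * (m * δ) - S * δ + δ ^ 2 := by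
    ring
  have h2 : S * S * (m + 1 / 2) ^ 2 = r * m * (m + 1) + r / 4 := by rw [hS2]; ring
  have h3 : S * (256 * S) ≤ S * (m * δ) := mul_le_mul_of_nonneg_left hm hS0
  have h4 : S * (256 * S) = 256 * r := by rw [← hS2]; ring
  have h5 : 0 ≤ S * δ := by positivity
  have h6 : δ ^ 2 ≤ 1 := pow_le_one₀ hδ0.le hδ1
  rw [h1, h2]
  linarith

theorem main_window (ε : ℝ) (hε : 0 < ε) (N : ℕ) :
    ∃ r0 : ℕ, ∀ r : ℕ, r0 ≤ r → ∀ (K : Type*) [Field K] [Infinite K] (m d : ℕ),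
      ((d : ℝ) + 3 / 2 ≤ √((r : ℝ) * m * (m + 1) + 1 / 4) - ε - m / (r : ℝ) ^ N ∨
        √((r : ℝ) * m * (m + 1) + 1 / 4) + ε + m / (r : ℝ) ^ N ≤ (d : ℝ) + 3 / 2) →
      Good K r m (fun b => d + 1 - b) (min ((d + 2).choose 2) (r * (m + 1).choose 2)) := by
  obtain ⟨ε', hε'⟩ : ∃ ε' : ℝ, ε' = min ε (1 / 2) := ⟨_, rfl⟩
  have h0 : 0 < ε' := by rw [hε']; exact lt_min hε (by norm_num)
  have h1 : ε' ≤ ε := by rw [hε']; exact min_le_left _ _
  have h2 : ε' ≤ 1 / 2 := by rw [hε']; exact min_le_right _ _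
  obtain ⟨δ, hδ⟩ : ∃ δ : ℝ, δ = ε' / 32 := ⟨_, rfl⟩
  have hδ0 : 0 < δ := by rw [hδ]; positivity
  obtain ⟨r1, hr1⟩ := small_window (ε := ε') (δ := δ) hδ0 (by linarith) h2
  obtain ⟨r2, hr2⟩ := large_window (ε := ε' / 2) (δ := δ) (N := N) hδ0 (by linarith) (by linarith)
    (Pool.Agent.Helper7.Nt.fine_tune δ hδ0 (by linarith) (N + 1))
  refine ⟨max 1 (max r1 r2), fun r hr K _ _ m d h => ?_⟩
  have hr' : 1 ≤ r := le_trans (le_max_left _ _) hr
  have hr1' : r1 ≤ r := le_trans (le_trans (le_max_left _ _) (le_max_right _ _)) hr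
  have hr2' : r2 ≤ r := le_trans (le_trans (le_max_right _ _) (le_max_right _ _)) hr
  have hq : 0 ≤ (m : ℝ) / (r : ℝ) ^ N := by positivity
  rcases Nat.eq_zero_or_pos m with hm | hm
  · subst hm
    exact Good.le (by simp) (Good.final r 0 _)
  rcases le_or_gt (256 * √(r : ℝ)) (m * δ) with hmδ | hmδ
  · apply hr2 r hr2' K m d hmδ
    rcases h with h | h
    · left
      have := centre_up (m := m) hr'
      linarith
    · right
      have := centre_low hr' hδ0 (by linarith) hmδ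
      linarith
  · apply hr1 r hr1' K m d hm hmδ
    rcases h with h | h
    · left
      linarith
    · right
      linarith

end Pool.Agent.Helper7.NM
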