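import Pool.Agent.Helper7.NM.Classical
import Pool.Agent.Helper7.NM.Flip

set_option autoImplicit false

/-! NM-3. The nodal move, in every characteristic.

Let `G` be as in `exists_nodal`, `N k = n (Q - k)` for `k ≤ Q`, `0` for `k > Q`.

`nodal_generator`: for `i ≤ Q`, `k < nod δ Q n i`, `k < M`, let `c` be the polynomials of
`exists_nodal`, `p = ∑_l G^l c_l = X^k + X^(k+1) v`, and
`P = (X - C G)^i * ∑_l C c_l * X^l ∈ K[X][X]` (sum over `l ≤ Q - i`). `P ∈ rows K N`: the coefficient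
of `X^l'` is a combination of `G^(i - (l' - l)) c_l`, `l ≤ l' ≤ l + i`, of degree
`< δ (i - (l' - l)) + N l - δ i ≤ N l ≤ N l'` (if `c_l ≠ 0` then `N l > δ i`), and `l' ≤ Q`.
`Gt t (t^M) (G.comp (C t * X)) P = (C (C (t^M)) * X)^i * ∑_l (C (G(tX)) + C (C (t^M)) X)^l C (c_l(tX))`.
With `S = K[X][X]` and `T` the variable of `S[T]`, `a ↦ a(T x)` the algebra map
`aeval (X * C (C X)) : K[X] → S[X]`:
`∑_l (G(T x) + T^M z)^l c_l(T x) ≡ p(T x) = T^k x^k + T^(k+1) x^(k+1) v(T x)` modulo `T^M`, so it is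
`T^k (x^k + T V)` as `k < M`. So `w = C (C X ^ k * X ^ i) + X * V'` has
`w.eval (C (C t)) = (t^(M i + k))⁻¹ • Gt … P`.

`nodal_limit`: the set of the possible `w.coeff 0` is a submodule (copy `limit_existsI` in
`Helper7/FreeMove.lean`) and contains the monomials `x^k z^i` with `k < n' i`, `n' = nod δ Q n`.

`nodal_move`: as `moveI` in `Helper7/FreeMove.lean`: with `M` larger than all `n' i` and `M ≥ 1`; use
`finite_bad` instead of `exists_specialization` and avoid also `t = 0` and the zeros of the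
polynomial `1 + t^M η'(0)` in `t` (`M ≥ 1`): then `θ = G + C (t^M) * η'.comp (C t⁻¹ * X)` has
`θ.coeff 0 = 1 + t^M η'(0) ≠ 0`, `transport` gives independence for `θ`, and `flip_good` concludes. -/

open Polynomial

namespace Pool.Agent.Helper7.NM

open Pool.Agent.Helper41.Fat

variable {K : Type*} [Field K]

/-- The polynomial `(X - C G)^i * ∑ C c_l X^l` lies in the row space. -/
private theorem gen_mem_rows {Q δ : ℕ} {n : ℕ → ℕ} (hn : ∀ c c', c ≤ c' → c' ≤ Q → n c' ≤ n c)
    {G : K[X]} (hG : G.natDegree ≤ δ) {i : ℕ} (hi : i ≤ Q) (c : ℕ → K[X])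
    (hc : ∀ l ≤ Q - i, c l ∈ degreeLT K (n (Q - l) - δ * i)) :
    ((X - C G) ^ i * ∑ l ∈ Finset.range (Q - i + 1), C (c l) * X ^ l : K[X][X]) ∈
      rows K (fun k => if k ≤ Q then n (Q - k) else 0) := by
  have h1 : ((X - C G) ^ i * ∑ l ∈ Finset.range (Q - i + 1), C (c l) * X ^ l : K[X][X])
      = ∑ l ∈ Finset.range (Q - i + 1), ∑ a ∈ Finset.range (i + 1),
        C (((-G) ^ (i - a) * ((i.choose a : ℕ) : K[X])) * c l) * X ^ (a + l) := by
    rw [Finset.mul_sum]
    refine Finset.sum_congr rfl fun l _ => ?_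
    rw [sub_eq_add_neg, ← C_neg, (Commute.all _ _).add_pow, Finset.sum_mul]
    refine Finset.sum_congr rfl fun a _ => ?_
    simp only [C_mul, C_pow, map_natCast, pow_add]
    ring
  rw [h1]
  refine Submodule.sum_mem _ fun l hl => Submodule.sum_mem _ fun a ha => ?_
  rw [Finset.mem_range] at hl ha
  apply mono_mem_rows
  have hle : a + l ≤ Q := by omega
  rw [if_pos hle]
  by_cases h0 : c l = 0
  · rw [h0, mul_zero]; exact Submodule.zero_mem _
  have hcl := hc l (by omega)
  rw [mem_degreeLT, degree_eq_natDegree h0] at hcl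
  have hcl' : (c l).natDegree < n (Q - l) - δ * i := by exact_mod_cast hcl
  have hmono : n (Q - l) ≤ n (Q - (a + l)) := hn _ _ (by omega) (by omega)
  have hdeg : (((-G) ^ (i - a) * ((i.choose a : ℕ) : K[X])) * c l).natDegree
      ≤ δ * (i - a) + (c l).natDegree := by
    refine natDegree_mul_le.trans (Nat.add_le_add_right ?_ _)
    refine natDegree_mul_le.trans ?_
    rw [natDegree_natCast, add_zero]
    refine natDegree_pow_le.trans ?_
    rw [natDegree_neg, mul_comm]
    exact Nat.mul_le_mul_right _ hG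
  rw [mem_degreeLT]
  refine lt_of_le_of_lt degree_le_natDegree ?_
  have h2 : δ * (i - a) ≤ δ * i := Nat.mul_le_mul_left _ (Nat.sub_le _ _)
  exact_mod_cast (by omega : (((-G) ^ (i - a) * ((i.choose a : ℕ) : K[X])) * c l).natDegree
    < n (Q - (a + l)))

private theorem add_pow_mod {S : Type*} [CommRing S] (a b : S) (l : ℕ) :
    ∃ W : S, (a + b) ^ l = a ^ l + b * W := by
  induction l with
  | zero => exact ⟨0, by simp⟩
  | succ l ih =>
    obtain ⟨W, hW⟩ := ih
    exact ⟨a ^ l + W * (a + b), by rw [pow_succ, hW]; ring⟩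

theorem nodal_generator {Q δ : ℕ} {n : ℕ → ℕ} (hn : ∀ c c', c ≤ c' → c' ≤ Q → n c' ≤ n c)
    {G : K[X]} (hG : G.natDegree ≤ δ) {i k M : ℕ} (hi : i ≤ Q) (hk : k < M) (c : ℕ → K[X])
    (hc : ∀ l ≤ Q - i, c l ∈ degreeLT K (n (Q - l) - δ * i))
    (hp : X ^ (k + 1) ∣ ∑ l ∈ Finset.range (Q - i + 1), G ^ l * c l - X ^ k) :
    ∃ w : K[X][X][X], w.coeff 0 = C (X ^ k) * X ^ i ∧ ∀ t : K, t ≠ 0 →
      ∃ z ∈ rows K (fun k => if k ≤ Q then n (Q - k) else 0),
        Gt t (t ^ M) (G.comp (C t * X)) z = w.eval (algebraMap K K[X][X] t) := by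
  obtain ⟨v, hv⟩ := hp
  let φ : K[X] →ₐ[K] K[X][X][X] := aeval (X * C (C X) : K[X][X][X])
  -- the element `E`
  have hE : ∃ V : K[X][X][X], ∑ l ∈ Finset.range (Q - i + 1),
      (φ G + X ^ M * C X) ^ l * φ (c l) = X ^ k * (C ((C X : K[X][X]) ^ k) + X * V) := by
    have h1 : ∃ u : K[X][X][X], ∑ l ∈ Finset.range (Q - i + 1),
        (φ G + X ^ M * C X) ^ l * φ (c l) = ∑ l ∈ Finset.range (Q - i + 1),
        (φ G) ^ l * φ (c l) + X ^ (k + 1) * u := by
      choose W hW using fun l => add_pow_mod (φ G) (X ^ M * C X : K[X][X][X]) l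
      refine ⟨X ^ (M - (k + 1)) * C X * ∑ l ∈ Finset.range (Q - i + 1), W l * φ (c l), ?_⟩
      have hMk : (X : K[X][X][X]) ^ M = X ^ (k + 1) * X ^ (M - (k + 1)) := by
        rw [← pow_add]; congr 1; omega
      rw [Finset.mul_sum, Finset.mul_sum, ← Finset.sum_add_distrib]
      refine Finset.sum_congr rfl fun l _ => ?_
      rw [hW l, hMk]
      ring
    obtain ⟨u, hu⟩ := h1
    have h3 : ∑ l ∈ Finset.range (Q - i + 1), (φ G) ^ l * φ (c l)
        = (X * C (C X)) ^ k + (X * C (C X)) ^ (k + 1) * φ v := by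
      have h4 : ∑ l ∈ Finset.range (Q - i + 1), G ^ l * c l = X ^ k + X ^ (k + 1) * v := by
        rw [← hv]; ring
      have h5 := congrArg φ h4
      rw [map_sum, map_add, map_mul, map_pow, map_pow, aeval_X] at h5
      rw [← h5]
      exact Finset.sum_congr rfl fun l _ => by rw [map_mul, map_pow]
    refine ⟨(C (C X)) ^ (k + 1) * φ v + u, ?_⟩
    rw [h3] at hu
    rw [hu]
    simp only [C_pow]
    ring
  obtain ⟨V, hV⟩ := hE
  refine ⟨C ((C X : K[X][X]) ^ k * X ^ i) + X * (C (X ^ i) * V), ?_, ?_⟩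
  · rw [coeff_add, coeff_C_zero, mul_coeff_zero, coeff_X_zero, zero_mul, add_zero, C_pow]
  · intro t ht
    have hev : ∀ a : K[X], eval (algebraMap K K[X][X] t) (φ a) = C (a.comp (C t * X)) := by
      intro a
      have h1 : ((Polynomial.evalRingHom (algebraMap K K[X][X] t)).comp
          (φ : K[X] →+* K[X][X][X])) = (C : K[X] →+* K[X][X]).comp (compRingHom (C t * X)) := by
        apply Polynomial.ringHom_ext
        · intro b
          simp only [RingHom.comp_apply, RingHom.coe_coe, φ, aeval_C, coe_compRingHom_apply,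
            C_comp, coe_evalRingHom]
          change eval (C (C t)) (C (C (C b))) = C (C b)
          rw [eval_C]
        · simp only [RingHom.comp_apply, RingHom.coe_coe, φ, aeval_X, coe_compRingHom_apply,
            X_comp, coe_evalRingHom, eval_mul, eval_X, eval_C]
          rw [algebraMap_eq_CC, C_mul]
      exact congrArg (fun f => f a) h1
    refine ⟨(t ^ (M * i + k))⁻¹ • ((X - C G) ^ i *
      ∑ l ∈ Finset.range (Q - i + 1), C (c l) * X ^ l), ?_, ?_⟩
    · exact Submodule.smul_mem _ _ (gen_mem_rows hn hG hi c hc)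
    · have h1 := congrArg (fun q => eval (algebraMap K K[X][X] t) q) hV
      simp only [eval_finsetSum, eval_mul, eval_C, eval_pow, eval_add, eval_X, hev] at h1
      have h2 : Gt t (t ^ M) (G.comp (C t * X)) ((X - C G) ^ i *
          ∑ l ∈ Finset.range (Q - i + 1), C (c l) * X ^ l)
          = ((algebraMap K K[X][X] t) ^ M * X) ^ i * ((algebraMap K K[X][X] t) ^ k *
            ((C X : K[X][X]) ^ k + (algebraMap K K[X][X] t) *
              eval (algebraMap K K[X][X] t) V)) := by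
        rw [← h1, map_mul, map_pow, map_sub, Gt_X, Gt_C, add_sub_cancel_left, map_sum]
        have e1 : (C (C (t ^ M)) : K[X][X]) = (algebraMap K K[X][X] t) ^ M := by
          rw [algebraMap_eq_CC, C_pow, C_pow]
        rw [e1]
        congr 1
        refine Finset.sum_congr rfl fun l _ => ?_
        rw [map_mul, map_pow, Gt_C, Gt_X, e1, mul_comm]
      rw [Gt_smul, h2, smul_eq_CC]
      have h4 : (C (C (t ^ (M * i + k))⁻¹) : K[X][X]) * (algebraMap K K[X][X] t) ^ (M * i + k)
          = 1 := by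
        rw [algebraMap_eq_CC, ← C_pow, ← C_pow, ← C_mul, ← C_mul,
          inv_mul_cancel₀ (pow_ne_zero _ ht), C_1, C_1]
      have h5 : ((algebraMap K K[X][X] t) ^ M * X) ^ i * ((algebraMap K K[X][X] t) ^ k *
            ((C X : K[X][X]) ^ k + (algebraMap K K[X][X] t) *
              eval (algebraMap K K[X][X] t) V))
          = (algebraMap K K[X][X] t) ^ (M * i + k) * (X ^ i *
            ((C X : K[X][X]) ^ k + (algebraMap K K[X][X] t) *
              eval (algebraMap K K[X][X] t) V)) := by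
        rw [mul_pow, ← pow_mul, pow_add]; ring
      rw [h5, ← mul_assoc, h4, one_mul]
      simp only [eval_add, eval_mul, eval_C, eval_X, C_pow, eval_pow]
      ring

/-- The set of all limits. -/
theorem nodal_limit [Infinite K] {Q δ : ℕ} {n : ℕ → ℕ}
    (hn : ∀ c c', c ≤ c' → c' ≤ Q → n c' ≤ n c) {G : K[X]} (hG : G.natDegree ≤ δ)
    (hG2 : ∀ i ≤ Q, ∀ j < nod δ Q n i, ∃ c : ℕ → K[X],
        (∀ k ≤ Q - i, c k ∈ degreeLT K (n (Q - k) - δ * i)) ∧
        X ^ nod δ Q n i ∣ ∑ k ∈ Finset.range (Q - i + 1), G ^ k * c k - X ^ j) (M : ℕ)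
    (hM : ∀ i, nod δ Q n i ≤ M) {P : K[X][X]} (hP : P ∈ rows K (nod δ Q n)) :
    ∃ w : K[X][X][X], w.coeff 0 = P ∧ ∀ t : K, t ≠ 0 →
      ∃ z ∈ rows K (fun k => if k ≤ Q then n (Q - k) else 0),
        Gt t (t ^ M) (G.comp (C t * X)) z = w.eval (algebraMap K K[X][X] t) := by
  classical
  -- the set of such `P` is a submodule
  let T : Submodule K K[X][X] :=
    { carrier := {P | ∃ w : K[X][X][X], w.coeff 0 = P ∧ ∀ t : K, t ≠ 0 →
        ∃ z ∈ rows K (fun k => if k ≤ Q then n (Q - k) else 0),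
          Gt t (t ^ M) (G.comp (C t * X)) z = w.eval (algebraMap K K[X][X] t)}
      zero_mem' := ⟨0, by simp, fun t _ => ⟨0, Submodule.zero_mem _, by simp⟩⟩
      add_mem' := by
        rintro P Q ⟨w, hw, hw'⟩ ⟨v, hv, hv'⟩
        refine ⟨w + v, by rw [coeff_add, hw, hv], fun t ht => ?_⟩
        obtain ⟨z, hz, hz'⟩ := hw' t ht
        obtain ⟨y, hy, hy'⟩ := hv' t ht
        exact ⟨z + y, Submodule.add_mem _ hz hy, by rw [map_add, hz', hy', eval_add]⟩
      smul_mem' := by
        rintro a P ⟨w, hw, hw'⟩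
        refine ⟨C (C (C a)) * w, by rw [coeff_C_mul, hw, smul_eq_CC], fun t ht => ?_⟩
        obtain ⟨z, hz, hz'⟩ := hw' t ht
        exact ⟨a • z, Submodule.smul_mem _ _ hz, by
          rw [Gt_smul, hz', eval_mul, eval_C, smul_eq_CC]⟩ }
  suffices h : P ∈ T from h
  have hmono : ∀ i k, k < nod δ Q n i → (C (X ^ k) * X ^ i : K[X][X]) ∈ T := by
    intro i k hk
    have hi : i ≤ Q := by
      by_contra hcon
      rw [nod, if_neg hcon] at hk
      omega
    obtain ⟨c, hc, hd⟩ := hG2 i hi k hk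
    exact nodal_generator hn hG hi (lt_of_lt_of_le hk (hM i)) c hc
      (dvd_trans (pow_dvd_pow _ hk) hd)
  rw [P.as_sum_support_C_mul_X_pow]
  apply Submodule.sum_mem
  intro i _
  have hc := hP i
  rw [degreeLT_eq_span_X_pow] at hc
  have hmap : Submodule.map ((LinearMap.mulRight K (X ^ i : K[X][X])) ∘ₗ
      ((Algebra.linearMap K[X] K[X][X]).restrictScalars K))
      (Submodule.span K ↑(Finset.image (fun n => (X : K[X]) ^ n)
        (Finset.range (nod δ Q n i)))) ≤ T := by
    rw [Submodule.map_span_le]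
    intro q hq
    simp only [Finset.coe_image, Finset.coe_range, Set.mem_image, Set.mem_Iio] at hq
    obtain ⟨k, hk, rfl⟩ := hq
    exact hmono i k hk
  exact hmap (Submodule.mem_map_of_mem hc)

/-- **The nodal move.** -/
theorem nodal_move [Infinite K] {r m R : ℕ} (δ Q : ℕ) {n : ℕ → ℕ}
    (hn : ∀ c c', c ≤ c' → c' ≤ Q → n c' ≤ n c) (hg : Good K r m (nod δ Q n) R) :
    Good K r m n R := by
  classical
  obtain ⟨η', w', hw', hl⟩ := hg
  obtain ⟨G, hG, hG0, hG2⟩ := exists_nodal (K := K) δ Q n hn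
  let M := ∑ i ∈ Finset.range (Q + 1), nod δ Q n i + 1
  have hM : ∀ i, nod δ Q n i ≤ M := by
    intro i
    by_cases hi : i < Q + 1
    · exact (Finset.single_le_sum (f := fun i => nod δ Q n i) (fun _ _ => Nat.zero_le _)
        (Finset.mem_range.2 hi)).trans (Nat.le_succ _)
    · have : nod δ Q n i = 0 := by rw [nod, if_neg (by omega)]
      rw [this]; exact Nat.zero_le _
  choose w hw0 hwt using fun a => nodal_limit hn hG hG2 M hM (hw' a)
  have hfin1 := finite_bad (Phi K r m η') w (by simpa only [hw0] using hl)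
  have hpne : (1 + X ^ M * C (η'.coeff 0) : K[X]) ≠ 0 := by
    intro h
    have h1 := congrArg (fun q => q.eval 0) h
    have hM1 : M ≠ 0 := Nat.succ_ne_zero _
    simp [hM1] at h1
  have hfin2 : ({t : K | (1 + X ^ M * C (η'.coeff 0) : K[X]).IsRoot t}).Finite :=
    Polynomial.finite_setOfPred_isRoot hpne
  obtain ⟨t, ht⟩ := ((hfin1.union hfin2).union (Set.finite_singleton (0 : K))).exists_notMem
  simp only [Set.mem_union, Set.mem_ofPred_eq, Set.mem_singleton_iff, not_or, not_not] at ht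
  obtain ⟨⟨hlt, htr⟩, ht0⟩ := ht
  choose z hz hzt using fun a => hwt a t ht0
  have hη : (G + C (t ^ M) * η'.comp (C t⁻¹ * X) : K[X]).comp (C t * X)
      = G.comp (C t * X) + C (t ^ M) * η' := by
    rw [add_comp, mul_comp, C_comp, comp_assoc, mul_comp,
      C_comp, X_comp, ← mul_assoc, ← C_mul, inv_mul_cancel₀ ht0, C_1, one_mul, comp_X]
  have hθ : (G + C (t ^ M) * η'.comp (C t⁻¹ * X) : K[X]).coeff 0 ≠ 0 := by
    rw [coeff_add, coeff_C_mul, hG0]
    have h1 : (η'.comp (C t⁻¹ * X)).coeff 0 = η'.coeff 0 := by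
      rw [coeff_zero_eq_eval_zero, coeff_zero_eq_eval_zero, eval_comp, eval_mul, eval_X, mul_zero]
    rw [h1]
    intro h2
    apply htr
    rw [IsRoot.def, eval_add, eval_one, eval_mul, eval_pow, eval_X, eval_C]
    exact h2
  refine flip_good _ hθ z hz ?_
  apply transport hη
  simpa only [hzt] using hlt

end Pool.Agent.Helper7.NM
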